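import Pool.Agent.Lib.H43Dist.GroupDist

/-!
# CHUNK C2: distortion (chunk C1 is in GroupPart0, GroupSolv, Wreath)
-/

set_option autoImplicit false

namespace Pool.Agent.Lib.H43Dist

/-- CHUNK C2.  Hint: for `k = P n` let `β_k = θ^{-k} β θ^k`; the supports `{s = P i}` and
`{s = P j - P n}` meet only in `s = 0` (Sidon property, from `2 * P n < P (n+1)`), so
`γ_n := β β_k β β_k` acts only at index `0`, where it is `(τ, true) ↦ (τ + 2 * (5 ^ n - 1), true)`,
`(τ, false) ↦ (τ - 2 * (5 ^ n - 1), false)`.  `γ := γ_1`, `γ_n = γ ^ N_n`, `N_n = (5 ^ n - 1) / 4`,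
`N_{n+1} = 5 * N_n + 1`; greedy expansion of `m` in the `N_n` with coefficients at most `5`. -/
theorem distortion (P : ℕ → ℤ) (β : Equiv.Perm Om) (hβ : IsBeta P β) (C : ℝ)
    (h0 : P 0 = 0) (h2 : ∀ n, 2 * P n < P (n + 1)) (h4 : ∀ n, (P n : ℝ) ≤ C * 4 ^ n) :
    ∃ γ : Equiv.Perm Om,
      (∀ (n : ℕ) (τ : ℤ), (γ ^ n) (0, τ, true) = (0, τ + 8 * n, true)) ∧
      (∃ l : List (Equiv.Perm Om), IsWord β theta l ∧ l.prod = γ) ∧
      ∀ ε : ℝ, 0 < ε → ∃ N : ℕ, ∀ n : ℕ, N ≤ n → ∃ l : List (Equiv.Perm Om),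
        IsWord β theta l ∧ l.prod = γ ^ n ∧ (l.length : ℝ) ≤ ε * n := by
  obtain ⟨D, hD1, hD⟩ : ∃ D : ℝ, 1 ≤ D ∧ ∀ n, ((P n).toNat : ℝ) ≤ D * 4 ^ n := by
    refine ⟨max C 1, le_max_right _ _, fun n => ?_⟩
    have h3 : ((P n).toNat : ℝ) = (P n : ℝ) := by
      have := Int.toNat_of_nonneg (GroupDist.P_nonneg P h0 h2 n)
      exact_mod_cast congrArg (fun z : ℤ => (z : ℝ)) this
    rw [h3]
    refine (h4 n).trans (mul_le_mul_of_nonneg_right (le_max_left _ _) (by positivity))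
  refine ⟨GroupDist.cw β (P 1).toNat, fun n τ => ?_, ?_, fun ε hε => ?_⟩
  · have := ((GroupDist.isTr_cw P β hβ h0 h2 1 le_rfl).pow n).pos τ
    rw [this]
    norm_num
  · exact ⟨_, GroupDist.ww_isWord β _, GroupDist.ww_prod β _⟩
  · obtain ⟨K, hK⟩ := pow_unbounded_of_one_lt ((256 * D + ε) / ε) (show (1 : ℝ) < 5 / 4 by norm_num)
    refine ⟨GroupDist.NN K, fun n hn => ?_⟩
    have hmono : Monotone GroupDist.NN := by
      apply monotone_nat_of_le_succ
      intro j
      have : GroupDist.NN (j + 1) = 5 * GroupDist.NN j + 1 := rfl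
      omega
    obtain ⟨k, hk1, hk2, hk3⟩ : ∃ k, K ≤ k ∧ GroupDist.NN k ≤ n ∧ n < GroupDist.NN (k + 1) := by
      have hex : ∃ j, n < GroupDist.NN j := by
        refine ⟨n + 1, ?_⟩
        have : ∀ j, j ≤ GroupDist.NN j := by
          intro j
          induction j with
          | zero => exact le_rfl
          | succ j ih =>
            have : GroupDist.NN (j + 1) = 5 * GroupDist.NN j + 1 := rfl
            omega
        have := this (n + 1)
        omega
      classical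
      have h5 := Nat.find_spec hex
      have h6 : Nat.find hex ≠ 0 := by
        intro h
        rw [h] at h5
        exact absurd h5 (by simp [GroupDist.NN])
      obtain ⟨k, hk⟩ := Nat.exists_eq_succ_of_ne_zero h6
      have h7 : ¬ n < GroupDist.NN k := Nat.find_min hex (by omega)
      refine ⟨k, ?_, by omega, by rw [hk] at h5; exact h5⟩
      by_contra hlt
      have : GroupDist.NN (k + 1) ≤ GroupDist.NN K := hmono (by omega)
      rw [hk] at h5
      have h8 : n < GroupDist.NN (k + 1) := h5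
      omega
    obtain ⟨l, hl1, hl2, hl3⟩ := GroupDist.greedy P β hβ h0 h2 D hD1 hD k n hk3
    refine ⟨l, hl1, hl2, hl3.trans ?_⟩
    have h5 : ((256 * D + ε) / ε) < (5 / 4 : ℝ) ^ k :=
      hK.trans_le (pow_le_pow_right₀ (by norm_num) hk1)
    rw [div_lt_iff₀ hε, div_pow, div_mul_eq_mul_div, lt_div_iff₀ (by positivity)] at h5
    have h6 : (4 * (GroupDist.NN k : ℝ) + 1) = 5 ^ k := by exact_mod_cast GroupDist.NN_spec k
    have h7 : ((GroupDist.NN k : ℕ) : ℝ) ≤ (n : ℝ) := by exact_mod_cast hk2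
    have h8 : (1 : ℝ) ≤ 4 ^ k := one_le_pow₀ (by norm_num)
    have h9 : (4 : ℝ) ^ (k + 1) = 4 * 4 ^ k := by ring
    rw [← h6] at h5
    rw [h9]
    have h10 : ε * (GroupDist.NN k : ℝ) ≤ ε * n := mul_le_mul_of_nonneg_left h7 hε.le
    have h11 : ε ≤ ε * 4 ^ k := le_mul_of_one_le_right hε.le h8
    nlinarith

end Pool.Agent.Lib.H43Dist
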