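import Mathlib

/-!
# The statement to be proved (word for word the frozen statement S03263)
and the notions used in the reduction.
-/

set_option autoImplicit false

namespace Pool.Agent.Lib.H43Dist

/-- The frozen statement. -/
def Main : Prop :=
  ∃ k : ℕ, ∃ X : Set (ℤ → Fin k),
    (∀ x : ℤ → Fin k, (∀ N : ℕ, ∃ y ∈ X, ∀ i : ℤ, |i| ≤ (N : ℤ) → y i = x i) → x ∈ X) ∧
    (∀ x ∈ X, (fun n : ℤ => x (n + 1)) ∈ X ∧ (fun n : ℤ => x (n - 1)) ∈ X) ∧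
    ∃ G : Subgroup (Equiv.Perm X),
      (∀ φ ∈ G,
        (∀ x y : X, (∀ n : ℤ, (y : ℤ → Fin k) n = (x : ℤ → Fin k) (n + 1)) →
          ∀ n : ℤ, ((φ y : X) : ℤ → Fin k) n = ((φ x : X) : ℤ → Fin k) (n + 1)) ∧
        ∃ r : ℕ, ∀ x y : X,
          (∀ i : ℤ, |i| ≤ (r : ℤ) → (x : ℤ → Fin k) i = (y : ℤ → Fin k) i) →
          ((φ x : X) : ℤ → Fin k) 0 = ((φ y : X) : ℤ → Fin k) 0) ∧
      (∃ m : Set G → ℝ, (∀ A, 0 ≤ m A) ∧ m Set.univ = 1 ∧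
        (∀ A B, Disjoint A B → m (A ∪ B) = m A + m B) ∧
        (∀ (g : G) (A : Set G), m ((fun h : G => g * h) '' A) = m A)) ∧
      ∃ g : G, ¬ IsOfFinOrder g ∧
        ∃ S : Finset G, ∀ ε : ℝ, 0 < ε → ∃ N : ℕ, ∀ n : ℕ, N ≤ n →
          ∃ l : List G, (∀ s ∈ l, s ∈ S ∨ s⁻¹ ∈ S) ∧ l.prod = g ^ n ∧
            (l.length : ℝ) ≤ ε * (n : ℝ)

/-- A local map of the full shift `A^ℤ`: it commutes with all shifts and has finite radius. -/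
def IsLocal {A : Type} (F : (ℤ → A) → (ℤ → A)) : Prop :=
  (∀ (x : ℤ → A) (n : ℤ), F (fun i => x (i + n)) = fun i => F x (i + n)) ∧
  ∃ r : ℕ, ∀ x y : ℤ → A, (∀ i : ℤ, |i| ≤ (r : ℤ) → x i = y i) → F x 0 = F y 0

/-- `l` is a word in `β, θ` and their inverses. -/
def IsWord {Ω : Type} (β θ : Equiv.Perm Ω) (l : List (Equiv.Perm Ω)) : Prop :=
  ∀ s ∈ l, s = β ∨ s = θ ∨ s = β⁻¹ ∨ s = θ⁻¹

end Pool.Agent.Lib.H43Dist
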