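import Pool.Agent.Lib.H43Dist.Perm
import Pool.Agent.Lib.H43Dist.Statement

/-!
# Encoding of configurations and block maps
-/

set_option autoImplicit false

namespace Pool.Agent.Lib.H43Dist

/-- The alphabet. -/
abbrev Al := Fin 3 × Fin 3 × Rg × Option Q

/-- The point of `Al^ℤ` encoding a configuration. -/
def enc (c : Cfg) : ℤ → Al := fun i => (typ i, c.M i, c.R i, if i = c.p then some c.q else none)

theorem IsLocal.comp {A : Type} {F G : (ℤ → A) → (ℤ → A)} (hF : IsLocal F) (hG : IsLocal G) :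
    IsLocal (F ∘ G) := by
  obtain ⟨hF1, r, hF2⟩ := hF
  obtain ⟨hG1, s, hG2⟩ := hG
  refine ⟨fun x n => ?_, r + s, fun x y h => ?_⟩
  · simp only [Function.comp_apply]
    rw [hG1, hF1]
  · refine hF2 _ _ fun i hi => ?_
    have h1 := hG2 (fun j => x (j + i)) (fun j => y (j + i)) (fun j hj => h _ (by
      push_cast
      have := abs_add_le j i
      omega))
    rw [hG1, hG1] at h1
    simpa using h1

section W

/-- local rule at one cell -/
def cellW (σ : Fin 3 → Equiv.Perm (Q × Fin 3 × Rg)) (z : Al) : Al :=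
  match z with
  | (a, m, r, some q) => (a, (σ a (q, m, r)).2.1, (σ a (q, m, r)).2.2, some (σ a (q, m, r)).1)
  | (a, m, r, none) => (a, m, r, none)

/-- block map: apply the rule at the head -/
def wMap (σ : Fin 3 → Equiv.Perm (Q × Fin 3 × Rg)) (x : ℤ → Al) : ℤ → Al := fun i => cellW σ (x i)

theorem wMap_local (σ : Fin 3 → Equiv.Perm (Q × Fin 3 × Rg)) : IsLocal (wMap σ) :=
  ⟨fun _ _ => rfl, 0, fun x y h => by simp only [wMap, h 0 (by simp)]⟩

/-- the rule on configurations, as a function -/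
def cfgWf (σ : Fin 3 → Equiv.Perm (Q × Fin 3 × Rg)) (c : Cfg) : Cfg :=
  ⟨Function.update c.M c.p (σ (typ c.p) (c.q, c.M c.p, c.R c.p)).2.1,
    Function.update c.R c.p (σ (typ c.p) (c.q, c.M c.p, c.R c.p)).2.2, c.p,
    (σ (typ c.p) (c.q, c.M c.p, c.R c.p)).1⟩

theorem cfgWf_cfgWf (σ τ : Fin 3 → Equiv.Perm (Q × Fin 3 × Rg)) (h : ∀ a x, τ a (σ a x) = x)
    (c : Cfg) : cfgWf τ (cfgWf σ c) = c := by
  unfold cfgWf
  simp [h]

/-- the rule on configurations -/
def cfgW (σ : Fin 3 → Equiv.Perm (Q × Fin 3 × Rg)) : Equiv.Perm Cfg where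
  toFun := cfgWf σ
  invFun := cfgWf (fun a => (σ a)⁻¹)
  left_inv := cfgWf_cfgWf _ _ (by simp)
  right_inv := cfgWf_cfgWf _ _ (by simp)

theorem cfgW_apply (σ : Fin 3 → Equiv.Perm (Q × Fin 3 × Rg)) (c : Cfg) :
    cfgW σ c = cfgWf σ c := rfl

theorem cfgW_inv_apply (σ : Fin 3 → Equiv.Perm (Q × Fin 3 × Rg)) (c : Cfg) :
    (cfgW σ)⁻¹ c = cfgWf (fun a => (σ a)⁻¹) c := rfl

theorem wMap_enc (σ : Fin 3 → Equiv.Perm (Q × Fin 3 × Rg)) (c : Cfg) :
    wMap σ (enc c) = enc (cfgWf σ c) := by
  funext i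
  by_cases hi : i = c.p
  · subst hi
    simp [wMap, enc, cellW, cfgWf]
  · simp [wMap, enc, cellW, cfgWf, hi]

end W

section M

/-- which head arrives at a cell -/
def pick (dr : Q → ℤ) (l c r : Option Q) : Option Q :=
  if (∃ q, l = some q ∧ dr q = 1) then l
  else if (∃ q, c = some q ∧ dr q = 0) then c
  else if (∃ q, r = some q ∧ dr q = -1) then r
  else none

open Classical in
/-- block map: move the head -/
noncomputable def mMap (dr : Q → ℤ) (x : ℤ → Al) : ℤ → Al := fun i =>
  ((x i).1, (x i).2.1, (x i).2.2.1, pick dr (x (i - 1)).2.2.2 (x i).2.2.2 (x (i + 1)).2.2.2)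

theorem mMap_local (dr : Q → ℤ) : IsLocal (mMap dr) := by
  refine ⟨fun x n => ?_, 1, fun x y h => ?_⟩
  · funext i
    simp only [mMap]
    rw [show i - 1 + n = i + n - 1 by ring, show i + 1 + n = i + n + 1 by ring]
  · simp only [mMap]
    rw [h 0 (by simp), h (0 - 1) (by simp), h (0 + 1) (by simp)]

/-- moving the head of a configuration -/
def cfgMf (dr : Q → ℤ) (c : Cfg) : Cfg := ⟨c.M, c.R, c.p + dr c.q, c.q⟩

/-- moving the head of a configuration -/
def cfgM (dr : Q → ℤ) : Equiv.Perm Cfg where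
  toFun := cfgMf dr
  invFun := cfgMf (fun q => - dr q)
  left_inv c := by simp [cfgMf]
  right_inv c := by simp [cfgMf]

theorem pick_head (dr : Q → ℤ) (c : Q) (hc : dr c = 1 ∨ dr c = 0 ∨ dr c = -1) (p i : ℤ) :
    pick dr (if i - 1 = p then some c else none) (if i = p then some c else none)
      (if i + 1 = p then some c else none) = if i = p + dr c then some c else none := by
  unfold pick
  rcases hc with h | h | h
  · by_cases hi : i = p + 1
    · subst hi
      simp [h]
    · have h1 : ¬ i - 1 = p := by omega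
      rw [h, if_neg hi, if_neg h1]
      by_cases h3 : i = p <;> by_cases h4 : i + 1 = p <;> simp [h3, h4, h]
  · by_cases hi : i = p
    · subst hi
      simp [h]
    · rw [h, add_zero, if_neg hi]
      by_cases h3 : i - 1 = p <;> by_cases h4 : i + 1 = p <;> simp [h3, h4, h]
  · by_cases hi : i = p - 1
    · subst hi
      have h3 : ¬ (p - 1 - 1 = p) := by omega
      have h4 : ¬ (p - 1 = p) := by omega
      have h5 : p - 1 = p + -1 := by ring
      rw [if_neg h3, if_neg h4, h, if_pos h5, if_pos (sub_add_cancel p 1)]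
      simp [h]
    · have h1 : ¬ i + 1 = p := by omega
      have h2 : ¬ i = p + -1 := by omega
      rw [h, if_neg h2, if_neg h1]
      by_cases h3 : i - 1 = p <;> by_cases h4 : i = p <;> simp [h3, h4, h]

theorem mMap_enc (dr : Q → ℤ) (hdr : ∀ q, dr q = 1 ∨ dr q = 0 ∨ dr q = -1) (c : Cfg) :
    mMap dr (enc c) = enc (cfgMf dr c) := by
  funext i
  have h := pick_head dr c.q (hdr c.q) c.p i
  exact congrArg (fun z => ((typ i, c.M i, c.R i, z) : Al)) h

end M

section T

theorem dir_cases (q : Q) : dir q = 1 ∨ dir q = 0 ∨ dir q = -1 := by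
  cases q <;> simp [dir]

/-- the rules, extended to permutations -/
noncomputable def rule : Fin 3 → Equiv.Perm (Q × Fin 3 × Rg) := exists_rule.choose

theorem rule_eq {a : Fin 3} {x y : Q × Fin 3 × Rg} (h : Tr a x y) : rule a x = y :=
  exists_rule.choose_spec a x y h

/-- one step of the machine, as a permutation of the configurations -/
noncomputable def tC : Equiv.Perm Cfg := cfgM dir * cfgW rule

theorem tC_step {c c' : Cfg} (h : Step c c') : tC c = c' := by
  obtain ⟨q', m', x', h1, rfl⟩ := h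
  have h2 := rule_eq h1
  change cfgMf dir (cfgWf rule c) = _
  unfold cfgWf
  rw [h2]
  rfl

/-- block map of `tC` -/
noncomputable def Ft : (ℤ → Al) → (ℤ → Al) := mMap dir ∘ wMap rule

/-- block map of `tC⁻¹` -/
noncomputable def Ft' : (ℤ → Al) → (ℤ → Al) :=
  wMap (fun a => (rule a)⁻¹) ∘ mMap (fun q => - dir q)

theorem Ft_local : IsLocal Ft := (mMap_local _).comp (wMap_local _)

theorem Ft'_local : IsLocal Ft' := (wMap_local _).comp (mMap_local _)

theorem Ft_enc (c : Cfg) : Ft (enc c) = enc (tC c) := by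
  change mMap dir (wMap rule (enc c)) = _
  rw [wMap_enc, mMap_enc _ dir_cases]
  rfl

theorem Ft'_enc (c : Cfg) : Ft' (enc c) = enc (tC⁻¹ c) := by
  change wMap (fun a => (rule a)⁻¹) (mMap (fun q => - dir q) (enc c)) = _
  rw [mMap_enc _ (fun q => by rcases dir_cases q with h | h | h <;> simp [h]), wMap_enc]
  rfl

end T

section BB

/-- the vertex rule as a permutation -/
noncomputable def rhoE (a : Fin 3) : Equiv.Perm (Bool × Fin 3) :=
  Equiv.ofBijective (fun z => rho z.1 a z.2) (Finite.injective_iff_bijective.1 (rho_injective a))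

/-- the flip at a display -/
noncomputable def flipf (a : Fin 3) (z : Q × Fin 3 × Rg) : Q × Fin 3 × Rg :=
  match z with
  | (.V D true, m, .none) => (.V (rhoE a (D, m)).1 false, (rhoE a (D, m)).2, .none)
  | (.V D false, m, .none) => (.V ((rhoE a).symm (D, m)).1 true, ((rhoE a).symm (D, m)).2, .none)
  | z => z

theorem flipf_flipf (a : Fin 3) (z : Q × Fin 3 × Rg) : flipf a (flipf a z) = z := by
  obtain ⟨q, m, r⟩ := z
  cases q with
  | V D e =>
    cases r with
    | none => cases e <;> simp [flipf]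
    | cell d c => cases e <;> rfl
    | mark D1 e1 => cases e <;> rfl
  | _ => rfl

/-- the flip at a display, as a permutation -/
noncomputable def flip (a : Fin 3) : Equiv.Perm (Q × Fin 3 × Rg) where
  toFun := flipf a
  invFun := flipf a
  left_inv := flipf_flipf a
  right_inv := flipf_flipf a

/-- the permutation `b` of the configurations -/
noncomputable def bC : Equiv.Perm Cfg := cfgW flip

/-- block map of `bC` -/
noncomputable def Fb : (ℤ → Al) → (ℤ → Al) := wMap flip

/-- block map of `bC⁻¹` -/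
noncomputable def Fb' : (ℤ → Al) → (ℤ → Al) := wMap (fun a => (flip a)⁻¹)

theorem Fb_local : IsLocal Fb := wMap_local _

theorem Fb'_local : IsLocal Fb' := wMap_local _

theorem Fb_enc (c : Cfg) : Fb (enc c) = enc (bC c) := wMap_enc _ c

theorem Fb'_enc (c : Cfg) : Fb' (enc c) = enc (bC⁻¹ c) := wMap_enc _ c

theorem flipf_of_not (a : Fin 3) (q : Q) (m : Fin 3) (r : Rg)
    (h : ¬ ((∃ D e, q = .V D e) ∧ r = .none)) : flipf a (q, m, r) = (q, m, r) := by
  cases q with
  | V D e =>
    cases r with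
    | none => exact absurd ⟨⟨D, e, rfl⟩, rfl⟩ h
    | cell d c => cases e <;> rfl
    | mark D1 e1 => cases e <;> rfl
  | _ => rfl

theorem bC_of_not_dsp (c : Cfg) (h : ¬ Dsp c) : bC c = c := by
  have h1 : flip (typ c.p) (c.q, c.M c.p, c.R c.p) = (c.q, c.M c.p, c.R c.p) := by
    refine flipf_of_not _ _ _ _ fun h2 => h ?_
    obtain ⟨⟨D, e, h3⟩, h4⟩ := h2
    exact ⟨D, e, h3, h4⟩
  change cfgWf flip c = c
  unfold cfgWf
  rw [h1]
  simp

theorem bC_bC (c : Cfg) : bC (bC c) = c :=
  cfgWf_cfgWf flip flip (fun a x => flipf_flipf a x) c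

theorem bC_display {c : Cfg} {D : Bool} (hq : c.q = .V D true) (hr : c.R c.p = .none) :
    bC c = ⟨Function.update c.M c.p (rho D (typ c.p) (c.M c.p)).2, c.R, c.p,
      .V (rho D (typ c.p) (c.M c.p)).1 false⟩ := by
  have h1 : flip (typ c.p) (c.q, c.M c.p, c.R c.p) =
      (.V (rho D (typ c.p) (c.M c.p)).1 false, (rho D (typ c.p) (c.M c.p)).2, .none) := by
    rw [hq, hr]
    rfl
  change cfgWf flip c = _
  unfold cfgWf
  rw [h1]
  simp only
  rw [← hr, Function.update_eq_self]

end BB

end Pool.Agent.Lib.H43Dist
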