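import Mathlib

/-!
# CHUNK A: solvable groups have left invariant finitely additive means

A mean is here a function on the bounded real functions on `G` which is monotone, additive, and right on constants.
* limits of means along an ultrafilter are means (`isMean_lim`);
* Cesaro averages along the powers of one element make a mean invariant under this element and keep the invariance
  under the elements commuting with it (`exists_inv_insert`);
* hence abelian groups have invariant means (`exists_inv_abelian`);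
* an extension of a group with an invariant mean by a group with an invariant mean has an invariant mean
  (`exists_inv_extension`).
-/

set_option autoImplicit false

open Filter Topology

namespace Pool.Agent.Lib.H43Dist

namespace MeanAux

/-- Bounded real functions. -/
def Bdd {X : Type*} (f : X → ℝ) : Prop := ∃ C : ℝ, ∀ x, |f x| ≤ C

/-- Means on the bounded functions. -/
structure IsMean {X : Type*} (m : (X → ℝ) → ℝ) : Prop where
  mono : ∀ f g : X → ℝ, Bdd f → Bdd g → (∀ x, f x ≤ g x) → m f ≤ m g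
  add : ∀ f g : X → ℝ, Bdd f → Bdd g → m (fun x => f x + g x) = m f + m g
  const : ∀ c : ℝ, m (fun _ => c) = c

theorem Bdd.comp {X Y : Type*} {f : X → ℝ} (h : Bdd f) (u : Y → X) : Bdd (fun y => f (u y)) := by
  obtain ⟨C, hC⟩ := h
  exact ⟨C, fun y => hC (u y)⟩

theorem Bdd.add {X : Type*} {f g : X → ℝ} (hf : Bdd f) (hg : Bdd g) : Bdd (fun x => f x + g x) := by
  obtain ⟨C, hC⟩ := hf
  obtain ⟨D, hD⟩ := hg
  exact ⟨C + D, fun x => (abs_add_le _ _).trans (add_le_add (hC x) (hD x))⟩

theorem IsMean.abs_le {X : Type*} {m : (X → ℝ) → ℝ} (hm : IsMean m) {f : X → ℝ} {C : ℝ}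
    (h : ∀ x, |f x| ≤ C) : |m f| ≤ C := by
  have hb : Bdd f := ⟨C, h⟩
  have hc : ∀ c : ℝ, Bdd (fun _ : X => c) := fun c => ⟨|c|, fun _ => le_rfl⟩
  rw [_root_.abs_le]
  constructor
  · rw [← hm.const (-C)]
    exact hm.mono _ _ (hc _) hb (fun x => (_root_.abs_le.mp (h x)).1)
  · rw [← hm.const C]
    exact hm.mono _ _ hb (hc _) (fun x => (_root_.abs_le.mp (h x)).2)

/-- Limit of a bounded real function along an ultrafilter. -/
theorem tendsto_ulim {ι : Type*} (U : Ultrafilter ι) (f : ι → ℝ) (C : ℝ) (h : ∀ i, |f i| ≤ C) :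
    Tendsto f U (𝓝 (limUnder (U : Filter ι) f)) := by
  apply tendsto_nhds_limUnder
  have hc : IsCompact (Set.Icc (-C) C) := isCompact_Icc
  obtain ⟨x, _, hx⟩ := hc.ultrafilter_le_nhds (U.map f) (by
    rw [Ultrafilter.coe_map]
    rw [le_principal_iff]
    exact mem_map.mpr (Eventually.of_forall fun i => abs_le.mp (h i)))
  exact ⟨x, by simpa [Tendsto] using hx⟩

theorem isMean_lim {X ι : Type*} (U : Ultrafilter ι) (m : ι → (X → ℝ) → ℝ) (hm : ∀ i, IsMean (m i)) :
    IsMean (fun f => limUnder (U : Filter ι) (fun i => m i f)) := by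
  have key : ∀ f : X → ℝ, Bdd f → Tendsto (fun i => m i f) U (𝓝 (limUnder (U : Filter ι) (fun i => m i f))) := by
    rintro f ⟨C, hC⟩
    exact tendsto_ulim U _ C (fun i => (hm i).abs_le hC)
  refine ⟨?_, ?_, ?_⟩
  · intro f g hf hg hfg
    exact le_of_tendsto_of_tendsto' (key f hf) (key g hg) (fun i => (hm i).mono f g hf hg hfg)
  · intro f g hf hg
    have h1 := key _ (hf.add hg)
    have h2 := (key f hf).add (key g hg)
    refine tendsto_nhds_unique h1 (h2.congr fun i => ?_)
    exact ((hm i).add f g hf hg).symm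
  · intro c
    have h1 := key (fun _ => c) ⟨|c|, fun _ => le_rfl⟩
    refine tendsto_nhds_unique h1 (tendsto_const_nhds.congr fun i => ?_)
    exact ((hm i).const c).symm

/-- Cesaro averages of a mean along a map. -/
noncomputable def ces {X : Type*} (m : (X → ℝ) → ℝ) (u : X → X) (n : ℕ) (f : X → ℝ) : ℝ :=
  (∑ i ∈ Finset.range (n + 1), m (fun x => f (u^[i] x))) / (n + 1 : ℝ)

theorem isMean_ces {X : Type*} {m : (X → ℝ) → ℝ} (hm : IsMean m) (u : X → X) (n : ℕ) :
    IsMean (ces m u n) := by
  have hn : (0 : ℝ) < (n : ℝ) + 1 := by positivity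
  refine ⟨?_, ?_, ?_⟩
  · intro f g hf hg hfg
    unfold ces
    apply div_le_div_of_nonneg_right _ hn.le
    exact Finset.sum_le_sum fun i _ => hm.mono _ _ (hf.comp _) (hg.comp _) (fun x => hfg _)
  · intro f g hf hg
    unfold ces
    rw [← add_div, ← Finset.sum_add_distrib]
    congr 1
    exact Finset.sum_congr rfl fun i _ => hm.add _ _ (hf.comp _) (hg.comp _)
  · intro c
    unfold ces
    rw [Finset.sum_congr rfl (fun i _ => hm.const c)]
    rw [Finset.sum_const, Finset.card_range, nsmul_eq_mul]
    push_cast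
    field_simp

theorem ces_shift {X : Type*} {m : (X → ℝ) → ℝ} (hm : IsMean m) (u : X → X) {f : X → ℝ} {C : ℝ}
    (hC : ∀ x, |f x| ≤ C) (n : ℕ) :
    |ces m u n (fun x => f (u x)) - ces m u n f| ≤ 2 * C / (n + 1 : ℝ) := by
  have hn : (0 : ℝ) < (n : ℝ) + 1 := by positivity
  unfold ces
  rw [← sub_div, abs_div, abs_of_pos hn]
  apply div_le_div_of_nonneg_right _ hn.le
  have e1 : ∀ i, m (fun x => f (u (u^[i] x))) = m (fun x => f (u^[i + 1] x)) := by
    intro i
    congr 1
    funext x
    rw [Function.iterate_succ_apply']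
  rw [Finset.sum_congr rfl (fun i _ => e1 i), ← Finset.sum_sub_distrib,
    Finset.sum_range_sub (fun i => m (fun x => f (u^[i] x)))]
  have h1 := hm.abs_le (f := fun x => f (u^[n + 1] x)) (C := C) (fun x => hC _)
  have h2 := hm.abs_le (f := fun x => f (u^[0] x)) (C := C) (fun x => hC _)
  calc _ ≤ |m (fun x => f (u^[n + 1] x))| + |m (fun x => f (u^[0] x))| := abs_sub _ _
    _ ≤ 2 * C := by linarith

/-- Invariance of a mean on a group under the left translation by `g`. -/
def Inv {G : Type*} [Group G] (m : (G → ℝ) → ℝ) (g : G) : Prop :=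
  ∀ f : G → ℝ, Bdd f → m (fun x => f (g * x)) = m f

theorem exists_inv_insert {G : Type*} [Group G] (hab : ∀ a b : G, a * b = b * a) (s : G)
    (m : (G → ℝ) → ℝ) (hm : IsMean m) :
    ∃ m' : (G → ℝ) → ℝ, IsMean m' ∧ Inv m' s ∧ ∀ g, Inv m g → Inv m' g := by
  obtain ⟨U, hU⟩ : ∃ U : Ultrafilter ℕ, (U : Filter ℕ) ≤ atTop := Ultrafilter.exists_le atTop
  refine ⟨fun f => limUnder (U : Filter ℕ) (fun n => ces m (fun x => s * x) n f),
    isMean_lim U _ (fun n => isMean_ces hm _ n), ?_, ?_⟩
  · rintro f ⟨C, hC⟩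
    have k1 := tendsto_ulim U (fun n => ces m (fun x => s * x) n f) C
      (fun n => (isMean_ces hm _ n).abs_le hC)
    have k2 := tendsto_ulim U (fun n => ces m (fun x => s * x) n (fun x => f (s * x))) C
      (fun n => (isMean_ces hm _ n).abs_le (fun x => hC _))
    have k3 := k2.sub k1
    have k4 : Tendsto (fun n : ℕ => 2 * C / ((n : ℝ) + 1)) atTop (𝓝 0) := by
      have h := (tendsto_one_div_add_atTop_nhds_zero_nat (𝕜 := ℝ)).const_mul (2 * C)
      rw [mul_zero] at h
      exact h.congr fun n => by ring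
    have k5 : Tendsto (fun n => ces m (fun x => s * x) n (fun x => f (s * x)) -
        ces m (fun x => s * x) n f) U (𝓝 0) :=
      squeeze_zero_norm (fun n => by
        rw [Real.norm_eq_abs]
        exact ces_shift hm (fun x => s * x) hC n) (k4.mono_left hU)
    have := tendsto_nhds_unique k3 k5
    linarith
  · intro g hg f hf
    have : ∀ n, ces m (fun x => s * x) n (fun x => f (g * x)) = ces m (fun x => s * x) n f := by
      intro n
      unfold ces
      congr 1
      refine Finset.sum_congr rfl fun i _ => ?_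
      have hit : ∀ x : G, (fun x => s * x)^[i] x = s ^ i * x := by
        intro x
        rw [show (fun x : G => s * x) = (s * ·) from rfl, mul_left_iterate]
      simp only [hit]
      rw [← hg (fun x => f (s ^ i * x)) (hf.comp _)]
      congr 1
      funext x
      rw [← mul_assoc, ← mul_assoc, hab g]
    simp only [this]

theorem exists_inv_finset {G : Type*} [Group G] (hab : ∀ a b : G, a * b = b * a) (S : Finset G) :
    ∃ m : (G → ℝ) → ℝ, IsMean m ∧ ∀ g ∈ S, Inv m g := by
  classical
  induction S using Finset.induction_on with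
  | empty =>
    exact ⟨fun f => f 1, ⟨fun f g _ _ h => h 1, fun f g _ _ => rfl, fun c => rfl⟩, by simp⟩
  | insert a S _ ih =>
    obtain ⟨m, hm, hS⟩ := ih
    obtain ⟨m', hm', ha, hk⟩ := exists_inv_insert hab a m hm
    refine ⟨m', hm', fun g hg => ?_⟩
    rcases Finset.mem_insert.mp hg with rfl | hg
    · exact ha
    · exact hk g (hS g hg)

theorem exists_inv_abelian {G : Type*} [Group G] (hab : ∀ a b : G, a * b = b * a) :
    ∃ m : (G → ℝ) → ℝ, IsMean m ∧ ∀ g, Inv m g := by
  classical
  choose m hm hS using exists_inv_finset hab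
  obtain ⟨U, hU⟩ : ∃ U : Ultrafilter (Finset G), (U : Filter (Finset G)) ≤ atTop :=
    Ultrafilter.exists_le atTop
  refine ⟨fun f => limUnder (U : Filter (Finset G)) (fun S => m S f), isMean_lim U _ hm, ?_⟩
  rintro g f ⟨C, hC⟩
  have k1 := tendsto_ulim U (fun S => m S f) C (fun S => (hm S).abs_le hC)
  have k2 := tendsto_ulim U (fun S => m S (fun x => f (g * x))) C
    (fun S => (hm S).abs_le (fun x => hC _))
  refine tendsto_nhds_unique k2 (k1.congr' ?_)
  have : ∀ᶠ S : Finset G in atTop, m S f = m S (fun x => f (g * x)) := by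
    filter_upwards [eventually_ge_atTop {g}] with S hgS
    exact (hS S g (hgS (Finset.mem_singleton_self g)) f ⟨C, hC⟩).symm
  exact hU this

/-- Extensions. -/
theorem exists_inv_extension {G : Type*} [Group G] (N : Subgroup G) [N.Normal]
    (mN : (N → ℝ) → ℝ) (hN : IsMean mN) (iN : ∀ g, Inv mN g)
    (mQ : (G ⧸ N → ℝ) → ℝ) (hQ : IsMean mQ) (iQ : ∀ g, Inv mQ g) :
    ∃ m : (G → ℝ) → ℝ, IsMean m ∧ ∀ g, Inv m g := by
  classical
  -- the average over a coset
  let F : (G → ℝ) → (G ⧸ N) → ℝ := fun f q => mN (fun n : N => f (q.out * n))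
  have hF : ∀ f : G → ℝ, Bdd f → ∀ g : G, F f (g : G ⧸ N) = mN (fun n : N => f (g * n)) := by
    intro f hf g
    have hmem : g⁻¹ * (Quotient.out (g : G ⧸ N)) ∈ N := by
      rw [← QuotientGroup.eq]
      exact (QuotientGroup.out_eq' (g : G ⧸ N)).symm
    have := iN ⟨_, hmem⟩ (fun n : N => f (g * n)) (hf.comp _)
    rw [← this]
    show mN _ = mN _
    congr 1
    funext n
    simp [mul_assoc]
  have hFb : ∀ f : G → ℝ, Bdd f → Bdd (F f) := by
    rintro f ⟨C, hC⟩
    exact ⟨C, fun q => hN.abs_le (fun n => hC _)⟩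
  refine ⟨fun f => mQ (F f), ⟨?_, ?_, ?_⟩, ?_⟩
  · intro f g hf hg hfg
    exact hQ.mono _ _ (hFb f hf) (hFb g hg) fun q => hN.mono _ _ (hf.comp _) (hg.comp _) fun n => hfg _
  · intro f g hf hg
    rw [← hQ.add _ _ (hFb f hf) (hFb g hg)]
    show mQ _ = mQ _
    congr 1
    funext q
    exact hN.add _ _ (hf.comp _) (hg.comp _)
  · intro c
    have : F (fun _ => c) = fun _ => c := by
      funext q
      exact hN.const c
    rw [this]
    exact hQ.const c
  · intro g f hf
    have : F (fun x => f (g * x)) = fun q => F f ((g : G ⧸ N) * q) := by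
      funext q
      induction q using QuotientGroup.induction_on with
      | H q =>
        rw [hF _ (hf.comp _), ← QuotientGroup.mk_mul, hF _ hf]
        simp only [mul_assoc]
    show mQ (F (fun x => f (g * x))) = mQ (F f)
    rw [this]
    exact iQ (g : G ⧸ N) (F f) (hFb f hf)

theorem exists_inv_of_derived (n : ℕ) : ∀ {G : Type*} [Group G], derivedSeries G n = ⊥ →
    ∃ m : (G → ℝ) → ℝ, IsMean m ∧ ∀ g, Inv m g := by
  induction n with
  | zero =>
    intro G _ h
    rw [derivedSeries_zero] at h
    apply exists_inv_abelian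
    intro a b
    have ha : a = 1 := by
      have : a ∈ (⊤ : Subgroup G) := Subgroup.mem_top a
      rw [h] at this
      exact Subgroup.mem_bot.mp this
    rw [ha, one_mul, mul_one]
  | succ n ih =>
    intro G _ h
    have : (derivedSeries G n).Normal := derivedSeries_normal G n
    have hab : ∀ a b : derivedSeries G n, a * b = b * a := by
      rintro ⟨a, ha⟩ ⟨b, hb⟩
      rw [derivedSeries_succ, Subgroup.commutator_eq_bot_iff_le_centralizer] at h
      apply Subtype.ext
      exact (Subgroup.mem_centralizer_iff.mp (h hb) a ha)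
    obtain ⟨mN, hN, iN⟩ := exists_inv_abelian hab
    have hq : derivedSeries (G ⧸ derivedSeries G n) n = ⊥ := by
      rw [← map_derivedSeries_eq (QuotientGroup.mk'_surjective (derivedSeries G n)),
        Subgroup.map_eq_bot_iff, QuotientGroup.ker_mk']
    obtain ⟨mQ, hQ, iQ⟩ := ih hq
    exact exists_inv_extension (derivedSeries G n) mN hN iN mQ hQ iQ

end MeanAux

open MeanAux in
theorem exists_mean_of_solvable {G : Type*} [Group G] (h : Group.IsSolvable G) :
    ∃ m : Set G → ℝ, (∀ A, 0 ≤ m A) ∧ m Set.univ = 1 ∧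
      (∀ A B, Disjoint A B → m (A ∪ B) = m A + m B) ∧
      (∀ (g : G) (A : Set G), m ((fun h : G => g * h) '' A) = m A) := by
  classical
  obtain ⟨n, hn⟩ := h
  obtain ⟨M, hM, iM⟩ := exists_inv_of_derived n hn
  have hb : ∀ A : Set G, Bdd (A.indicator (fun _ => (1 : ℝ))) := by
    intro A
    refine ⟨1, fun x => ?_⟩
    by_cases hx : x ∈ A <;> simp [hx]
  refine ⟨fun A => M (A.indicator fun _ => 1), ?_, ?_, ?_, ?_⟩
  · intro A
    have h0 := hM.const 0
    rw [← h0]
    exact hM.mono _ _ ⟨0, fun _ => by simp⟩ (hb A) fun x => Set.indicator_nonneg (fun _ _ => zero_le_one) x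
  · simp only [Set.indicator_univ]
    exact hM.const 1
  · intro A B hAB
    rw [← hM.add _ _ (hb A) (hb B)]
    show M _ = M _
    congr 1
    rw [Set.indicator_union_of_disjoint hAB]
  · intro g A
    show M _ = M _
    rw [← iM g _ (hb ((fun h : G => g * h) '' A))]
    congr 1
    funext x
    by_cases hx : x ∈ A
    · have : g * x ∈ (fun h : G => g * h) '' A := ⟨x, hx, rfl⟩
      rw [Set.indicator_of_mem this, Set.indicator_of_mem hx]
    · have : g * x ∉ (fun h : G => g * h) '' A := by
        rintro ⟨y, hy, hxy⟩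
        exact hx ((mul_left_cancel hxy) ▸ hy)
      rw [Set.indicator_of_notMem this, Set.indicator_of_notMem hx]

end Pool.Agent.Lib.H43Dist
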