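import Pool.Agent.Lib.H43Dist.Statement
import Pool.Agent.Lib.H43Dist.Mean

/-!
# CHUNK B: reduction of the frozen statement to a family of configurations

`Ω` is an index set, `E ω ∈ A^ℤ` a configuration for each `ω`.  `X` is the closure of the set of all
shifts of all `E ω`.  The local maps act on `X` because they act on the dense set.  A word acting
trivially on `Ω` acts trivially on `X`; so the group `G = ⟨b, t⟩ ≤ Perm X` is a quotient of
`⟨β, θ⟩ ≤ Perm Ω`, hence solvable, hence has a mean (chunk A).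
-/

set_option autoImplicit false

namespace Pool.Agent.Lib.H43Dist

namespace Red

section Loc

variable {A : Type}

lemma isLocal_id : IsLocal (fun x : ℤ → A => x) :=
  ⟨fun _ _ => rfl, 0, fun x y h => h 0 (by simp)⟩

lemma loc_at {F : (ℤ → A) → (ℤ → A)} (hF : IsLocal F) (x : ℤ → A) (n : ℤ) :
    F x n = F (fun i => x (i + n)) 0 := by
  rw [hF.1 x n]
  simp

lemma loc_window {F : (ℤ → A) → (ℤ → A)} (hF : IsLocal F) :
    ∃ r : ℕ, ∀ (x y : ℤ → A) (a b : ℤ), (∀ i : ℤ, |i| ≤ (r : ℤ) → x (i + a) = y (i + b)) →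
      F x a = F y b := by
  obtain ⟨r, hr⟩ := hF.2
  refine ⟨r, fun x y a b h => ?_⟩
  rw [loc_at hF x a, loc_at hF y b]
  exact hr _ _ h

lemma loc_comp {F F' : (ℤ → A) → (ℤ → A)} (hF : IsLocal F) (hF' : IsLocal F') :
    IsLocal (fun x => F (F' x)) := by
  refine ⟨fun x n => ?_, ?_⟩
  · show F (F' fun i => x (i + n)) = _
    rw [hF'.1, hF.1]
  · obtain ⟨r, hr⟩ := hF.2
    obtain ⟨r', hr'⟩ := loc_window hF'
    refine ⟨r + r', fun x y h => hr _ _ fun i hi => ?_⟩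
    refine hr' x y i i fun j hj => h _ ?_
    push_cast
    calc |j + i| ≤ |j| + |i| := abs_add_le _ _
      _ ≤ r + r' := by linarith

end Loc

section Cl

variable {A Ω : Type}

/-- The closure of the family of all translates of the `E ω`. -/
def XX (E : Ω → ℤ → A) : Set (ℤ → A) :=
  {x | ∀ N : ℕ, ∃ ω : Ω, ∃ m : ℤ, ∀ i : ℤ, |i| ≤ (N : ℤ) → E ω (i + m) = x i}

lemma mem_XX (E : Ω → ℤ → A) (ω : Ω) : E ω ∈ XX E :=
  fun _ => ⟨ω, 0, fun i _ => by simp⟩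

lemma XX_closed (E : Ω → ℤ → A) (x : ℤ → A)
    (h : ∀ N : ℕ, ∃ y ∈ XX E, ∀ i : ℤ, |i| ≤ (N : ℤ) → y i = x i) : x ∈ XX E := by
  intro N
  obtain ⟨y, hy, hyx⟩ := h N
  obtain ⟨ω, m, hω⟩ := hy N
  exact ⟨ω, m, fun i hi => (hω i hi).trans (hyx i hi)⟩

lemma XX_shift (E : Ω → ℤ → A) (x : ℤ → A) (hx : x ∈ XX E) (a : ℤ) :
    (fun n : ℤ => x (n + a)) ∈ XX E := by
  intro N
  obtain ⟨ω, m, h⟩ := hx (N + a.natAbs)
  refine ⟨ω, a + m, fun i hi => ?_⟩
  have h1 : |i + a| ≤ ((N + a.natAbs : ℕ) : ℤ) := by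
    push_cast
    calc |i + a| ≤ |i| + |a| := abs_add_le _ _
      _ ≤ N + |a| := by linarith
  have h2 := h (i + a) h1
  rw [show i + (a + m) = i + a + m by ring]
  exact h2

/-- A local map which acts on the family acts on the closure. -/
lemma map_XX {E : Ω → ℤ → A} {F : (ℤ → A) → (ℤ → A)} (hF : IsLocal F) {f : Ω → Ω}
    (h : ∀ ω, F (E ω) = E (f ω)) {x : ℤ → A} (hx : x ∈ XX E) : F x ∈ XX E := by
  intro N
  obtain ⟨r, hr⟩ := loc_window hF
  obtain ⟨ω, m, hm⟩ := hx (N + r)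
  refine ⟨f ω, m, fun i hi => ?_⟩
  rw [← h ω]
  refine hr _ _ _ _ fun j hj => ?_
  have h1 : |j + i| ≤ ((N + r : ℕ) : ℤ) := by
    push_cast
    calc |j + i| ≤ |j| + |i| := abs_add_le _ _
      _ ≤ N + r := by linarith
  have h2 := hm (j + i) h1
  rw [show j + (i + m) = j + i + m by ring]
  exact h2

/-- A local map which fixes the family fixes the closure. -/
lemma fix_XX {E : Ω → ℤ → A} {F : (ℤ → A) → (ℤ → A)} (hF : IsLocal F)
    (h : ∀ ω, F (E ω) = E ω) {x : ℤ → A} (hx : x ∈ XX E) : F x = x := by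
  funext n
  obtain ⟨r, hr⟩ := loc_window hF
  obtain ⟨ω, m, hm⟩ := hx (n.natAbs + r)
  have h0 : E ω (n + m) = x n := by
    apply hm
    push_cast
    have := Int.natCast_nonneg r
    omega
  have h1 : F x n = F (E ω) (n + m) := by
    refine hr _ _ _ _ fun j hj => ?_
    have h1 : |j + n| ≤ ((n.natAbs + r : ℕ) : ℤ) := by
      push_cast
      calc |j + n| ≤ |j| + |n| := abs_add_le _ _
        _ ≤ |n| + r := by linarith
    have h2 := hm (j + n) h1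
    rw [show j + (n + m) = j + n + m by ring]
    exact h2.symm
  rw [h1, h ω, h0]

/-- The permutation of the closure given by a local map and a local inverse. -/
def toPerm (E : Ω → ℤ → A) (F F' : (ℤ → A) → (ℤ → A)) (hF : IsLocal F) (hF' : IsLocal F')
    (f : Equiv.Perm Ω) (h : ∀ ω, F (E ω) = E (f ω)) (h' : ∀ ω, F' (E ω) = E (f⁻¹ ω)) :
    Equiv.Perm (XX E) where
  toFun x := ⟨F x.1, map_XX hF h x.2⟩
  invFun x := ⟨F' x.1, map_XX hF' h' x.2⟩
  left_inv x := by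
    apply Subtype.ext
    show F' (F x.1) = x.1
    refine fix_XX (loc_comp hF' hF) (fun ω => ?_) x.2
    show F' (F (E ω)) = E ω
    rw [h, h']
    simp
  right_inv x := by
    apply Subtype.ext
    show F (F' x.1) = x.1
    refine fix_XX (loc_comp hF hF') (fun ω => ?_) x.2
    show F (F' (E ω)) = E ω
    rw [h', h]
    simp

/-- compatibility of a permutation of the index set and a permutation of the closure -/
def Cmp (E : Ω → ℤ → A) (f : Equiv.Perm Ω) (φ : Equiv.Perm (XX E)) : Prop :=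
  ∃ F : (ℤ → A) → (ℤ → A), IsLocal F ∧ (∀ ω, F (E ω) = E (f ω)) ∧
    ∀ x : XX E, (φ x).1 = F x.1

lemma Cmp.mul {E : Ω → ℤ → A} {f g : Equiv.Perm Ω} {φ ψ : Equiv.Perm (XX E)}
    (h : Cmp E f φ) (h' : Cmp E g ψ) : Cmp E (f * g) (φ * ψ) := by
  obtain ⟨F, hF, h1, h2⟩ := h
  obtain ⟨F', hF', h1', h2'⟩ := h'
  refine ⟨_, loc_comp hF hF', fun ω => ?_, fun x => ?_⟩
  · show F (F' (E ω)) = _
    rw [h1', h1]
    rfl
  · show (φ (ψ x)).1 = F (F' x.1)
    rw [h2, h2']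

lemma Cmp.one (E : Ω → ℤ → A) : Cmp E 1 1 :=
  ⟨_, isLocal_id, fun _ => rfl, fun _ => rfl⟩

lemma Cmp.eq_one {E : Ω → ℤ → A} {φ : Equiv.Perm (XX E)} (h : Cmp E 1 φ) : φ = 1 := by
  obtain ⟨F, hF, h1, h2⟩ := h
  apply Equiv.ext
  intro x
  apply Subtype.ext
  rw [h2]
  exact fix_XX hF (fun ω => h1 ω) x.2

/-- the group of compatible pairs -/
def KK (E : Ω → ℤ → A) : Subgroup (Equiv.Perm Ω × Equiv.Perm (XX E)) where
  carrier := {p | Cmp E p.1 p.2 ∧ Cmp E p.1⁻¹ p.2⁻¹}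
  mul_mem' := by
    rintro ⟨f, φ⟩ ⟨g, ψ⟩ ⟨h1, h2⟩ ⟨h3, h4⟩
    refine ⟨h1.mul h3, ?_⟩
    show Cmp E (f * g)⁻¹ (φ * ψ)⁻¹
    rw [mul_inv_rev, mul_inv_rev]
    exact h4.mul h2
  one_mem' := by
    refine ⟨Cmp.one E, ?_⟩
    show Cmp E (1 : Equiv.Perm Ω)⁻¹ (1 : Equiv.Perm (XX E))⁻¹
    rw [inv_one, inv_one]
    exact Cmp.one E
  inv_mem' := by
    rintro ⟨f, φ⟩ ⟨h1, h2⟩
    refine ⟨h2, ?_⟩
    show Cmp E f⁻¹⁻¹ φ⁻¹⁻¹
    rw [inv_inv, inv_inv]
    exact h1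

lemma KK_inj {E : Ω → ℤ → A} {f : Equiv.Perm Ω} {φ ψ : Equiv.Perm (XX E)}
    (h : (f, φ) ∈ KK E) (h' : (f, ψ) ∈ KK E) : φ = ψ := by
  have h1 : (f, φ) * (f, ψ)⁻¹ ∈ KK E := (KK E).mul_mem h ((KK E).inv_mem h')
  have h2 : Cmp E (f * f⁻¹) (φ * ψ⁻¹) := h1.1
  rw [mul_inv_cancel] at h2
  exact mul_inv_eq_one.1 h2.eq_one

end Cl

end Red

open Red

/-- The case of the alphabet `Fin k`. -/
theorem main_of_system_fin {k : ℕ} {Ω : Type} (E : Ω → ℤ → Fin k)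
    (β θ : Equiv.Perm Ω) (Fb Fb' Ft Ft' : (ℤ → Fin k) → (ℤ → Fin k))
    (hb : IsLocal Fb) (hb' : IsLocal Fb') (ht : IsLocal Ft) (ht' : IsLocal Ft')
    (eb : ∀ ω, Fb (E ω) = E (β ω)) (eb' : ∀ ω, Fb' (E ω) = E (β⁻¹ ω))
    (et : ∀ ω, Ft (E ω) = E (θ ω)) (et' : ∀ ω, Ft' (E ω) = E (θ⁻¹ ω))
    (hsol : Group.IsSolvable (Subgroup.closure {β, θ} : Subgroup (Equiv.Perm Ω)))
    (γ : Equiv.Perm Ω)
    (hγ : ∀ n : ℕ, 0 < n → ∃ ω, E ((γ ^ n) ω) ≠ E ω)
    (hγ1 : ∃ l : List (Equiv.Perm Ω), IsWord β θ l ∧ l.prod = γ)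
    (hd : ∀ ε : ℝ, 0 < ε → ∃ N : ℕ, ∀ n : ℕ, N ≤ n → ∃ l : List (Equiv.Perm Ω),
      IsWord β θ l ∧ l.prod = γ ^ n ∧ (l.length : ℝ) ≤ ε * n) :
    Main := by
  classical
  -- the two generators
  set b : Equiv.Perm (XX E) := toPerm E Fb Fb' hb hb' β eb eb' with hbdef
  set t : Equiv.Perm (XX E) := toPerm E Ft Ft' ht ht' θ et et' with htdef
  -- pairs
  set K : Subgroup (Equiv.Perm Ω × Equiv.Perm (XX E)) := Subgroup.closure {(β, b), (θ, t)}
    with hK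
  have hKb : (β, b) ∈ K := Subgroup.subset_closure (by simp)
  have hKt : (θ, t) ∈ K := Subgroup.subset_closure (by simp)
  have hKK : K ≤ KK E := by
    rw [hK, Subgroup.closure_le]
    rintro p (rfl | rfl)
    · exact ⟨⟨Fb, hb, eb, fun _ => rfl⟩, ⟨Fb', hb', eb', fun _ => rfl⟩⟩
    · exact ⟨⟨Ft, ht, et, fun _ => rfl⟩, ⟨Ft', ht', et', fun _ => rfl⟩⟩
  set G : Subgroup (Equiv.Perm (XX E)) := K.map (MonoidHom.snd _ _) with hG
  have hGmem : ∀ φ ∈ G, ∃ f, (f, φ) ∈ K := by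
    rintro φ ⟨⟨f, ψ⟩, hp, rfl⟩
    exact ⟨f, hp⟩
  have hmemG : ∀ f φ, (f, φ) ∈ K → φ ∈ G := fun f φ h => ⟨(f, φ), h, rfl⟩
  -- solvability
  have hKsol : Group.IsSolvable K := by
    have hfst : ∀ p : K, (p.1.1) ∈ Subgroup.closure ({β, θ} : Set (Equiv.Perm Ω)) := by
      rintro ⟨p, hp⟩
      have : K ≤ (Subgroup.closure ({β, θ} : Set (Equiv.Perm Ω))).comap (MonoidHom.fst _ _) := by
        rw [hK, Subgroup.closure_le]
        rintro q (rfl | rfl)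
        · exact Subgroup.subset_closure (by simp)
        · exact Subgroup.subset_closure (by simp)
      exact this hp
    let f : K →* (Subgroup.closure ({β, θ} : Set (Equiv.Perm Ω))) :=
      ((MonoidHom.fst _ _).comp K.subtype).codRestrict _ hfst
    have hf : Function.Injective f := by
      rintro ⟨⟨p1, p2⟩, hp⟩ ⟨⟨q1, q2⟩, hq⟩ h
      have h1 : p1 = q1 := congrArg Subtype.val h
      subst h1
      have h2 : p2 = q2 := KK_inj (hKK hp) (hKK hq)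
      subst h2
      rfl
    exact Group.isSolvable_of_isSolvable_injective hf
  have hGsol : Group.IsSolvable G := by
    let f : K →* G := ((MonoidHom.snd _ _).comp K.subtype).codRestrict G
      (fun p => hmemG _ _ p.2)
    have hf : Function.Surjective f := by
      rintro ⟨φ, hφ⟩
      obtain ⟨g, hg⟩ := hGmem φ hφ
      exact ⟨⟨(g, φ), hg⟩, rfl⟩
    exact Group.isSolvable_of_surjective hf
  have hbG : b ∈ G := hmemG _ _ hKb
  have htG : t ∈ G := hmemG _ _ hKt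
  -- the generating set
  set S : Finset G := {⟨b, hbG⟩, ⟨t, htG⟩} with hS
  have hword : ∀ l : List (Equiv.Perm Ω), IsWord β θ l →
      ∃ l' : List G, (∀ s ∈ l', s ∈ S ∨ s⁻¹ ∈ S) ∧ (l.prod, (l'.prod : Equiv.Perm (XX E))) ∈ K ∧
        l'.length = l.length := by
    intro l
    induction l with
    | nil =>
      intro _
      exact ⟨[], by simp, K.one_mem, rfl⟩
    | cons s l ih =>
      intro hl
      obtain ⟨l', h1, h2, h3⟩ := ih (fun s hs => hl s (List.mem_cons_of_mem _ hs))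
      obtain ⟨u, hu, hsu⟩ : ∃ u : G, (u ∈ S ∨ u⁻¹ ∈ S) ∧ (s, (u : Equiv.Perm (XX E))) ∈ K := by
        rcases hl s List.mem_cons_self with rfl | rfl | rfl | rfl
        · exact ⟨⟨b, hbG⟩, Or.inl (by simp [hS]), hKb⟩
        · exact ⟨⟨t, htG⟩, Or.inl (by simp [hS]), hKt⟩
        · exact ⟨⟨b, hbG⟩⁻¹, Or.inr (by simp [hS]), K.inv_mem hKb⟩
        · exact ⟨⟨t, htG⟩⁻¹, Or.inr (by simp [hS]), K.inv_mem hKt⟩
      refine ⟨u :: l', ?_, ?_, by simp [h3]⟩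
      · intro v hv
        rcases List.mem_cons.1 hv with rfl | hv
        · exact hu
        · exact h1 v hv
      · have := K.mul_mem hsu h2
        simpa using this
  obtain ⟨l0, hl0, hl0p⟩ := hγ1
  obtain ⟨l0', _, hg0, _⟩ := hword l0 hl0
  rw [hl0p] at hg0
  set g : G := l0'.prod with hg
  have hgpow : ∀ n : ℕ, (γ ^ n, ((g ^ n : G) : Equiv.Perm (XX E))) ∈ K := by
    intro n
    have := K.pow_mem hg0 n
    simpa using this
  refine ⟨k, XX E, XX_closed E, fun x hx => ⟨XX_shift E x hx 1, ?_⟩, G, ?_, ?_, g, ?_, S, ?_⟩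
  · have := XX_shift E x hx (-1)
    simpa [sub_eq_add_neg] using this
  · intro φ hφ
    obtain ⟨f, hf⟩ := hGmem φ hφ
    obtain ⟨F, hF, hF1, hF2⟩ := (hKK hf).1
    refine ⟨fun x y hxy n => ?_, ?_⟩
    · have hy : (y : ℤ → Fin k) = fun n => (x : ℤ → Fin k) (n + 1) := funext hxy
      show (φ y).1 n = (φ x).1 (n + 1)
      rw [hF2 y, hF2 x, hy, hF.1]
    · obtain ⟨r, hr⟩ := hF.2
      refine ⟨r, fun x y hxy => ?_⟩
      show (φ x).1 0 = (φ y).1 0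
      rw [hF2 x, hF2 y]
      exact hr _ _ hxy
  · exact exists_mean_of_solvable hGsol
  · intro hfin
    obtain ⟨n, hn, hgn⟩ := isOfFinOrder_iff_pow_eq_one.1 hfin
    obtain ⟨ω, hω⟩ := hγ n hn
    have h1 := hgpow n
    rw [hgn] at h1
    obtain ⟨F, hF, hF1, hF2⟩ := (hKK h1).1
    apply hω
    have h3 := hF2 ⟨E ω, mem_XX E ω⟩
    have h4 : E ω = F (E ω) := h3
    rw [h4]
    exact (hF1 ω).symm
  · intro ε hε
    obtain ⟨N, hN⟩ := hd ε hε
    refine ⟨N, fun n hn => ?_⟩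
    obtain ⟨l, hl, hlp, hlen⟩ := hN n hn
    obtain ⟨l', h1, h2, h3⟩ := hword l hl
    rw [hlp] at h2
    refine ⟨l', h1, ?_, by rw [h3]; exact hlen⟩
    apply Subtype.ext
    exact KK_inj (hKK h2) (hKK (hgpow n))

namespace Red

variable {A B : Type}

/-- transport of maps along a bijection of alphabets -/
def conj (e : A ≃ B) (F : (ℤ → A) → (ℤ → A)) : (ℤ → B) → (ℤ → B) :=
  fun x i => e (F (fun j => e.symm (x j)) i)

lemma isLocal_conj (e : A ≃ B) {F : (ℤ → A) → (ℤ → A)} (hF : IsLocal F) :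
    IsLocal (conj e F) := by
  refine ⟨fun x n => ?_, ?_⟩
  · funext i
    have := hF.1 (fun j => e.symm (x j)) n
    show e (F (fun j => e.symm (x (j + n))) i) = e (F (fun j => e.symm (x j)) (i + n))
    rw [this]
  · obtain ⟨r, hr⟩ := hF.2
    refine ⟨r, fun x y h => ?_⟩
    show e _ = e _
    rw [hr (fun j => e.symm (x j)) (fun j => e.symm (y j)) (fun i hi => by rw [h i hi])]

lemma conj_apply (e : A ≃ B) (F : (ℤ → A) → (ℤ → A)) (x : ℤ → A) :
    conj e F (fun i => e (x i)) = fun i => e (F x i) := by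
  funext i
  simp [conj]

end Red

theorem main_of_system {A : Type} [Finite A] {Ω : Type} (E : Ω → ℤ → A)
    (β θ : Equiv.Perm Ω) (Fb Fb' Ft Ft' : (ℤ → A) → (ℤ → A))
    (hb : IsLocal Fb) (hb' : IsLocal Fb') (ht : IsLocal Ft) (ht' : IsLocal Ft')
    (eb : ∀ ω, Fb (E ω) = E (β ω)) (eb' : ∀ ω, Fb' (E ω) = E (β⁻¹ ω))
    (et : ∀ ω, Ft (E ω) = E (θ ω)) (et' : ∀ ω, Ft' (E ω) = E (θ⁻¹ ω))
    (hsol : Group.IsSolvable (Subgroup.closure {β, θ} : Subgroup (Equiv.Perm Ω)))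
    (γ : Equiv.Perm Ω)
    (hγ : ∀ n : ℕ, 0 < n → ∃ ω, E ((γ ^ n) ω) ≠ E ω)
    (hγ1 : ∃ l : List (Equiv.Perm Ω), IsWord β θ l ∧ l.prod = γ)
    (hd : ∀ ε : ℝ, 0 < ε → ∃ N : ℕ, ∀ n : ℕ, N ≤ n → ∃ l : List (Equiv.Perm Ω),
      IsWord β θ l ∧ l.prod = γ ^ n ∧ (l.length : ℝ) ≤ ε * n) :
    Main := by
  let e : A ≃ Fin (Nat.card A) := Finite.equivFin A
  refine main_of_system_fin (fun ω i => e (E ω i)) β θ (conj e Fb) (conj e Fb') (conj e Ft)
    (conj e Ft') (isLocal_conj e hb) (isLocal_conj e hb') (isLocal_conj e ht) (isLocal_conj e ht')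
    ?_ ?_ ?_ ?_ hsol γ ?_ hγ1 hd
  · intro ω; rw [conj_apply, eb]
  · intro ω; rw [conj_apply, eb']
  · intro ω; rw [conj_apply, et]
  · intro ω; rw [conj_apply, et']
  · intro n hn
    obtain ⟨ω, hω⟩ := hγ n hn
    refine ⟨ω, fun h => hω ?_⟩
    funext i
    exact e.injective (congrFun h i)

end Pool.Agent.Lib.H43Dist
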