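import Pool.Agent.Lib.H43Dist.Macro
import Pool.Agent.Lib.H43Dist.Local
import Pool.Agent.Lib.H43Dist.Reduction
import Pool.Agent.Lib.H43Dist.GroupPart

/-!
# Assembly
-/

set_option autoImplicit false

namespace Pool.Agent.Lib.H43Dist

section Growth

theorem tt_eq (n j : ℕ) : tt n j + j + 2 = 3 ^ j * (2 * n + 6) := by
  induction j with
  | zero => simp [tt]
  | succ j ih =>
    have h1 : tt n (j + 1) = 3 * tt n j + 2 * (j + 1) + 1 := rfl
    have h2 : 3 ^ (j + 1) * (2 * n + 6) = 3 * (3 ^ j * (2 * n + 6)) := by ring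
    rw [h1, h2, ← ih]
    ring

theorem cost_formula (n : ℕ) : cost n = 8 * (3 ^ n * (n + 3)) + 2 * n := by
  have h := tt_eq n n
  have h2 : 3 ^ n * (2 * n + 6) = 2 * (3 ^ n * (n + 3)) := by ring
  rw [h2] at h
  have h3 : 3 ≤ 3 ^ n * (n + 3) := by
    have := Nat.one_le_pow n 3 (by norm_num)
    nlinarith
  unfold cost
  omega

theorem cost_succ (n : ℕ) : 2 * cost n < cost (n + 1) := by
  rw [cost_formula, cost_formula]
  have h1 : 3 ^ (n + 1) * (n + 1 + 3) = 3 * (3 ^ n * (n + 3)) + 3 * 3 ^ n := by ring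
  have h2 : n + 3 ≤ 3 ^ n * (n + 3) := Nat.le_mul_of_pos_left _ (by positivity)
  have h3 : 1 ≤ 3 ^ n := Nat.one_le_pow n 3 (by norm_num)
  omega

theorem PP_lt_cost (n : ℕ) : PP n < cost n := by
  induction n with
  | zero => decide
  | succ n ih =>
    have h1 : PP (n + 1) = PP n + cost n := rfl
    have h2 := cost_succ n
    omega

theorem PP_succ_gt (n : ℕ) : 2 * PP n < PP (n + 1) := by
  have h1 : PP (n + 1) = PP n + cost n := rfl
  have h2 := PP_lt_cost n
  omega

theorem three_four (n : ℕ) : 3 ^ n * (n + 3) ≤ 3 * 4 ^ n := by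
  induction n with
  | zero => simp
  | succ n ih =>
    have h1 : 3 ^ (n + 1) * (n + 1 + 3) = 3 * (3 ^ n * (n + 3)) + 3 * 3 ^ n := by ring
    have h2 : 3 ^ n * 3 ≤ 3 ^ n * (n + 3) := Nat.mul_le_mul_left _ (by omega)
    have h3 : 3 * 4 ^ (n + 1) = 4 * (3 * 4 ^ n) := by ring
    omega

theorem PP_le (n : ℕ) : PP n ≤ 24 * 4 ^ n := by
  induction n with
  | zero => simp [PP]
  | succ n ih =>
    have h1 : PP (n + 1) = PP n + cost n := rfl
    have h2 := cost_formula n
    have h3 := three_four n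
    have h4 : 4 ^ (n + 1) = 4 * 4 ^ n := by ring
    have h5 : n < 4 ^ n := Nat.lt_pow_self (by norm_num)
    omega

theorem PP_strictMono : StrictMono PP := by
  refine strictMono_nat_of_lt_succ fun n => ?_
  have := PP_succ_gt n
  omega

end Growth

section Runs

theorem Run.pow {k : ℕ} {c c' : Cfg} (h : Run k c c') :
    (tC ^ k) c = c' ∧ ∀ i < k, ¬ Dsp ((tC ^ i) c) := by
  induction h with
  | refl c => simp
  | head hd hs hr ih =>
    rename_i k c c' c''
    obtain ⟨h1, h2⟩ := ih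
    refine ⟨?_, fun i hi => ?_⟩
    · rw [pow_succ, Equiv.Perm.mul_apply, tC_step hs, h1]
    · cases i with
      | zero => simpa using hd
      | succ i =>
        rw [pow_succ, Equiv.Perm.mul_apply, tC_step hs]
        exact h2 i (by omega)

theorem dg_length (n : ℕ) (τ : ℤ) : (dg n τ).length = n := by
  induction n with
  | zero => rfl
  | succ n ih => simp [dg, ih]

theorem div_succ (n : ℕ) (τ : ℤ) : τ / 5 ^ n = 5 * (τ / 5 ^ (n + 1)) + (dig (τ / 5 ^ n) : ℤ) := by
  have h : τ / 5 ^ (n + 1) = τ / 5 ^ n / 5 := by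
    rw [pow_succ, Int.ediv_ediv_of_nonneg (by positivity)]
  rw [dig_val, h]
  exact (Int.mul_ediv_add_emod _ _).symm

/-- from level `n` to level `n + 1` -/
theorem stage' (n : ℕ) (τ : ℤ) (e : Bool) :
    (tC ^ cost n) (Disp n (τ / 5 ^ n) e (dg n τ)) =
        Disp (n + 1) (τ / 5 ^ (n + 1)) e (dg (n + 1) τ) ∧
      ∀ i, 0 < i → i < cost n → ¬ Dsp ((tC ^ i) (Disp n (τ / 5 ^ n) e (dg n τ))) := by
  obtain ⟨c, h1, h2⟩ := stage n (τ / 5 ^ (n + 1)) (dig (τ / 5 ^ n)) e (dg n τ) (dg_length n τ)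
  rw [← div_succ] at h1
  obtain ⟨h3, h4⟩ := h2.pow
  have hc : 0 < cost n := by
    have := PP_lt_cost n
    omega
  refine ⟨?_, fun i hi hi' => ?_⟩
  · have h5 : cost n = (cost n - 1) + 1 := by omega
    rw [h5, pow_succ, Equiv.Perm.mul_apply, tC_step h1, h3]
    rfl
  · have h5 : i = (i - 1) + 1 := by omega
    rw [h5, pow_succ, Equiv.Perm.mul_apply, tC_step h1]
    exact h4 _ (by omega)

theorem at_display (n : ℕ) (τ : ℤ) (e : Bool) :
    (tC ^ PP n) (Disp 0 τ e []) = Disp n (τ / 5 ^ n) e (dg n τ) := by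
  induction n with
  | zero => simp [PP, dg]
  | succ n ih =>
    have h1 : PP (n + 1) = cost n + PP n := by
      change PP n + cost n = _
      ring
    rw [h1, pow_add, Equiv.Perm.mul_apply, ih, (stage' n τ e).1]

theorem exists_between (i : ℕ) (hi : ∀ n, i ≠ PP n) : ∃ n, PP n < i ∧ i < PP (n + 1) := by
  have h0 : ∃ n, i < PP n := ⟨i + 1, lt_of_lt_of_le (Nat.lt_succ_self i) PP_strictMono.le_apply⟩
  have h1 := Nat.find_spec h0
  have h2 : Nat.find h0 ≠ 0 := by
    intro h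
    rw [h] at h1
    simp [PP] at h1
  obtain ⟨n, hn⟩ := Nat.exists_eq_succ_of_ne_zero h2
  rw [hn] at h1
  have h3 : ¬ i < PP n := Nat.find_min h0 (by omega)
  have h4 := hi n
  exact ⟨n, by omega, h1⟩

theorem not_dsp_pos (i : ℕ) (hi : ∀ n, i ≠ PP n) (τ : ℤ) (e : Bool) :
    ¬ Dsp ((tC ^ i) (Disp 0 τ e [])) := by
  obtain ⟨n, h1, h2⟩ := exists_between i hi
  have h3 : PP (n + 1) = PP n + cost n := rfl
  have h4 : i = (i - PP n) + PP n := by omega
  rw [h4, pow_add, Equiv.Perm.mul_apply, at_display]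
  exact (stage' n τ e).2 _ (by omega) (by omega)

/-- the configuration at time `-(j+2)` -/
def Neg (M : ℤ → Fin 3) (y : ℤ) (D₀ e : Bool) (j : ℕ) : Cfg :=
  ⟨M, Function.update (fun _ => Rg.none) y (.mark D₀ e), y + j, .Z⟩

theorem step_neg1 (M : ℤ → Fin 3) (y : ℤ) (D₀ e : Bool) :
    Step ⟨M, fun _ => .none, y - 1, .T' D₀ e⟩ ⟨M, fun _ => .none, y, .V D₀ e⟩ := by
  refine ⟨.V D₀ e, M (y - 1), .none, Tr.T'none D₀ e _, ?_⟩
  simp [dir, Function.update_eq_self]

theorem step_neg2 (M : ℤ → Fin 3) (y : ℤ) (D₀ e : Bool) :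
    Step (Neg M y D₀ e 0) ⟨M, fun _ => .none, y - 1, .T' D₀ e⟩ := by
  refine ⟨.T' D₀ e, M y, .none, ?_, ?_⟩
  · simp only [Neg, Nat.cast_zero, add_zero, Function.update_self]
    exact Tr.Zmark D₀ e _
  · simp only [Neg, Nat.cast_zero, add_zero, Function.update_idem, Function.update_eq_self, dir]
    rfl

theorem step_neg (M : ℤ → Fin 3) (y : ℤ) (D₀ e : Bool) (j : ℕ) :
    Step (Neg M y D₀ e (j + 1)) (Neg M y D₀ e j) := by
  have h1 : Function.update (fun _ => Rg.none) y (.mark D₀ e) (y + (j + 1 : ℕ)) = Rg.none := by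
    rw [Function.update_of_ne (by push_cast; omega)]
  refine ⟨.Z, M (y + (j + 1 : ℕ)), .none, ?_, ?_⟩
  · simp only [Neg, h1]
    exact Tr.Znone _
  · have h2 : Function.update (Function.update (fun _ => Rg.none) y (.mark D₀ e))
        (y + (j + 1 : ℕ)) Rg.none = Function.update (fun _ => Rg.none) y (.mark D₀ e) := by
      have h4 := Function.update_eq_self (y + ((j + 1 : ℕ) : ℤ))
        (Function.update (fun _ => Rg.none) y (.mark D₀ e))
      rw [h1] at h4
      exact h4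
    have h3 : y + ((j + 1 : ℕ) : ℤ) + -1 = y + j := by
      push_cast
      ring
    simp only [Neg, Function.update_eq_self, dir, h2, h3]

theorem pow_neg_of_step {c c' : Cfg} (h : Step c c') : tC⁻¹ c' = c := by
  rw [← tC_step h]
  simp

theorem zpow_neg_Neg (τ : ℤ) (e : Bool) (j : ℕ) :
    (tC⁻¹ ^ (j + 2)) (Disp 0 τ e []) =
      Neg (W 0 τ) (3 ^ 0 * X (if e then τ + 1 else τ)) (D τ) e j := by
  induction j with
  | zero =>
    have h1 : Disp 0 τ e [] = ⟨W 0 τ, fun _ => .none, 3 ^ 0 * X (if e then τ + 1 else τ),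
        .V (D τ) e⟩ := by
      unfold Disp
      rw [rig_nil]
    rw [h1, zero_add, pow_succ, pow_one, Equiv.Perm.mul_apply,
      pow_neg_of_step (step_neg1 _ _ _ _), pow_neg_of_step (step_neg2 _ _ _ _)]
  | succ j ih =>
    rw [show j + 1 + 2 = (j + 2) + 1 by ring, pow_succ', Equiv.Perm.mul_apply, ih,
      pow_neg_of_step (step_neg _ _ _ _ _)]

theorem not_dsp_neg (j : ℕ) (τ : ℤ) (e : Bool) : ¬ Dsp ((tC⁻¹ ^ (j + 1)) (Disp 0 τ e [])) := by
  cases j with
  | zero =>
    have h1 : Disp 0 τ e [] = ⟨W 0 τ, fun _ => .none, 3 ^ 0 * X (if e then τ + 1 else τ),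
        .V (D τ) e⟩ := by
      unfold Disp
      rw [rig_nil]
    rw [h1, zero_add, pow_one, pow_neg_of_step (step_neg1 _ _ _ _)]
    rintro ⟨D₁, e₁, h2, -⟩
    cases h2
  | succ j =>
    rw [show j + 1 + 1 = j + 2 by ring, zpow_neg_Neg]
    rintro ⟨D₁, e₁, h2, -⟩
    cases h2

/-- the configuration with index `s`, time `τ`, orientation `e` -/
noncomputable def conf (ω : Om) : Cfg := (tC ^ ω.1) (Disp 0 ω.2.1 ω.2.2 [])

theorem conf_display (n : ℕ) (τ : ℤ) (e : Bool) :
    conf ((PP n : ℤ), τ, e) = Disp n (τ / 5 ^ n) e (dg n τ) := by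
  unfold conf
  rw [zpow_natCast]
  exact at_display n τ e

theorem conf_not_display (s τ : ℤ) (e : Bool) (hs : ∀ n, s ≠ (PP n : ℤ)) :
    ¬ Dsp (conf (s, τ, e)) := by
  unfold conf
  rcases lt_or_ge s 0 with h | h
  · obtain ⟨j, hj⟩ : ∃ j : ℕ, s = -((j + 1 : ℕ) : ℤ) := ⟨(-s - 1).toNat, by push_cast; omega⟩
    simp only [hj]
    rw [zpow_neg, zpow_natCast, ← inv_pow]
    exact not_dsp_neg j τ e
  · obtain ⟨i, hi⟩ := Int.eq_ofNat_of_zero_le h
    have h1 : tC ^ s = tC ^ i := by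
      rw [hi]
      exact zpow_natCast tC i
    simp only [h1]
    exact not_dsp_pos i (fun n hn => hs n (by rw [hi, hn])) τ e

end Runs

section Beta

theorem bC_Disp (n : ℕ) (k : ℤ) (us : List (Fin 5)) :
    bC (Disp n k true us) = Disp n (k + 1) false us := by
  have h1 : (Disp n k true us).R (Disp n k true us).p = .none := rig_end _ _
  rw [bC_display (D := D k) rfl h1]
  simp only [Disp, if_true, vertexW, Bool.false_eq_true, if_false]
  congr 1
  funext p
  by_cases hp : p = 3 ^ n * X (k + 1)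
  · rw [hp, Function.update_self]
  · rw [Function.update_of_ne hp, W_succ_of_ne n k p hp]

theorem bC_Disp' (n : ℕ) (k : ℤ) (us : List (Fin 5)) :
    bC (Disp n (k + 1) false us) = Disp n k true us := by
  rw [← bC_Disp, bC_bC]

theorem dig_add (x m : ℤ) : dig (x + 5 * m) = dig x := by
  unfold dig
  simp

theorem dg_add (n : ℕ) (τ m : ℤ) : dg n (τ + 5 ^ n * m) = dg n τ := by
  induction n generalizing m with
  | zero => rfl
  | succ n ih =>
    have h1 : τ + 5 ^ (n + 1) * m = τ + 5 ^ n * (5 * m) := by ring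
    simp only [dg]
    rw [h1, ih, Int.add_mul_ediv_left _ _ (by positivity), dig_add]

open Classical in
/-- the abstract `β`, as a function -/
noncomputable def betaf (w : Om) : Om :=
  if h : ∃ n : ℕ, w.1 = PP n then
    (if w.2.2 then (w.1, w.2.1 + 5 ^ h.choose, false) else (w.1, w.2.1 - 5 ^ h.choose, true))
  else w

theorem betaf_at (n : ℕ) (τ : ℤ) (e : Bool) : betaf ((PP n : ℤ), τ, e) =
    if e then ((PP n : ℤ), τ + 5 ^ n, false) else ((PP n : ℤ), τ - 5 ^ n, true) := by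
  have h : ∃ m : ℕ, (PP n : ℤ) = PP m := ⟨n, rfl⟩
  have h1 : h.choose = n := by
    have h2 := h.choose_spec
    exact (PP_strictMono.injective (by exact_mod_cast h2)).symm
  unfold betaf
  simp only [dif_pos h, h1]

theorem betaf_not (s τ : ℤ) (e : Bool) (h : ∀ n, s ≠ (PP n : ℤ)) :
    betaf (s, τ, e) = (s, τ, e) := by
  unfold betaf
  rw [dif_neg]
  rintro ⟨n, hn⟩
  exact h n hn

theorem betaf_betaf (w : Om) : betaf (betaf w) = w := by
  obtain ⟨s, τ, e⟩ := w
  by_cases h : ∃ n : ℕ, s = PP n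
  · obtain ⟨n, rfl⟩ := h
    rw [betaf_at]
    cases e
    · simp [betaf_at]
    · simp [betaf_at]
  · have h' : ∀ n, s ≠ (PP n : ℤ) := fun n hn => h ⟨n, hn⟩
    rw [betaf_not s τ e h', betaf_not s τ e h']

/-- the abstract `β` -/
noncomputable def beta : Equiv.Perm Om := ⟨betaf, betaf, betaf_betaf, betaf_betaf⟩

theorem isBeta : IsBeta (fun n => (PP n : ℤ)) beta where
  tr n τ := by
    change betaf _ = _
    rw [betaf_at]
    rfl
  fa n τ := by
    change betaf _ = _
    rw [betaf_at]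
    rfl
  triv s τ e h := betaf_not s τ e h

theorem conf_beta (ω : Om) : bC (conf ω) = conf (beta ω) := by
  obtain ⟨s, τ, e⟩ := ω
  change _ = conf (betaf _)
  by_cases h : ∃ n : ℕ, s = PP n
  · obtain ⟨n, rfl⟩ := h
    rw [betaf_at, conf_display]
    cases e
    · simp only [Bool.false_eq_true, if_false]
      rw [conf_display]
      have h1 : (τ - 5 ^ n) / 5 ^ n = τ / 5 ^ n - 1 := by
        have := Int.add_mul_ediv_left τ (-1) (show (5 : ℤ) ^ n ≠ 0 by positivity)
        rw [show τ - 5 ^ n = τ + 5 ^ n * (-1) by ring, this]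
        ring
      have h2 : dg n (τ - 5 ^ n) = dg n τ := by
        rw [show τ - 5 ^ n = τ + 5 ^ n * (-1) by ring, dg_add]
      rw [h1, h2]
      have h3 := bC_Disp' n (τ / 5 ^ n - 1) (dg n τ)
      rwa [sub_add_cancel] at h3
    · simp only [if_true]
      rw [conf_display]
      have h1 : (τ + 5 ^ n) / 5 ^ n = τ / 5 ^ n + 1 := by
        have := Int.add_mul_ediv_left τ 1 (show (5 : ℤ) ^ n ≠ 0 by positivity)
        rw [show τ + 5 ^ n = τ + 5 ^ n * 1 by ring, this]
      have h2 : dg n (τ + 5 ^ n) = dg n τ := by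
        rw [show τ + 5 ^ n = τ + 5 ^ n * 1 by ring, dg_add]
      rw [h1, h2]
      exact bC_Disp n _ _
  · have h' : ∀ n, s ≠ (PP n : ℤ) := fun n hn => h ⟨n, hn⟩
    rw [betaf_not s τ e h', bC_of_not_dsp _ (conf_not_display s τ e h')]

theorem conf_beta_inv (ω : Om) : bC⁻¹ (conf ω) = conf (beta⁻¹ ω) := by
  have h1 : conf ω = bC (conf (beta⁻¹ ω)) := by
    rw [conf_beta]
    simp
  rw [h1]
  simp

theorem conf_theta (ω : Om) : tC (conf ω) = conf (theta ω) := by
  obtain ⟨s, τ, e⟩ := ω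
  unfold conf theta
  simp only [Equiv.coe_fn_mk]
  rw [add_comm, zpow_add, zpow_one, Equiv.Perm.mul_apply]

theorem conf_theta_inv (ω : Om) : tC⁻¹ (conf ω) = conf (theta⁻¹ ω) := by
  have h1 : conf ω = tC (conf (theta⁻¹ ω)) := by
    rw [conf_theta]
    simp
  rw [h1]
  simp

theorem enc_p {c c' : Cfg} (h : enc c = enc c') : c.p = c'.p := by
  have h1 := congrFun h c.p
  simp only [enc, if_true, Prod.mk.injEq] at h1
  by_contra h2
  rw [if_neg h2] at h1
  exact absurd h1.2.2.2 (by simp)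

end Beta

/-- **The frozen statement.** -/
theorem main : Main := by
  have hP0 : (fun n => (PP n : ℤ)) 0 = 0 := rfl
  obtain ⟨γ, h1, h2, h3⟩ := distortion (fun n => (PP n : ℤ)) beta isBeta 24 rfl
    (fun n => by exact_mod_cast PP_succ_gt n) (fun n => by exact_mod_cast PP_le n)
  refine main_of_system (A := Al) (fun ω => enc (conf ω)) beta theta Fb Fb' Ft Ft' Fb_local
    Fb'_local Ft_local Ft'_local (fun ω => ?_) (fun ω => ?_) (fun ω => ?_) (fun ω => ?_)
    (solvable_closure _ beta isBeta) γ (fun n hn => ⟨(0, -1, true), fun h => ?_⟩) h2 h3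
  · rw [Fb_enc, conf_beta]
  · rw [Fb'_enc, conf_beta_inv]
  · rw [Ft_enc, conf_theta]
  · rw [Ft'_enc, conf_theta_inv]
  · have h4 := enc_p h
    rw [h1] at h4
    have h5 : X (-1 + 8 * (n : ℤ) + 1) = X (-1 + 1) := by
      simpa [conf, Disp] using h4
    rw [show (-1 + 1 : ℤ) = 0 by norm_num, (X_eq_zero 0).2 rfl, X_eq_zero] at h5
    omega

end Pool.Agent.Lib.H43Dist
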