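import Pool.Agent.Lib.H43Dist.GroupPart0

/-!
# Chunk C2: the distortion element
-/

set_option autoImplicit false

namespace Pool.Agent.Lib.H43Dist.GroupDist

open Equiv

/-- `φ` is the translation by `r` (with the sign given by the orientation) at index `0`. -/
structure IsTr (φ : Perm Om) (r : ℤ) : Prop where
  pos : ∀ τ, φ (0, τ, true) = (0, τ + r, true)
  neg : ∀ τ, φ (0, τ, false) = (0, τ - r, false)
  off : ∀ s, s ≠ 0 → ∀ x, φ (s, x) = (s, x)

theorem IsTr.eq {φ ψ : Perm Om} {r : ℤ} (h : IsTr φ r) (h' : IsTr ψ r) : φ = ψ := by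
  apply Equiv.ext
  rintro ⟨s, τ, e⟩
  by_cases hs : s = 0
  · subst hs
    cases e
    · rw [h.neg, h'.neg]
    · rw [h.pos, h'.pos]
  · rw [h.off s hs, h'.off s hs]

theorem IsTr.one : IsTr 1 0 := ⟨fun τ => by simp, fun τ => by simp, fun s _ x => rfl⟩

theorem IsTr.mul {φ ψ : Perm Om} {r t : ℤ} (h : IsTr φ r) (h' : IsTr ψ t) :
    IsTr (φ * ψ) (t + r) := by
  refine ⟨fun τ => ?_, fun τ => ?_, fun s hs x => ?_⟩
  · rw [Perm.mul_apply, h'.pos, h.pos, add_assoc]
  · rw [Perm.mul_apply, h'.neg, h.neg, sub_sub]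
  · rw [Perm.mul_apply, h'.off s hs, h.off s hs]

theorem IsTr.pow {φ : Perm Om} {r : ℤ} (h : IsTr φ r) (m : ℕ) : IsTr (φ ^ m) (r * m) := by
  induction m with
  | zero => simpa using IsTr.one
  | succ m ih =>
    have := ih.mul h
    rw [pow_succ]
    have e : r * ((m + 1 : ℕ) : ℤ) = r + r * m := by push_cast; ring
    rw [e]
    exact this

theorem theta_pow (k : ℕ) (s : ℤ) (x : ℤ × Bool) : (theta ^ k) (s, x) = (s + k, x) := by
  induction k generalizing s with
  | zero => simp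
  | succ k ih =>
    rw [pow_succ, Perm.mul_apply]
    show (theta ^ k) (s + 1, x) = _
    rw [ih]
    congr 1
    push_cast
    ring

theorem theta_inv_pow (k : ℕ) (s : ℤ) (x : ℤ × Bool) : (theta⁻¹ ^ k) (s, x) = (s - k, x) := by
  rw [inv_pow, Perm.inv_eq_iff_eq, theta_pow]
  simp

section

variable (P : ℕ → ℤ) (β : Perm Om) (hβ : IsBeta P β)

/-- the action of `β` on the fibre over `s` -/
def B (s : ℤ) (x : ℤ × Bool) : ℤ × Bool := (β (s, x)).2

include hβ

theorem B_spec (s : ℤ) (x : ℤ × Bool) : β (s, x) = (s, B β s x) := by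
  unfold B
  obtain ⟨τ, e⟩ := x
  by_cases h : ∃ n, s = P n
  · obtain ⟨n, rfl⟩ := h
    cases e
    · rw [hβ.fa]
    · rw [hβ.tr]
  · rw [hβ.triv s τ e (fun n hn => h ⟨n, hn⟩)]

theorem B_inv (s : ℤ) (x : ℤ × Bool) : B β s (B β s x) = x := by
  unfold B
  obtain ⟨τ, e⟩ := x
  by_cases h : ∃ n, s = P n
  · obtain ⟨n, rfl⟩ := h
    cases e
    · rw [hβ.fa, hβ.tr]; simp
    · rw [hβ.tr, hβ.fa]; simp
  · have h1 := hβ.triv s τ e (fun n hn => h ⟨n, hn⟩)
    rw [h1, h1]

theorem B_triv (s : ℤ) (h : ∀ n, s ≠ P n) (x : ℤ × Bool) : B β s x = x := by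
  unfold B
  obtain ⟨τ, e⟩ := x
  rw [hβ.triv s τ e h]

omit hβ in
/-- the commutator of `β` and its conjugate -/
def cw (p : ℕ) : Perm Om :=
  β * (theta⁻¹ ^ p * β * theta ^ p) * β * (theta⁻¹ ^ p * β * theta ^ p)

theorem cw_apply (p : ℕ) (s : ℤ) (x : ℤ × Bool) :
    cw β p (s, x) = (s, B β s (B β (s + p) (B β s (B β (s + p) x)))) := by
  have h1 : ∀ s x, (theta⁻¹ ^ p * β * theta ^ p) (s, x) = (s, B β (s + p) x) := by
    intro s x
    rw [Perm.mul_apply, Perm.mul_apply, theta_pow, B_spec P β hβ, theta_inv_pow]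
    simp
  unfold cw
  rw [Perm.mul_apply, Perm.mul_apply, Perm.mul_apply, h1, B_spec P β hβ, h1, B_spec P β hβ]

variable (h0 : P 0 = 0) (h2 : ∀ n, 2 * P n < P (n + 1))

omit hβ in
include h0 h2 in
theorem P_nonneg (n : ℕ) : 0 ≤ P n := by
  induction n with
  | zero => rw [h0]
  | succ n ih => have := h2 n; omega

omit hβ in
include h0 h2 in
theorem P_strictMono : StrictMono P := by
  apply strictMono_nat_of_lt_succ
  intro n
  have := h2 n
  have := P_nonneg P h0 h2 n
  omega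

omit hβ in
include h0 h2 in
theorem P_pos (n : ℕ) (hn : 1 ≤ n) : 0 < P n := by
  have := P_strictMono P h0 h2 (show 0 < n by omega)
  omega

omit hβ in
include h0 h2 in
/-- Sidon property -/
theorem sidon (n i j : ℕ) (hn : 1 ≤ n) (h : P i + P n = P j) : i = 0 := by
  by_contra hi
  have hm := P_strictMono P h0 h2
  have hin : 0 < P i := P_pos P h0 h2 i (by omega)
  have hnn : 0 < P n := P_pos P h0 h2 n hn
  have h3 : i < j := hm.lt_iff_lt.1 (by omega)
  have h4 : n < j := hm.lt_iff_lt.1 (by omega)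
  obtain ⟨k, rfl⟩ : ∃ k, j = k + 1 := ⟨j - 1, by omega⟩
  have h5 : P i ≤ P k := hm.monotone (by omega)
  have h6 : P n ≤ P k := hm.monotone (by omega)
  have := h2 k
  omega

include h0 h2 in
theorem isTr_cw (n : ℕ) (hn : 1 ≤ n) :
    IsTr (cw β (P n).toNat) (2 * (5 ^ n - 1)) := by
  have hp : (((P n).toNat : ℕ) : ℤ) = P n := Int.toNat_of_nonneg (P_nonneg P h0 h2 n)
  have b0t : ∀ τ, B β 0 (τ, true) = (τ + 1, false) := by
    intro τ
    have := hβ.tr 0 τ
    rw [h0] at this
    unfold B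
    rw [this]
    simp
  have b0f : ∀ τ, B β 0 (τ, false) = (τ - 1, true) := by
    intro τ
    have := hβ.fa 0 τ
    rw [h0] at this
    unfold B
    rw [this]
    simp
  have bnt : ∀ τ, B β (P n) (τ, true) = (τ + 5 ^ n, false) := by
    intro τ
    unfold B
    rw [hβ.tr]
  have bnf : ∀ τ, B β (P n) (τ, false) = (τ - 5 ^ n, true) := by
    intro τ
    unfold B
    rw [hβ.fa]
  refine ⟨fun τ => ?_, fun τ => ?_, fun s hs x => ?_⟩
  · rw [cw_apply P β hβ, hp, zero_add, bnt, b0f, bnt, b0f]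
    simp only [Prod.mk.injEq, and_true, true_and]
    ring
  · rw [cw_apply P β hβ, hp, zero_add, bnf, b0t, bnf, b0t]
    simp only [Prod.mk.injEq, and_true, true_and]
    ring
  · rw [cw_apply P β hβ, hp]
    by_cases h : ∃ i, s = P i
    · obtain ⟨i, hi⟩ := h
      have h3 : ∀ j, s + P n ≠ P j := by
        intro j hj
        rw [hi] at hj
        have := sidon P h0 h2 n i j hn hj
        rw [this, h0] at hi
        exact hs hi
      rw [B_triv P β hβ (s + P n) h3, B_triv P β hβ (s + P n) h3, B_inv P β hβ]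
    · have h3 : ∀ j, s ≠ P j := fun j hj => h ⟨j, hj⟩
      rw [B_triv P β hβ s h3, B_triv P β hβ s h3, B_inv P β hβ]

/-- exponents -/
def NN : ℕ → ℕ
  | 0 => 0
  | n + 1 => 5 * NN n + 1

omit hβ in
theorem NN_spec (n : ℕ) : 4 * NN n + 1 = 5 ^ n := by
  induction n with
  | zero => rfl
  | succ n ih =>
    have : NN (n + 1) = 5 * NN n + 1 := rfl
    rw [this, pow_succ, ← ih]
    ring

include h0 h2 in
theorem cw_eq_pow (n : ℕ) (hn : 1 ≤ n) :
    cw β (P n).toNat = (cw β (P 1).toNat) ^ (NN n) := by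
  have h3 := isTr_cw P β hβ h0 h2 n hn
  have h4 := (isTr_cw P β hβ h0 h2 1 le_rfl).pow (NN n)
  have h5 : (2 * (5 ^ 1 - 1) : ℤ) * (NN n : ℤ) = 2 * (5 ^ n - 1) := by
    have := NN_spec n
    have h6 : (4 * (NN n : ℤ) + 1) = 5 ^ n := by exact_mod_cast this
    rw [← h6]
    ring
  rw [h5] at h4
  exact h3.eq h4

omit hβ in
/-- the word of the commutator -/
def ww (p : ℕ) : List (Perm Om) :=
  [β] ++ List.replicate p theta⁻¹ ++ [β] ++ List.replicate p theta ++
    [β] ++ List.replicate p theta⁻¹ ++ [β] ++ List.replicate p theta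

omit hβ in
theorem ww_isWord (p : ℕ) : IsWord β theta (ww β p) := by
  intro s hs
  simp only [ww, List.mem_append, List.mem_singleton, List.mem_replicate] at hs
  tauto

omit hβ in
theorem ww_prod (p : ℕ) : (ww β p).prod = cw β p := by
  simp only [ww, List.prod_append, List.prod_singleton, List.prod_replicate, cw, mul_assoc]

omit hβ in
theorem ww_length (p : ℕ) : (ww β p).length = 4 * p + 4 := by
  simp only [ww, List.length_append, List.length_singleton, List.length_replicate]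
  ring

omit hβ in
theorem isWord_append {β θ : Perm Om} {l l' : List (Perm Om)} (h : IsWord β θ l)
    (h' : IsWord β θ l') : IsWord β θ (l ++ l') := by
  intro s hs
  rcases List.mem_append.1 hs with hs | hs
  · exact h s hs
  · exact h' s hs

omit hβ in
/-- repetition of a word -/
theorem exists_rep {β θ : Perm Om} {l : List (Perm Om)} (h : IsWord β θ l) (q : ℕ) :
    ∃ l', IsWord β θ l' ∧ l'.prod = l.prod ^ q ∧ l'.length = q * l.length := by
  induction q with
  | zero => exact ⟨[], fun s hs => by simp at hs, by simp, by simp⟩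
  | succ q ih =>
    obtain ⟨l', h1, h3, h4⟩ := ih
    refine ⟨l' ++ l, isWord_append h1 h, ?_, ?_⟩
    · rw [List.prod_append, h3, pow_succ]
    · rw [List.length_append, h4]; ring

include h0 h2 in
theorem greedy (C : ℝ) (hC : 1 ≤ C) (h4 : ∀ n, ((P n).toNat : ℝ) ≤ C * 4 ^ n) (k : ℕ) :
    ∀ m : ℕ, m < NN (k + 1) → ∃ l : List (Perm Om), IsWord β theta l ∧
      l.prod = (cw β (P 1).toNat) ^ m ∧ (l.length : ℝ) ≤ 16 * C * 4 ^ (k + 1) := by
  induction k with
  | zero =>
    intro m hm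
    have : m = 0 := by
      have h : NN (0 + 1) = 1 := rfl
      omega
    subst this
    refine ⟨[], fun s hs => by simp at hs, by simp, ?_⟩
    simp only [List.length_nil, Nat.cast_zero]
    positivity
  | succ k ih =>
    intro m hm
    have hN : NN (k + 1 + 1) = 5 * NN (k + 1) + 1 := rfl
    have hpos : 0 < NN (k + 1) := by
      have h : NN (k + 1) = 5 * NN k + 1 := rfl
      omega
    obtain ⟨l, hl1, hl2, hl3⟩ := ih (m % NN (k + 1)) (Nat.mod_lt _ hpos)
    obtain ⟨l', h1, h3, h5⟩ := exists_rep (ww_isWord β (P (k + 1)).toNat) (m / NN (k + 1))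
    have hq : m / NN (k + 1) ≤ 5 := by
      have : m / NN (k + 1) < 6 := by
        rw [Nat.div_lt_iff_lt_mul hpos]
        omega
      omega
    refine ⟨l' ++ l, isWord_append h1 hl1, ?_, ?_⟩
    · rw [List.prod_append, h3, hl2, ww_prod, cw_eq_pow P β hβ h0 h2 (k + 1) (by omega),
        ← pow_mul, ← pow_add, Nat.div_add_mod]
    · rw [List.length_append, h5, ww_length]
      push_cast
      have h6 := h4 (k + 1)
      have hq' : ((m / NN (k + 1) : ℕ) : ℝ) ≤ 5 := by exact_mod_cast hq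
      have h7 : (0 : ℝ) ≤ 4 * ((P (k + 1)).toNat : ℝ) + 4 := by positivity
      have h8 : ((m / NN (k + 1) : ℕ) : ℝ) * (4 * ((P (k + 1)).toNat : ℝ) + 4)
          ≤ 5 * (4 * ((P (k + 1)).toNat : ℝ) + 4) := mul_le_mul_of_nonneg_right hq' h7
      have h9 : (1 : ℝ) ≤ C * 4 ^ (k + 1) := by
        have : (1 : ℝ) ≤ 4 ^ (k + 1) := one_le_pow₀ (by norm_num)
        nlinarith
      have h10 : (4 : ℝ) ^ (k + 1 + 1) = 4 * 4 ^ (k + 1) := by ring
      rw [h10]
      nlinarith

end

end Pool.Agent.Lib.H43Dist.GroupDist
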