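import Pool.Agent.Lib.H43Dist.Wreath

/-!
# Chunk C1: solvability of the group generated by the involution and the index shift
-/

set_option autoImplicit false

namespace Pool.Agent.Lib.H43Dist.GroupSolv

open Equiv Pool.Agent.Lib.H43Dist.Wreath

/-- rotation by `r` -/
def IsRot (d : Perm (ℤ × Bool)) (r : ℤ) : Prop :=
  ∀ τ, d (τ, true) = (τ + r, true) ∧ d (τ, false) = (τ - r, false)

/-- reflection -/
def IsRef (d : Perm (ℤ × Bool)) (r : ℤ) : Prop :=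
  ∀ τ, d (τ, true) = (τ + r, false) ∧ d (τ, false) = (τ - r, true)

theorem IsRot.mul {d e : Perm (ℤ × Bool)} {r s : ℤ} (hd : IsRot d r) (he : IsRot e s) :
    IsRot (d * e) (s + r) := by
  intro τ
  rw [Perm.mul_apply, Perm.mul_apply, (he τ).1, (he τ).2, (hd _).1, (hd _).2]
  exact ⟨by simp only [Prod.mk.injEq, and_true]; ring, by simp only [Prod.mk.injEq, and_true]; ring⟩

theorem IsRot.mul_ref {d e : Perm (ℤ × Bool)} {r s : ℤ} (hd : IsRot d r) (he : IsRef e s) :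
    IsRef (d * e) (s - r) := by
  intro τ
  rw [Perm.mul_apply, Perm.mul_apply, (he τ).1, (he τ).2, (hd _).1, (hd _).2]
  exact ⟨by simp only [Prod.mk.injEq, and_true]; ring, by simp only [Prod.mk.injEq, and_true]; ring⟩

theorem IsRef.mul_rot {d e : Perm (ℤ × Bool)} {r s : ℤ} (hd : IsRef d r) (he : IsRot e s) :
    IsRef (d * e) (s + r) := by
  intro τ
  rw [Perm.mul_apply, Perm.mul_apply, (he τ).1, (he τ).2, (hd _).1, (hd _).2]
  exact ⟨by simp only [Prod.mk.injEq, and_true]; ring, by simp only [Prod.mk.injEq, and_true]; ring⟩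

theorem IsRef.mul {d e : Perm (ℤ × Bool)} {r s : ℤ} (hd : IsRef d r) (he : IsRef e s) :
    IsRot (d * e) (s - r) := by
  intro τ
  rw [Perm.mul_apply, Perm.mul_apply, (he τ).1, (he τ).2, (hd _).1, (hd _).2]
  exact ⟨by simp only [Prod.mk.injEq, and_true]; ring, by simp only [Prod.mk.injEq, and_true]; ring⟩

theorem IsRot.inv {d : Perm (ℤ × Bool)} {r : ℤ} (hd : IsRot d r) : IsRot d⁻¹ (-r) := by
  intro τ
  rw [Perm.inv_eq_iff_eq, Perm.inv_eq_iff_eq, (hd _).1, (hd _).2]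
  simp

theorem IsRef.inv {d : Perm (ℤ × Bool)} {r : ℤ} (hd : IsRef d r) : IsRef d⁻¹ r := by
  intro τ
  rw [Perm.inv_eq_iff_eq, Perm.inv_eq_iff_eq, (hd _).1, (hd _).2]
  simp

/-- the group of rotations -/
def Rots : Subgroup (Perm (ℤ × Bool)) where
  carrier := {d | ∃ r, IsRot d r}
  one_mem' := ⟨0, fun τ => by simp⟩
  mul_mem' := by
    rintro d e ⟨r, hr⟩ ⟨s, hs⟩
    exact ⟨_, hr.mul hs⟩
  inv_mem' := by
    rintro d ⟨r, hr⟩
    exact ⟨_, hr.inv⟩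

/-- the infinite dihedral group -/
def Dih : Subgroup (Perm (ℤ × Bool)) where
  carrier := {d | (∃ r, IsRot d r) ∨ ∃ r, IsRef d r}
  one_mem' := Or.inl ⟨0, fun τ => by simp⟩
  mul_mem' := by
    rintro d e (⟨r, hr⟩ | ⟨r, hr⟩) (⟨s, hs⟩ | ⟨s, hs⟩)
    · exact Or.inl ⟨_, hr.mul hs⟩
    · exact Or.inr ⟨_, hr.mul_ref hs⟩
    · exact Or.inr ⟨_, hr.mul_rot hs⟩
    · exact Or.inl ⟨_, hr.mul hs⟩
  inv_mem' := by
    rintro d (⟨r, hr⟩ | ⟨r, hr⟩)
    · exact Or.inl ⟨_, hr.inv⟩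
    · exact Or.inr ⟨_, hr.inv⟩

theorem comm_le : ⁅Dih, Dih⁆ ≤ Rots := by
  rw [Subgroup.commutator_le]
  rintro d (⟨r, hr⟩ | ⟨r, hr⟩) e (⟨s, hs⟩ | ⟨s, hs⟩)
  · exact ⟨_, ((hr.mul hs).mul hr.inv).mul hs.inv⟩
  · exact ⟨_, ((hr.mul_ref hs).mul_rot hr.inv).mul hs.inv⟩
  · exact ⟨_, ((hr.mul_rot hs).mul hr.inv).mul hs.inv⟩
  · exact ⟨_, ((hr.mul hs).mul_ref hr.inv).mul hs.inv⟩

theorem rots_comm : ∀ a ∈ Rots, ∀ b ∈ Rots, a * b = b * a := by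
  rintro a ⟨r, hr⟩ b ⟨s, hs⟩
  apply Equiv.ext
  rintro ⟨τ, e⟩
  have h1 := (hr.mul hs) τ
  have h2 := (hs.mul hr) τ
  cases e
  · rw [h1.2, h2.2, add_comm r s]
  · rw [h1.1, h2.1, add_comm r s]

end Pool.Agent.Lib.H43Dist.GroupSolv
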