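import Pool.Agent.Lib.H43Dist.Statement
import Pool.Agent.Lib.H43Dist.GroupSolv

/-!
# CHUNKS C1, C2: the abstract group `⟨β, θ⟩ ≤ D_∞^ℤ ⋊ ℤ`

`Ω = ℤ × ℤ × Bool ∋ (s, τ, e)`; `θ` raises the index `s`; `β` acts only at the indices `P n`, where
it is the involution `(τ, true) ↔ (τ + 5 ^ n, false)`.
-/

set_option autoImplicit false

namespace Pool.Agent.Lib.H43Dist

/-- index set: (index, time, orientation) -/
abbrev Om := ℤ × ℤ × Bool

/-- the index shift -/
def theta : Equiv.Perm Om where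
  toFun w := (w.1 + 1, w.2)
  invFun w := (w.1 - 1, w.2)
  left_inv w := by simp
  right_inv w := by simp

/-- What `β` does. -/
structure IsBeta (P : ℕ → ℤ) (β : Equiv.Perm Om) : Prop where
  tr : ∀ n τ, β (P n, τ, true) = (P n, τ + 5 ^ n, false)
  fa : ∀ n τ, β (P n, τ, false) = (P n, τ - 5 ^ n, true)
  triv : ∀ s τ e, (∀ n, s ≠ P n) → β (s, τ, e) = (s, τ, e)

/-- CHUNK C1.  Hint: the subgroup of all `φ` of the form `φ (s, x) = (s + c, η_s x)` where each
`η_s` is `(τ, e) ↦ (τ ± r, e)` or `(τ, e) ↦ (τ ± r, !e)` (sign `+` if `e = true`, `-` if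
`e = false`), that is an element of `D_∞`; homomorphism to `ℤ` by `c`, then to `(ℤ/2)^ℤ`, the rest
is abelian.  -/
theorem solvable_closure (P : ℕ → ℤ) (β : Equiv.Perm Om) (hβ : IsBeta P β) :
    Group.IsSolvable (Subgroup.closure {β, theta} : Subgroup (Equiv.Perm Om)) := by
  refine Wreath.solvable_of_fibred GroupSolv.Dih GroupSolv.Rots GroupSolv.comm_le
    GroupSolv.rots_comm _ ?_
  rw [Subgroup.closure_le]
  rintro φ (rfl | rfl)
  · refine ⟨0, fun s => ?_⟩
    by_cases h : ∃ n, s = P n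
    · obtain ⟨n, rfl⟩ := h
      have hinv : Function.Involutive
          (fun x : ℤ × Bool => (if x.2 then (x.1 + 5 ^ n, false) else (x.1 - 5 ^ n, true))) := by
        rintro ⟨τ, e⟩
        cases e <;> simp
      refine ⟨hinv.toPerm, Or.inr ⟨5 ^ n, fun τ => ⟨rfl, rfl⟩⟩, ?_⟩
      rintro ⟨τ, e⟩
      cases e
      · rw [hβ.fa, add_zero]; rfl
      · rw [hβ.tr, add_zero]; rfl
    · refine ⟨1, GroupSolv.Dih.one_mem, ?_⟩
      rintro ⟨τ, e⟩
      rw [hβ.triv s τ e (fun n hn => h ⟨n, hn⟩), add_zero]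
      rfl
  · exact ⟨1, fun s => ⟨1, GroupSolv.Dih.one_mem, fun x => rfl⟩⟩

end Pool.Agent.Lib.H43Dist
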