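import Pool.Agent.Lib.H43Dist.Walk0

/-!
# The machine: states, rules, configurations, one step, runs
-/

set_option autoImplicit false

namespace Pool.Agent.Lib.H43Dist

/-- Symbols of the rig layer: blank, a rig cell (passive digit `d`, counter digit `c`), or a mark
(used only at negative times) carrying direction and orientation. -/
inductive Rg where
  | none : Rg
  | cell (d : Fin 5) (c : Fin 3) : Rg
  | mark (D e : Bool) : Rg
  deriving DecidableEq, Fintype

/-- Where to look: behind, nowhere, ahead. -/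
inductive Look where
  | behind : Look
  | here : Look
  | ahead : Look
  deriving DecidableEq, Fintype

/-- Macro states (program states). `A` is the apparent direction, `e` the orientation. -/
inductive K where
  | k1 (A e : Bool) (l : Look) : K
  | two (A e : Bool) (m : Fin 3) : K
  | one (A e : Bool) : K
  | three (A e : Bool) (l : Look) : K
  | k3 (A e : Bool) (d : Fin 5) : K
  | k4 (A e : Bool) (d : Fin 5) : K
  deriving DecidableEq, Fintype

/-- Direction of a macro move, relative to `A`. -/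
def lk : Look → ℤ
  | .behind => -1
  | .here => 0
  | .ahead => 1

/-- Direction of the macro move made in a macro state. -/
def dl : K → ℤ
  | .k1 A _ l => sg A * lk l
  | .two A _ _ => sg A
  | .one A _ => - sg A
  | .three A _ l => - (sg A * lk l)
  | .k3 A _ d => sg A * ![1, 1, -1, 1, 0] d
  | .k4 A _ d => sg A * ![1, 0, -1, 0, 0] d

/-- All states of the machine. -/
inductive Q where
  | Z : Q
  | V (D e : Bool) : Q
  | T (d : Fin 5) (D e : Bool) : Q
  | T' (D e : Bool) : Q
  | R (κ : K) : Q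
  | L (κ : K) : Q
  | P (κ : K) : Q
  | PS (κ : K) (h : Rg) : Q
  | P' (κ : K) : Q
  | W (κ : K) : Q
  | B (κ : K) : Q
  | BS (κ : K) (h : Rg) : Q
  | B' (κ : K) : Q
  deriving DecidableEq, Fintype

/-- Direction of motion of a state. -/
def dir : Q → ℤ
  | .Z => -1
  | .V _ _ => 1
  | .T _ _ _ => -1
  | .T' _ _ => -1
  | .R _ => 1
  | .L _ => -1
  | .P _ => 1
  | .PS _ _ => 1
  | .P' _ => 1
  | .W _ => 0
  | .B _ => -1
  | .BS _ _ => -1
  | .B' _ => -1

/-- Where to look, from the relative type. -/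
def look (a : Fin 3) : Look := ![.here, .ahead, .behind] a

/-- The macro rule: `Mac a s m s' m'`: in state `s` on a cell of type `a`, marker `m` and blank rig
layer, the machine writes the marker `m'` and enters the state `s'`. -/
inductive Mac (a : Fin 3) : Q → Fin 3 → Q → Fin 3 → Prop where
  | start (D e : Bool) (m : Fin 3) :
      Mac a (.V D e) m (.L (.k1 (D == e) e (look (hat (D == e) a)))) m
  | behind1 (A e : Bool) (m : Fin 3) (h : hat A a = 1) :
      Mac a (.R (.k1 A e .behind)) m (.L (.two A e (hat e m))) 0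
  | behind2 (A e : Bool) (m : Fin 3) (h : hat A a = 2) :
      Mac a (.R (.k1 A e .behind)) m (.L (.three A e .behind)) m
  | ahead2 (A e : Bool) (m : Fin 3) (h : hat A a = 2) :
      Mac a (.R (.k1 A e .ahead)) m (.L (.one A e)) m
  | ahead1 (A e : Bool) (m : Fin 3) (h : hat A a = 1) :
      Mac a (.R (.k1 A e .ahead)) m (.L (.three A e .ahead)) m
  | here0 (A e : Bool) (m : Fin 3) (h : hat A a = 0) :
      Mac a (.R (.k1 A e .here)) m (.L (.three A e .here)) m
  | two1 (A e : Bool) (m : Fin 3) (h : hat e m = 0) :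
      Mac a (.R (.two A e 1)) m (.L (.k3 A e 1)) 0
  | two3 (A e : Bool) (m : Fin 3) (h : hat e m = 2) :
      Mac a (.R (.two A e 0)) m (.L (.k3 A e 3)) 0
  | two2 (A e : Bool) (m : Fin 3) (h : hat e m = 1) :
      Mac a (.R (.two A e 2)) m (.L (.k3 A e 2)) 0
  | one (A e : Bool) (m : Fin 3) :
      Mac a (.R (.one A e)) m (.L (.k3 A e 0)) m
  | three (A e : Bool) (m : Fin 3) :
      Mac a (.R (.three A e (look (hat A a)))) m (.L (.k3 A e 4)) m
  | k3 (A e : Bool) (d : Fin 5) (m : Fin 3) :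
      Mac a (.R (.k3 A e d)) m (.L (.k4 A e d)) m
  | k4 (A e : Bool) (d : Fin 5) (m : Fin 3) :
      Mac a (.R (.k4 A e d)) m (.T (if e then d else 4 - d) ((A == sub d) == e) e) m

/-- The rules of the machine: `Tr a (s, m, x) (s', m', x')`. -/
inductive Tr (a : Fin 3) : Q × Fin 3 × Rg → Q × Fin 3 × Rg → Prop where
  | mac (s : Q) (m : Fin 3) (s' : Q) (m' : Fin 3) (h : Mac a s m s' m') :
      Tr a (s, m, .none) (s', m', .none)
  | Zmark (D e : Bool) (m : Fin 3) : Tr a (.Z, m, .mark D e) (.T' D e, m, .none)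
  | Znone (m : Fin 3) : Tr a (.Z, m, .none) (.Z, m, .none)
  | T'none (D e : Bool) (m : Fin 3) : Tr a (.T' D e, m, .none) (.V D e, m, .none)
  | Vcell (D e : Bool) (m : Fin 3) (d : Fin 5) : Tr a (.V D e, m, .cell d 0) (.V D e, m, .cell d 0)
  | Tcell (d' : Fin 5) (D e : Bool) (m : Fin 3) (d : Fin 5) :
      Tr a (.T d' D e, m, .cell d 0) (.T d' D e, m, .cell d 0)
  | Tnone (d' : Fin 5) (D e : Bool) (m : Fin 3) :
      Tr a (.T d' D e, m, .none) (.T' D e, m, .cell d' 0)
  | Lcell (κ : K) (m : Fin 3) (d : Fin 5) : Tr a (.L κ, m, .cell d 0) (.L κ, m, .cell d 0)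
  | Lnone1 (κ : K) (m : Fin 3) (h : dl κ = 1) : Tr a (.L κ, m, .none) (.PS κ .none, m, .none)
  | Lnone0 (κ : K) (m : Fin 3) (h : dl κ ≠ 1) : Tr a (.L κ, m, .none) (.P κ, m, .none)
  | Pcell (κ : K) (m : Fin 3) (d : Fin 5) (c : Fin 3) :
      Tr a (.P κ, m, .cell d c) (.P κ, m, .cell d c)
  | Pnone0 (κ : K) (m : Fin 3) (h : dl κ = 0) : Tr a (.P κ, m, .none) (.W κ, m, .none)
  | PnoneM (κ : K) (m : Fin 3) (h : dl κ = -1) : Tr a (.P κ, m, .none) (.BS κ .none, m, .none)
  | Wnone (κ : K) (m : Fin 3) (h : dl κ = 0) : Tr a (.W κ, m, .none) (.B κ, m, .none)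
  | PScell (κ : K) (h : Rg) (m : Fin 3) (d : Fin 5) (c : Fin 3) :
      Tr a (.PS κ h, m, .cell d c) (.PS κ (.cell d c), m, h)
  | PSnone (κ : K) (h : Rg) (m : Fin 3) : Tr a (.PS κ h, m, .none) (.P' κ, m, h)
  | P'none (κ : K) (m : Fin 3) (h : dl κ = 1) : Tr a (.P' κ, m, .none) (.B κ, m, .none)
  | Bcell (κ : K) (m : Fin 3) (d : Fin 5) (c : Fin 3) :
      Tr a (.B κ, m, .cell d c) (.B κ, m, .cell d c)
  | Bnone (κ : K) (m : Fin 3) (h : dl κ ≠ -1) : Tr a (.B κ, m, .none) (.R κ, m, .none)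
  | BScell (κ : K) (h : Rg) (m : Fin 3) (d : Fin 5) (c : Fin 3) :
      Tr a (.BS κ h, m, .cell d c) (.BS κ (.cell d c), m, h)
  | BSnone (κ : K) (h : Rg) (m : Fin 3) : Tr a (.BS κ h, m, .none) (.B' κ, m, h)
  | B'none (κ : K) (m : Fin 3) (h : dl κ = -1) : Tr a (.B' κ, m, .none) (.R κ, m, .none)
  | Rcell2 (κ : K) (m : Fin 3) (d : Fin 5) : Tr a (.R κ, m, .cell d 2) (.R κ, m, .cell d 0)
  | Rcell1 (κ : K) (m : Fin 3) (d : Fin 5) : Tr a (.R κ, m, .cell d 1) (.L κ, m, .cell d 2)
  | Rcell0 (κ : K) (m : Fin 3) (d : Fin 5) : Tr a (.R κ, m, .cell d 0) (.L κ, m, .cell d 1)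

/-- A configuration: markers, rig layer, position and state of the head. -/
@[ext] structure Cfg where
  M : ℤ → Fin 3
  R : ℤ → Rg
  p : ℤ
  q : Q

/-- One step. -/
def Step (c c' : Cfg) : Prop :=
  ∃ q' m' x', Tr (typ c.p) (c.q, c.M c.p, c.R c.p) (q', m', x') ∧
    c' = ⟨Function.update c.M c.p m', Function.update c.R c.p x', c.p + dir q', q'⟩

/-- Display configurations: state `V` on a blank cell of the rig layer. -/
def Dsp (c : Cfg) : Prop := ∃ D e, c.q = .V D e ∧ c.R c.p = .none

/-- `Run k c c'`: `k` steps lead from `c` to `c'`, and none of the first `k` configurations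
(that is `c` and all intermediate ones, but perhaps not `c'`) is a display configuration. -/
inductive Run : ℕ → Cfg → Cfg → Prop where
  | refl (c : Cfg) : Run 0 c c
  | head {k : ℕ} {c c' c'' : Cfg} (hd : ¬ Dsp c) (hs : Step c c') (hr : Run k c' c'') :
      Run (k + 1) c c''

theorem Run.trans {k l : ℕ} {c c' c'' : Cfg} (h : Run k c c') (h' : Run l c' c'') :
    Run (k + l) c c'' := by
  induction h with
  | refl c => simpa using h'
  | head hd hs hr ih =>
    have := Run.head hd hs (ih h')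
    rwa [show ∀ a b : ℕ, a + 1 + b = a + b + 1 from fun a b => by ring]

/-- The rig layer with the word `ws` on the cells `l+1, ..., l+ws.length` (and blank elsewhere). -/
def lay : ℤ → List (Fin 5 × Fin 3) → ℤ → Rg
  | _, [] => fun _ => .none
  | l, g :: ws => Function.update (lay (l + 1) ws) (l + 1) (.cell g.1 g.2)

/-- digits with zero counters -/
def zr (us : List (Fin 5)) : List (Fin 5 × Fin 3) := us.map (fun d => (d, 0))

/-- The rig with zero counters and digits `us`, ending at the cell `e - 1`. -/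
def rig (e : ℤ) (us : List (Fin 5)) : ℤ → Rg := lay (e - 1 - us.length) (zr us)

/-- duration of a move: `tt n j` -/
def tt (n : ℕ) : ℕ → ℕ
  | 0 => 2 * n + 4
  | j + 1 => 3 * tt n j + 2 * (j + 1) + 1

/-- cost of stage `n` -/
def cost (n : ℕ) : ℕ := 4 * (n + 1 + tt n n) + (2 * n + 4)

/-- display times -/
def PP : ℕ → ℕ
  | 0 => 0
  | n + 1 => PP n + cost n

/-- The display configuration of level `n`, edge `k`, orientation `e`, lower digits `us`. -/
def Disp (n : ℕ) (k : ℤ) (e : Bool) (us : List (Fin 5)) : Cfg :=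
  ⟨W n k, rig (3 ^ n * X (if e then k + 1 else k)) us, 3 ^ n * X (if e then k + 1 else k),
    .V (D k) e⟩

end Pool.Agent.Lib.H43Dist
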