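import Pool.Agent.Lib.H43Dist.Machine

/-!
# CHUNK E: micro level: moving the rig

`shift_run`: one sweep moves the rig by `dl κ ∈ {-1, 0, 1}`.
`carry_run`: (induction on `us.length`, with `tt n (j+1) = 3 * tt n j + 2 * (j+1) + 1`).
-/

set_option autoImplicit false

namespace Pool.Agent.Lib.H43Dist

namespace Micro

/-- A layer with a word put on the cells `l+1, ...`. -/
def put (S : ℤ → Rg) : ℤ → List (Fin 5 × Fin 3) → ℤ → Rg
  | _, [] => S
  | l, g :: ws => Function.update (put S (l + 1) ws) (l + 1) (.cell g.1 g.2)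

theorem lay_eq (l : ℤ) (ws : List (Fin 5 × Fin 3)) : lay l ws = put (fun _ => .none) l ws := by
  induction ws generalizing l with
  | nil => rfl
  | cons g ws ih => simp only [lay, put, ih]

theorem put_low (S : ℤ → Rg) (q : ℤ) (y : Rg) (ws : List (Fin 5 × Fin 3)) (l : ℤ) (h : q ≤ l) :
    put (Function.update S q y) l ws = Function.update (put S l ws) q y := by
  induction ws generalizing l with
  | nil => rfl
  | cons g ws ih =>
    simp only [put]
    rw [ih (l + 1) (by omega), Function.update_comm (by omega)]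

theorem put_high (S : ℤ → Rg) (q : ℤ) (y : Rg) (ws : List (Fin 5 × Fin 3)) (l : ℤ)
    (h : l + ws.length < q) :
    put (Function.update S q y) l ws = Function.update (put S l ws) q y := by
  induction ws generalizing l with
  | nil => rfl
  | cons g ws ih =>
    simp only [put]
    simp only [List.length_cons, Nat.cast_add, Nat.cast_one] at h
    rw [ih (l + 1) (by omega), Function.update_comm (by omega)]

theorem put_append (S : ℤ → Rg) (g : Fin 5 × Fin 3) (ws : List (Fin 5 × Fin 3)) (l : ℤ) :
    put S l (ws ++ [g]) = put (Function.update S (l + ws.length + 1) (.cell g.1 g.2)) l ws := by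
  induction ws generalizing l with
  | nil => simp [put]
  | cons g' ws ih =>
    simp only [List.cons_append, put, List.length_cons, Nat.cast_add, Nat.cast_one]
    rw [ih (l + 1)]
    congr 2
    congr 1
    ring

theorem put_le (S : ℤ → Rg) (q : ℤ) (ws : List (Fin 5 × Fin 3)) (l : ℤ) (h : q ≤ l) :
    put S l ws q = S q := by
  induction ws generalizing l with
  | nil => rfl
  | cons g ws ih =>
    simp only [put]
    rw [Function.update_of_ne (by omega), ih (l + 1) (by omega)]

theorem put_gt (S : ℤ → Rg) (q : ℤ) (ws : List (Fin 5 × Fin 3)) (l : ℤ)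
    (h : l + ws.length < q) : put S l ws q = S q := by
  induction ws generalizing l with
  | nil => rfl
  | cons g ws ih =>
    simp only [put]
    simp only [List.length_cons, Nat.cast_add, Nat.cast_one] at h
    rw [Function.update_of_ne (by omega), ih (l + 1) (by omega)]

theorem lay_le (q : ℤ) (ws : List (Fin 5 × Fin 3)) (l : ℤ) (h : q ≤ l) :
    lay l ws q = .none := by
  rw [lay_eq, put_le _ _ _ _ h]

theorem lay_gt (q : ℤ) (ws : List (Fin 5 × Fin 3)) (l : ℤ)
    (h : l + ws.length < q) : lay l ws q = .none := by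
  rw [lay_eq, put_gt _ _ _ _ h]

theorem lay_get (xs ys : List (Fin 5 × Fin 3)) (g : Fin 5 × Fin 3) (l : ℤ) :
    lay l (xs ++ g :: ys) (l + 1 + xs.length) = .cell g.1 g.2 := by
  induction xs generalizing l with
  | nil => simp [lay]
  | cons g' xs ih =>
    simp only [List.cons_append, lay, List.length_cons, Nat.cast_add, Nat.cast_one]
    rw [Function.update_of_ne (by omega)]
    have := ih (l + 1)
    rwa [show l + 1 + (xs.length + 1 : ℤ) = l + 1 + 1 + xs.length by ring]

theorem lay_set (xs ys : List (Fin 5 × Fin 3)) (g g' : Fin 5 × Fin 3) (l : ℤ) :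
    Function.update (lay l (xs ++ g :: ys)) (l + 1 + xs.length) (.cell g'.1 g'.2)
      = lay l (xs ++ g' :: ys) := by
  induction xs generalizing l with
  | nil => simp [lay]
  | cons g'' xs ih =>
    simp only [List.cons_append, lay, List.length_cons, Nat.cast_add, Nat.cast_one]
    rw [Function.update_comm (by omega), ← ih (l + 1)]
    rw [show l + 1 + (xs.length + 1 : ℤ) = l + 1 + 1 + xs.length by ring]

/-- cells of the word are cells of the layer -/
theorem lay_cell (ws : List (Fin 5 × Fin 3)) (l : ℤ) (i : ℕ) (hi : i < ws.length) :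
    lay l ws (l + 1 + i) = .cell (ws[i]).1 (ws[i]).2 := by
  have h : ws = ws.take i ++ ws[i] :: ws.drop (i + 1) := by
    rw [List.getElem_cons_drop, List.take_append_drop]
  have h2 := lay_get (ws.take i) (ws.drop (i + 1)) ws[i] l
  rw [← h] at h2
  rw [List.length_take, min_eq_left hi.le] at h2
  exact h2

theorem zr_snd (us : List (Fin 5)) (i : ℕ) (h : i < (zr us).length) : ((zr us)[i]).2 = 0 := by
  simp [zr]

theorem dl_cases (κ : K) : dl κ = 1 ∨ dl κ = 0 ∨ dl κ = -1 := by
  revert κ
  decide

/-- One step as a run, with the effect given explicitly. -/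
theorem one {M : ℤ → Fin 3} {R : ℤ → Rg} {p : ℤ} {q q' : Q} {x' : Rg} {M' : ℤ → Fin 3}
    {R' : ℤ → Rg} {p' : ℤ}
    (hd : ¬ Dsp ⟨M, R, p, q⟩)
    (h : Tr (typ p) (q, M p, R p) (q', M p, x'))
    (hM : M' = M) (hR : R' = Function.update R p x') (hp : p' = p + dir q') :
    Run 1 ⟨M, R, p, q⟩ ⟨M', R', p', q'⟩ := by
  rw [hM, hR, hp]
  refine Run.head hd ⟨q', M p, x', h, ?_⟩ (Run.refl _)
  simp only [Function.update_eq_self]

/-- Passing over cells to the left or to the right without changing anything. -/
theorem pass (q : Q) (hq : ∀ (M : ℤ → Fin 3) (R : ℤ → Rg) (p : ℤ) (d : Fin 5) (c : Fin 3),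
      R p = .cell d c → ¬ Dsp ⟨M, R, p, q⟩)
    (P : Fin 3 → Prop)
    (hT : ∀ a m d c, P c → Tr a (q, m, .cell d c) (q, m, .cell d c))
    (M : ℤ → Fin 3) (R : ℤ → Rg) (n : ℕ) (p : ℤ)
    (h : ∀ i : ℕ, i < n → ∃ d c, P c ∧ R (p + dir q * i) = .cell d c) :
    Run n ⟨M, R, p, q⟩ ⟨M, R, p + dir q * n, q⟩ := by
  induction n generalizing p with
  | zero => simpa using Run.refl _
  | succ n ih =>
    obtain ⟨d, c, hc, h0⟩ := h 0 (Nat.succ_pos n)
    simp only [Nat.cast_zero, mul_zero, add_zero] at h0
    have h1 : Run 1 ⟨M, R, p, q⟩ ⟨M, R, p + dir q, q⟩ := by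
      refine one (x' := .cell d c) (hq M R p d c h0) ?_ rfl ?_ rfl
      · rw [h0]; exact hT _ _ _ _ hc
      · rw [← h0, Function.update_eq_self]
    have h2 := ih (p + dir q) (fun i hi => by
      obtain ⟨d, c, hc, h0⟩ := h (i + 1) (by omega)
      refine ⟨d, c, hc, ?_⟩
      rw [← h0]
      congr 1
      push_cast
      ring)
    have h3 := h1.trans h2
    rw [show p + dir q * ((n + 1 : ℕ) : ℤ) = p + dir q + dir q * n by push_cast; ring,
      show n + 1 = 1 + n by ring]
    exact h3

/-- The sweep to the right with holding. -/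
theorem PS_run (M : ℤ → Fin 3) (κ : K) (ws : List (Fin 5 × Fin 3)) (p : ℤ) (h : Rg)
    (S : ℤ → Rg) (hS : S (p + ws.length) = .none) :
    Run (ws.length + 1) ⟨M, put S (p - 1) ws, p, .PS κ h⟩
      ⟨M, Function.update (put S p ws) p h, p + ws.length + 1, .P' κ⟩ := by
  induction ws generalizing p h S with
  | nil =>
    simp only [List.length_nil, Nat.cast_zero, add_zero, zero_add] at hS ⊢
    simp only [put]
    refine one (x' := h) (by rintro ⟨D, e, h1, h2⟩; cases h1) ?_ rfl rfl rfl
    rw [hS]
    exact Tr.PSnone _ _ _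
  | cons g ws ih =>
    simp only [List.length_cons, Nat.cast_add, Nat.cast_one] at hS ⊢
    have h1 : Run 1 ⟨M, put S (p - 1) (g :: ws), p, .PS κ h⟩
        ⟨M, put (Function.update S p h) (p + 1 - 1) ws, p + 1, .PS κ (.cell g.1 g.2)⟩ := by
      refine one (x' := h) (by rintro ⟨D, e, h1, h2⟩; cases h1) ?_ rfl ?_ rfl
      · simp only [put, sub_add_cancel, Function.update_self]
        exact Tr.PScell _ _ _ _ _
      · simp only [put, sub_add_cancel, add_sub_cancel_right]
        rw [Function.update_idem, put_low _ _ _ _ _ le_rfl]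
    have h2 := ih (p + 1) (.cell g.1 g.2) (Function.update S p h) (by
      rw [Function.update_of_ne (by omega), ← hS]
      congr 1
      ring)
    have h3 := h1.trans h2
    rw [show ws.length + 1 + 1 = 1 + (ws.length + 1) by ring]
    convert h3 using 2
    · simp only [put]
      rw [put_low _ _ _ _ _ (by omega), Function.update_comm (by omega)]
    · ring

/-- The sweep to the left with holding. -/
theorem BS_run (M : ℤ → Fin 3) (κ : K) (ws : List (Fin 5 × Fin 3)) (l : ℤ) (h : Rg)
    (S : ℤ → Rg) (hS : S l = .none) :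
    Run (ws.length + 1) ⟨M, put S l ws, l + ws.length, .BS κ h⟩
      ⟨M, put (Function.update S (l + ws.length) h) (l - 1) ws, l - 1, .B' κ⟩ := by
  induction ws using List.reverseRecOn generalizing h S with
  | nil =>
    simp only [List.length_nil, Nat.cast_zero, add_zero, zero_add]
    simp only [put]
    refine one (x' := h) (by rintro ⟨D, e, h1, h2⟩; cases h1) ?_ rfl rfl rfl
    rw [hS]
    exact Tr.BSnone _ _ _
  | append_singleton ws g ih =>
    simp only [List.length_append, List.length_singleton, Nat.cast_add, Nat.cast_one]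
    have h1 : Run 1 ⟨M, put S l (ws ++ [g]), l + (ws.length + 1), .BS κ h⟩
        ⟨M, put (Function.update S (l + ws.length + 1) h) l ws, l + ws.length,
          .BS κ (.cell g.1 g.2)⟩ := by
      refine one (x' := h) (by rintro ⟨D, e, h1, h2⟩; cases h1) ?_ rfl ?_ ?_
      · rw [put_append, put_high _ _ _ _ _ (by omega),
          show l + (ws.length + 1 : ℤ) = l + ws.length + 1 by ring, Function.update_self]
        exact Tr.BScell _ _ _ _ _
      · rw [put_append, put_high _ _ _ _ _ (by omega), put_high _ _ _ _ _ (by omega),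
          show l + (ws.length + 1 : ℤ) = l + ws.length + 1 by ring, Function.update_idem]
      · simp only [dir]; ring
    have h2 := ih (.cell g.1 g.2) (Function.update S (l + ws.length + 1) h) (by
      rw [Function.update_of_ne (by omega), hS])
    have h3 := h1.trans h2
    rw [show ws.length + 1 + 1 = 1 + (ws.length + 1) by ring]
    convert h3 using 2
    rw [put_append]
    congr 2
    · rw [add_assoc]
    · rw [show l - 1 + (ws.length : ℤ) + 1 = l + ws.length by ring]

end Micro

open Micro

/-- One sweep over a rig with arbitrary digits and counters. -/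
theorem shift_run (M : ℤ → Fin 3) (l : ℤ) (ws : List (Fin 5 × Fin 3)) (κ : K) :
    Run (2 * ws.length + 4) ⟨M, lay l ws, l, .L κ⟩
      ⟨M, lay (l + dl κ) ws, l + dl κ + 1, .R κ⟩ := by
  have nd : ∀ (M : ℤ → Fin 3) (R : ℤ → Rg) (p : ℤ) (q : Q), (∀ D e, q ≠ .V D e) →
      ¬ Dsp ⟨M, R, p, q⟩ := by
    rintro M R p q hq ⟨D, e, h1, h2⟩
    exact hq D e h1
  -- passing to the right with `P`
  have passP : ∀ l' : ℤ, Run ws.length ⟨M, lay l' ws, l' + 1, .P κ⟩
      ⟨M, lay l' ws, l' + 1 + ws.length, .P κ⟩ := by
    intro l'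
    have := pass (.P κ) (fun M R p d c _ => nd _ _ _ _ (by intro D e h; cases h))
      (fun _ => True) (fun a m d c _ => Tr.Pcell κ m d c) M (lay l' ws) ws.length (l' + 1)
      (fun i hi => ⟨_, _, trivial, by
        simp only [dir, one_mul]
        exact lay_cell ws l' i hi⟩)
    simpa [dir] using this
  -- passing to the left with `B`
  have passB : ∀ l' : ℤ, Run ws.length ⟨M, lay l' ws, l' + ws.length, .B κ⟩
      ⟨M, lay l' ws, l', .B κ⟩ := by
    intro l'
    have := pass (.B κ) (fun M R p d c _ => nd _ _ _ _ (by intro D e h; cases h))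
      (fun _ => True) (fun a m d c _ => Tr.Bcell κ m d c) M (lay l' ws) ws.length
      (l' + ws.length)
      (fun i hi => ⟨_, _, trivial, by
        have := lay_cell ws l' (ws.length - 1 - i) (by omega)
        rw [show l' + 1 + ((ws.length - 1 - i : ℕ) : ℤ) = l' + ws.length + dir (.B κ) * i by
          simp only [dir]; omega] at this
        exact this⟩)
    simpa [dir] using this
  rcases dl_cases κ with h | h | h
  · -- to the right
    rw [h]
    have s1 : Run 1 ⟨M, lay l ws, l, .L κ⟩ ⟨M, put (fun _ => .none) (l + 1 - 1) ws, l + 1,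
        .PS κ .none⟩ := by
      refine one (x' := .none) (nd _ _ _ _ (by intro D e h; cases h)) ?_ rfl ?_ rfl
      · rw [lay_le l ws l le_rfl]; exact Tr.Lnone1 _ _ h
      · rw [add_sub_cancel_right, ← lay_eq]
        conv_rhs => rw [← lay_le l ws l le_rfl, Function.update_eq_self]
    have s2 := PS_run M κ ws (l + 1) .none (fun _ => .none) rfl
    rw [show Function.update (put (fun _ => .none) (l + 1) ws) (l + 1) Rg.none
        = lay (l + 1) ws by
      rw [← lay_eq]
      conv_lhs => rw [← lay_le (l + 1) ws (l + 1) le_rfl, Function.update_eq_self]] at s2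
    have s3 : Run 1 ⟨M, lay (l + 1) ws, l + 1 + ws.length + 1, .P' κ⟩
        ⟨M, lay (l + 1) ws, l + 1 + ws.length, .B κ⟩ := by
      refine one (x' := .none) (nd _ _ _ _ (by intro D e h; cases h)) ?_ rfl ?_ ?_
      · rw [lay_gt _ ws (l + 1) (by omega)]; exact Tr.P'none _ _ h
      · conv_rhs => rw [← lay_gt (l + 1 + ws.length + 1) ws (l + 1) (by omega),
          Function.update_eq_self]
      · simp [dir]
    have s4 := passB (l + 1)
    have s5 : Run 1 ⟨M, lay (l + 1) ws, l + 1, .B κ⟩
        ⟨M, lay (l + 1) ws, l + 1 + 1, .R κ⟩ := by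
      refine one (x' := .none) (nd _ _ _ _ (by intro D e h; cases h)) ?_ rfl ?_ ?_
      · rw [lay_le _ ws (l + 1) le_rfl]; exact Tr.Bnone _ _ (by omega)
      · conv_rhs => rw [← lay_le (l + 1) ws (l + 1) le_rfl, Function.update_eq_self]
      · simp [dir]
    have := (((s1.trans s2).trans s3).trans s4).trans s5
    rwa [show 1 + (ws.length + 1) + 1 + ws.length + 1 = 2 * ws.length + 4 by ring] at this
  · -- on the spot
    rw [h, add_zero]
    have s1 : Run 1 ⟨M, lay l ws, l, .L κ⟩ ⟨M, lay l ws, l + 1, .P κ⟩ := by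
      refine one (x' := .none) (nd _ _ _ _ (by intro D e h; cases h)) ?_ rfl ?_ rfl
      · rw [lay_le l ws l le_rfl]; exact Tr.Lnone0 _ _ (by omega)
      · conv_rhs => rw [← lay_le l ws l le_rfl, Function.update_eq_self]
    have s2 := passP l
    have s3 : Run 1 ⟨M, lay l ws, l + 1 + ws.length, .P κ⟩
        ⟨M, lay l ws, l + 1 + ws.length, .W κ⟩ := by
      refine one (x' := .none) (nd _ _ _ _ (by intro D e h; cases h)) ?_ rfl ?_ ?_
      · rw [lay_gt _ ws l (by omega)]; exact Tr.Pnone0 _ _ h
      · conv_rhs => rw [← lay_gt (l + 1 + ws.length) ws l (by omega), Function.update_eq_self]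
      · simp [dir]
    have s4 : Run 1 ⟨M, lay l ws, l + 1 + ws.length, .W κ⟩
        ⟨M, lay l ws, l + ws.length, .B κ⟩ := by
      refine one (x' := .none) (nd _ _ _ _ (by intro D e h; cases h)) ?_ rfl ?_ ?_
      · rw [lay_gt _ ws l (by omega)]; exact Tr.Wnone _ _ h
      · conv_rhs => rw [← lay_gt (l + 1 + ws.length) ws l (by omega), Function.update_eq_self]
      · simp only [dir]; ring
    have s5 := passB l
    have s6 : Run 1 ⟨M, lay l ws, l, .B κ⟩ ⟨M, lay l ws, l + 1, .R κ⟩ := by
      refine one (x' := .none) (nd _ _ _ _ (by intro D e h; cases h)) ?_ rfl ?_ ?_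
      · rw [lay_le l ws l le_rfl]; exact Tr.Bnone _ _ (by omega)
      · conv_rhs => rw [← lay_le l ws l le_rfl, Function.update_eq_self]
      · simp [dir]
    have := ((((s1.trans s2).trans s3).trans s4).trans s5).trans s6
    rwa [show 1 + ws.length + 1 + 1 + ws.length + 1 = 2 * ws.length + 4 by ring] at this
  · -- to the left
    rw [h]
    have s1 : Run 1 ⟨M, lay l ws, l, .L κ⟩ ⟨M, lay l ws, l + 1, .P κ⟩ := by
      refine one (x' := .none) (nd _ _ _ _ (by intro D e h; cases h)) ?_ rfl ?_ rfl
      · rw [lay_le l ws l le_rfl]; exact Tr.Lnone0 _ _ (by omega)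
      · conv_rhs => rw [← lay_le l ws l le_rfl, Function.update_eq_self]
    have s2 := passP l
    have s3 : Run 1 ⟨M, lay l ws, l + 1 + ws.length, .P κ⟩
        ⟨M, put (fun _ => .none) l ws, l + ws.length, .BS κ .none⟩ := by
      refine one (x' := .none) (nd _ _ _ _ (by intro D e h; cases h)) ?_ rfl ?_ ?_
      · rw [lay_gt _ ws l (by omega)]; exact Tr.PnoneM _ _ h
      · rw [← lay_eq]
        conv_rhs => rw [← lay_gt (l + 1 + ws.length) ws l (by omega), Function.update_eq_self]
      · simp only [dir]; ring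
    have s4 := BS_run M κ ws l .none (fun _ => .none) rfl
    rw [show Function.update (fun _ : ℤ => Rg.none) (l + ws.length) Rg.none = fun _ => Rg.none from
      Function.update_eq_self (l + ws.length : ℤ) (fun _ : ℤ => Rg.none),
      ← lay_eq (l - 1)] at s4
    have s5 : Run 1 ⟨M, lay (l - 1) ws, l - 1, .B' κ⟩
        ⟨M, lay (l - 1) ws, l - 1 + 1, .R κ⟩ := by
      refine one (x' := .none) (nd _ _ _ _ (by intro D e h; cases h)) ?_ rfl ?_ ?_
      · rw [lay_le _ ws (l - 1) le_rfl]; exact Tr.B'none _ _ h
      · conv_rhs => rw [← lay_le (l - 1) ws (l - 1) le_rfl, Function.update_eq_self]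
      · simp [dir]
    have := ((((s1.trans s2).trans s3).trans s4)).trans s5
    rwa [show 1 + ws.length + 1 + (ws.length + 1) + 1 = 2 * ws.length + 4 by ring] at this

/-- The first `us.length` counters run from `0` to overflow: the rig has moved by
`dl κ * 3 ^ us.length` and the head arrives, in state `R κ`, at the cell after them. -/
theorem carry_run (M : ℤ → Fin 3) (κ : K) (us : List (Fin 5)) (ws : List (Fin 5 × Fin 3)) (l : ℤ) :
    Run (tt (us.length + ws.length) us.length) ⟨M, lay l (zr us ++ ws), l, .L κ⟩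
      ⟨M, lay (l + dl κ * 3 ^ us.length) (zr us ++ ws),
        l + dl κ * 3 ^ us.length + 1 + us.length, .R κ⟩ := by
  have nd : ∀ (M : ℤ → Fin 3) (R : ℤ → Rg) (p : ℤ) (q : Q), (∀ D e, q ≠ .V D e) →
      ¬ Dsp ⟨M, R, p, q⟩ := by
    rintro M R p q hq ⟨D, e, h1, h2⟩
    exact hq D e h1
  induction us using List.reverseRecOn generalizing ws l with
  | nil =>
    have := shift_run M l ws κ
    simpa [tt, zr] using this
  | append_singleton us d ih =>
    have hz : zr (us ++ [d]) ++ ws = zr us ++ (d, 0) :: ws := by simp [zr]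
    have hzl : (zr us).length = us.length := by simp [zr]
    rw [hz]
    -- passing to the left with `L`
    have passL : ∀ (l' : ℤ) (ws' : List (Fin 5 × Fin 3)),
        Run us.length ⟨M, lay l' (zr us ++ ws'), l' + us.length, .L κ⟩
          ⟨M, lay l' (zr us ++ ws'), l', .L κ⟩ := by
      intro l' ws'
      have := pass (.L κ) (fun M R p d c _ => nd _ _ _ _ (by intro D e h; cases h))
        (fun c => c = 0) (fun a m d c hc => by subst hc; exact Tr.Lcell κ m d) M
        (lay l' (zr us ++ ws')) us.length (l' + us.length)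
        (fun i hi => by
          have hlen : us.length - 1 - i < (zr us ++ ws').length := by
            rw [List.length_append, hzl]; omega
          have h1 := lay_cell (zr us ++ ws') l' (us.length - 1 - i) hlen
          rw [show l' + 1 + ((us.length - 1 - i : ℕ) : ℤ) = l' + us.length + dir (.L κ) * i by
            simp only [dir]; omega] at h1
          refine ⟨_, _, ?_, h1⟩
          rw [List.getElem_append_left (by rw [hzl]; omega)]
          simp [zr])
      simpa [dir] using this
    -- one increment
    have incr : ∀ (l' : ℤ) (c c' : Fin 3),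
        (∀ a m, Tr a (.R κ, m, .cell d c) (.L κ, m, .cell d c')) →
        Run (1 + us.length) ⟨M, lay l' (zr us ++ (d, c) :: ws), l' + 1 + us.length, .R κ⟩
          ⟨M, lay l' (zr us ++ (d, c') :: ws), l', .L κ⟩ := by
      intro l' c c' hT
      have s1 : Run 1 ⟨M, lay l' (zr us ++ (d, c) :: ws), l' + 1 + us.length, .R κ⟩
          ⟨M, lay l' (zr us ++ (d, c') :: ws), l' + us.length, .L κ⟩ := by
        refine one (x' := .cell d c') (nd _ _ _ _ (by intro D e h; cases h)) ?_ rfl ?_ ?_
        · rw [← hzl, lay_get]; exact hT _ _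
        · rw [← hzl]; exact (lay_set (zr us) ws (d, c) (d, c') l').symm
        · simp only [dir]; ring
      exact s1.trans (passL l' _)
    have e1 : ∀ c : Fin 3, us.length + ((d, c) :: ws).length = (us ++ [d]).length + ws.length := by
      intro c; simp only [List.length_append, List.length_cons, List.length_nil]; ring
    set s := dl κ * 3 ^ us.length with hs
    have r1 := ih ((d, 0) :: ws) l
    rw [e1] at r1
    have r2 := incr (l + s) 0 1 (fun a m => Tr.Rcell0 κ m d)
    have r3 := ih ((d, 1) :: ws) (l + s)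
    rw [e1] at r3
    have r4 := incr (l + s + s) 1 2 (fun a m => Tr.Rcell1 κ m d)
    have r5 := ih ((d, 2) :: ws) (l + s + s)
    rw [e1] at r5
    have r6 : Run 1 ⟨M, lay (l + s + s + s) (zr us ++ (d, 2) :: ws),
          l + s + s + s + 1 + us.length, .R κ⟩
        ⟨M, lay (l + s + s + s) (zr us ++ (d, 0) :: ws),
          l + s + s + s + 1 + us.length + 1, .R κ⟩ := by
      refine one (x' := .cell d 0) (nd _ _ _ _ (by intro D e h; cases h)) ?_ rfl ?_ ?_
      · rw [← hzl, lay_get]; exact Tr.Rcell2 _ _ _
      · rw [← hzl]; exact (lay_set (zr us) ws (d, 2) (d, 0) _).symm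
      · simp only [dir]
    have r := ((((r1.trans r2).trans r3).trans r4).trans r5).trans r6
    have e2 : l + dl κ * 3 ^ (us ++ [d]).length = l + s + s + s := by
      rw [hs, List.length_append, List.length_singleton, pow_succ]; ring
    rw [e2]
    have e3 : tt ((us ++ [d]).length + ws.length) (us ++ [d]).length
        = tt ((us ++ [d]).length + ws.length) us.length + (1 + us.length)
          + tt ((us ++ [d]).length + ws.length) us.length + (1 + us.length)
          + tt ((us ++ [d]).length + ws.length) us.length + 1 := by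
      conv_lhs => rw [show (us ++ [d]).length = us.length + 1 by simp]
      rw [tt, show (us ++ [d]).length = us.length + 1 by simp]
      ring
    rw [e3, show l + s + s + s + 1 + ((us ++ [d]).length : ℤ)
      = l + s + s + s + 1 + us.length + 1 by simp; ring]
    exact r

/-- A macro move. -/
theorem move_run (M : ℤ → Fin 3) (e : ℤ) (us : List (Fin 5)) (κ : K) :
    Run (us.length + tt us.length us.length) ⟨M, rig e us, e - 1, .L κ⟩
      ⟨M, rig (e + dl κ * 3 ^ us.length) us, e + dl κ * 3 ^ us.length, .R κ⟩ := by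
  have nd : ∀ (M : ℤ → Fin 3) (R : ℤ → Rg) (p : ℤ) (q : Q), (∀ D e, q ≠ .V D e) →
      ¬ Dsp ⟨M, R, p, q⟩ := by
    rintro M R p q hq ⟨D, e, h1, h2⟩
    exact hq D e h1
  have hzl : (zr us).length = us.length := by simp [zr]
  have r1 := pass (.L κ) (fun M R p d c _ => nd _ _ _ _ (by intro D e h; cases h))
    (fun c => c = 0) (fun a m d c hc => by subst hc; exact Tr.Lcell κ m d) M
    (rig e us) us.length (e - 1)
    (fun i hi => by
      have hlen : us.length - 1 - i < (zr us).length := by rw [hzl]; omega
      have h1 := lay_cell (zr us) (e - 1 - us.length) (us.length - 1 - i) hlen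
      rw [show e - 1 - us.length + 1 + ((us.length - 1 - i : ℕ) : ℤ)
        = e - 1 + dir (.L κ) * i by simp only [dir]; omega] at h1
      refine ⟨_, _, ?_, h1⟩
      simp [zr])
  have r2 := carry_run M κ us [] (e - 1 - us.length)
  have r3 : Run us.length ⟨M, rig e us, e - 1, .L κ⟩
      ⟨M, lay (e - 1 - us.length) (zr us ++ []), e - 1 - us.length, .L κ⟩ := by
    rw [List.append_nil]
    have e1 : e - 1 + dir (.L κ) * us.length = e - 1 - us.length := by simp only [dir]; ring
    rw [e1] at r1
    exact r1
  have r := r3.trans r2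
  rw [List.length_nil, add_zero, List.append_nil] at r
  convert r using 2
  · unfold rig
    congr 1
    ring
  · ring

/-- Pushing a digit. -/
theorem push_run (M : ℤ → Fin 3) (e : ℤ) (us : List (Fin 5)) (d : Fin 5) (D₀ e₀ : Bool) :
    Run (2 * us.length + 3) ⟨M, rig e us, e - 1, .T d D₀ e₀⟩
      ⟨M, rig e (d :: us), e, .V D₀ e₀⟩ := by
  have nd : ∀ (M : ℤ → Fin 3) (R : ℤ → Rg) (p : ℤ) (q : Q), (∀ D e, q ≠ .V D e) →
      ¬ Dsp ⟨M, R, p, q⟩ := by
    rintro M R p q hq ⟨D, e, h1, h2⟩
    exact hq D e h1
  have hzl : ∀ us : List (Fin 5), (zr us).length = us.length := by simp [zr]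
  have hrig : rig e (d :: us) = Function.update (rig e us) (e - 1 - us.length) (.cell d 0) := by
    unfold rig
    simp only [zr, List.map_cons, List.length_cons, lay, Nat.cast_add, Nat.cast_one]
    rw [show e - 1 - ((us.length : ℤ) + 1) + 1 = e - 1 - us.length by ring]
  have r1 := pass (.T d D₀ e₀) (fun M R p d c _ => nd _ _ _ _ (by intro D e h; cases h))
    (fun c => c = 0) (fun a m d' c hc => by subst hc; exact Tr.Tcell d D₀ e₀ m d') M
    (rig e us) us.length (e - 1)
    (fun i hi => by
      have hlen : us.length - 1 - i < (zr us).length := by rw [hzl]; omega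
      have h1 := lay_cell (zr us) (e - 1 - us.length) (us.length - 1 - i) hlen
      rw [show e - 1 - us.length + 1 + ((us.length - 1 - i : ℕ) : ℤ)
        = e - 1 + dir (.T d D₀ e₀) * i by simp only [dir]; omega] at h1
      refine ⟨_, _, ?_, h1⟩
      simp [zr])
  have e1 : e - 1 + dir (.T d D₀ e₀) * us.length = e - 1 - us.length := by
    simp only [dir]; ring
  rw [e1] at r1
  have r2 : Run 1 ⟨M, rig e us, e - 1 - us.length, .T d D₀ e₀⟩
      ⟨M, rig e (d :: us), e - 2 - us.length, .T' D₀ e₀⟩ := by
    refine one (x' := .cell d 0) (nd _ _ _ _ (by intro D e h; cases h)) ?_ rfl hrig ?_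
    · rw [rig, lay_le _ _ _ le_rfl]; exact Tr.Tnone _ _ _ _
    · simp only [dir]; ring
  have r3 : Run 1 ⟨M, rig e (d :: us), e - 2 - us.length, .T' D₀ e₀⟩
      ⟨M, rig e (d :: us), e - 1 - us.length, .V D₀ e₀⟩ := by
    have h0 : rig e (d :: us) (e - 2 - us.length) = .none := by
      unfold rig
      exact lay_le _ _ _ (by simp only [List.length_cons, Nat.cast_add, Nat.cast_one]; omega)
    refine one (x' := .none) (nd _ _ _ _ (by intro D e h; cases h)) ?_ rfl ?_ ?_
    · rw [h0]; exact Tr.T'none _ _ _
    · conv_rhs => rw [← h0, Function.update_eq_self]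
    · simp only [dir]; ring
  have r4 := pass (.V D₀ e₀)
    (fun M R p d c hR => by rintro ⟨D, e, _, h2⟩; simp only at h2; rw [hR] at h2; cases h2)
    (fun c => c = 0) (fun a m d' c hc => by subst hc; exact Tr.Vcell D₀ e₀ m d') M
    (rig e (d :: us)) (us.length + 1) (e - 1 - us.length)
    (fun i hi => by
      have hlen : i < (zr (d :: us)).length := by rw [hzl]; simpa using hi
      have h1 := lay_cell (zr (d :: us)) (e - 1 - (d :: us).length) i hlen
      rw [show e - 1 - ((d :: us).length : ℤ) + 1 + i
        = e - 1 - us.length + dir (.V D₀ e₀) * i by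
          simp only [dir, List.length_cons, Nat.cast_add, Nat.cast_one]; ring] at h1
      exact ⟨_, _, zr_snd _ _ _, h1⟩)
  have r := ((r1.trans r2).trans r3).trans r4
  rw [show us.length + 1 + 1 + (us.length + 1) = 2 * us.length + 3 by ring] at r
  convert r using 2
  simp only [dir]
  push_cast
  ring

/-- the rig layer is blank at the end `e` -/
theorem rig_end (e : ℤ) (us : List (Fin 5)) : rig e us e = .none := by
  unfold rig
  exact lay_gt _ _ _ (by simp [zr])

theorem lay_nil (l : ℤ) : lay l [] = fun _ => Rg.none := rfl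

theorem rig_nil (e : ℤ) : rig e [] = fun _ => Rg.none := rfl

end Pool.Agent.Lib.H43Dist
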