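import Pool.Agent.Lib.H43Dist.Walk
import Pool.Agent.Lib.H43Dist.Micro

/-!
# Macro level: the program of one stage
-/

set_option autoImplicit false

namespace Pool.Agent.Lib.H43Dist

/-- end offset of sub-edge `d` -/
def oe (d : Fin 5) : ℤ := ![1, 2, 1, 2, 3] d

theorem not_dsp_R {c : Cfg} {κ : K} (h : c.q = .R κ) : ¬ Dsp c := by
  rintro ⟨D, e, h1, -⟩
  rw [h] at h1
  cases h1

theorem step_mac {M M' : ℤ → Fin 3} {y : ℤ} {us : List (Fin 5)} {s s' : Q} {m' : Fin 3}
    (h : Mac (typ y) s (M y) s' m') (hM : Function.update M y m' = M') (hd : dir s' = -1) :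
    Step ⟨M, rig y us, y, s⟩ ⟨M', rig y us, y - 1, s'⟩ := by
  refine ⟨s', m', .none, ?_, ?_⟩
  · change Tr (typ y) (s, M y, rig y us y) (s', m', Rg.none)
    rw [rig_end]
    exact Tr.mac _ _ _ _ h
  · have h1 : Function.update (rig y us) y Rg.none = rig y us := by
      conv_lhs => rw [← rig_end y us]
      exact Function.update_eq_self _ _
    simp only [h1, hM, hd]
    rfl

section Path

variable {us : List (Fin 5)} {A : Bool} {z : ℤ} {Y : ℤ → ℤ}

theorem hop (hY : ∀ i, Y i = z + sg A * i * 3 ^ us.length) {i : ℤ} (j i' : ℤ) {κ κ' : K}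
    {M M' : ℤ → Fin 3} {m' : Fin 3} (h : Mac (typ (Y i)) (.R κ) (M (Y i)) (.L κ') m')
    (hj : dl κ' = sg A * j) (hi : i' = i + j) (hM : Function.update M (Y i) m' = M') :
    Run (us.length + tt us.length us.length + 1) ⟨M, rig (Y i) us, Y i, .R κ⟩
      ⟨M', rig (Y i') us, Y i', .R κ'⟩ := by
  refine Run.head (not_dsp_R rfl) (step_mac h hM rfl) ?_
  have h1 := move_run M' (Y i) us κ'
  have h2 : Y i + dl κ' * 3 ^ us.length = Y i' := by
    rw [hj, hY, hY, hi]
    ring
  rwa [h2] at h1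

theorem hop0 (hY : ∀ i, Y i = z + sg A * i * 3 ^ us.length) {i : ℤ} (j i' : ℤ) {κ' : K}
    {M : ℤ → Fin 3} (hj : dl κ' = sg A * j) (hi : i' = i + j) :
    Run (us.length + tt us.length us.length) ⟨M, rig (Y i) us, Y i - 1, .L κ'⟩
      ⟨M, rig (Y i') us, Y i', .R κ'⟩ := by
  have h1 := move_run M (Y i) us κ'
  have h2 : Y i + dl κ' * 3 ^ us.length = Y i' := by
    rw [hj, hY, hY, hi]
    ring
  rwa [h2] at h1

theorem last (M : ℤ → Fin 3) (y : ℤ) (us : List (Fin 5)) (A e : Bool) (d : Fin 5) :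
    Run (2 * us.length + 3 + 1) ⟨M, rig y us, y, .R (.k4 A e d)⟩
      ⟨M, rig y ((if e then d else 4 - d) :: us), y, .V ((A == sub d) == e) e⟩ := by
  refine Run.head (not_dsp_R rfl) (step_mac (Mac.k4 A e d (M y))
    (Function.update_eq_self _ _) rfl) ?_
  exact push_run M y us _ _ _

theorem cost_eq (n : ℕ) : cost n - 1 =
    (n + tt n n) + (n + tt n n + 1) + (n + tt n n + 1) + (n + tt n n + 1) + (2 * n + 3 + 1) := by
  unfold cost
  omega

theorem hat_hat (A : Bool) (a : Fin 3) : hat A (hat A a) = a := by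
  revert A a
  decide

theorem hat_not (A : Bool) (a : Fin 3) : hat (!A) a = sw (hat A a) := by
  revert A a
  decide

theorem hat_zero {e : Bool} {m : Fin 3} (h : hat e m = 0) : m = 0 := by
  revert e m
  decide

theorem sg_not (A : Bool) : sg (!A) = - sg A := by
  cases A <;> rfl

theorem upd_zero {M : ℤ → Fin 3} {y : ℤ} (h : M y = 0) : Function.update M y 0 = M := by
  conv_lhs => rw [← h]
  exact Function.update_eq_self _ _

theorem path0 (e : Bool) (M : ℤ → Fin 3) (hY : ∀ i, Y i = z + sg A * i * 3 ^ us.length)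
    (h1 : hat A (typ (Y 1)) = 1) (h2 : hat A (typ (Y 2)) = 2) :
    Run (cost us.length - 1)
      ⟨M, rig (Y 1) us, Y 1 - 1, .L (.k1 A e (look (hat A (typ (Y 1)))))⟩
      ⟨M, rig (Y 3) ((if e then 0 else 4) :: us), Y 3, .V (A == e) e⟩ := by
  rw [cost_eq, h1]
  have r1 := hop0 (M := M) (κ' := .k1 A e (look 1)) hY (i := 1) 1 2 (by simp [dl, look, lk]) rfl
  have r2 := hop (M := M) (M' := M) hY (i := 2) (κ := .k1 A e (look 1)) (-1) 1
    (Mac.ahead2 A e _ h2) (by simp [dl]) rfl (Function.update_eq_self _ _)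
  have r3 := hop (M := M) (M' := M) hY (i := 1) (κ := .one A e) 1 2
    (Mac.one A e _) (by simp [dl]) rfl (Function.update_eq_self _ _)
  have r4 := hop (M := M) (M' := M) hY (i := 2) (κ := .k3 A e 0) 1 3
    (Mac.k3 A e 0 _) (by simp [dl]) rfl (Function.update_eq_self _ _)
  have r5 := last M (Y 3) us A e 0
  have h5 : (A == sub 0) = A := by cases A <;> rfl
  rw [h5] at r5
  exact (((r1.trans r2).trans r3).trans r4).trans r5

theorem path1 (e : Bool) (M : ℤ → Fin 3) (hY : ∀ i, Y i = z + sg A * i * 3 ^ us.length)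
    (h1 : hat A (typ (Y 1)) = 1) (h2 : hat A (typ (Y 2)) = 2) (h12 : Y 1 ≠ Y 2)
    (m1 : hat e (M (Y 1)) = 1) (m2 : hat e (M (Y 2)) = 0) :
    Run (cost us.length - 1)
      ⟨M, rig (Y 2) us, Y 2 - 1, .L (.k1 A e (look (hat A (typ (Y 2)))))⟩
      ⟨Function.update (Function.update M (Y 1) 0) (Y 2) 0,
        rig (Y 3) ((if e then 1 else 4 - 1) :: us), Y 3, .V (A == e) e⟩ := by
  rw [cost_eq, h2]
  have r1 := hop0 (M := M) (κ' := .k1 A e (look 2)) hY (i := 2) (-1) 1
    (by simp [dl, look, lk]) rfl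
  have r2 := hop (M := M) (M' := Function.update M (Y 1) 0) hY (i := 1)
    (κ := .k1 A e (look 2)) 1 2 (Mac.behind1 A e _ h1) (by simp [dl]) rfl rfl
  rw [m1] at r2
  have m2' : hat e (Function.update M (Y 1) 0 (Y 2)) = 0 := by
    rw [Function.update_of_ne h12.symm, m2]
  have r3 := hop (M := Function.update M (Y 1) 0)
    (M' := Function.update (Function.update M (Y 1) 0) (Y 2) 0) hY (i := 2) (κ := .two A e 1) 1 3
    (Mac.two1 A e _ m2') (by simp [dl]) rfl rfl
  have r4 := hop (M := Function.update (Function.update M (Y 1) 0) (Y 2) 0)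
    (M' := Function.update (Function.update M (Y 1) 0) (Y 2) 0) hY (i := 3) (κ := .k3 A e 1) 0 3
    (Mac.k3 A e 1 _) (by simp [dl]) rfl (Function.update_eq_self _ _)
  have r5 := last (Function.update (Function.update M (Y 1) 0) (Y 2) 0) (Y 3) us A e 1
  have h5 : (A == sub 1) = A := by cases A <;> rfl
  rw [h5] at r5
  exact (((r1.trans r2).trans r3).trans r4).trans r5

theorem path3 (e : Bool) (M : ℤ → Fin 3) (hY : ∀ i, Y i = z + sg A * i * 3 ^ us.length)
    (h1 : hat A (typ (Y 1)) = 1) (h2 : hat A (typ (Y 2)) = 2) (h12 : Y 1 ≠ Y 2)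
    (m1 : hat e (M (Y 1)) = 0) (m2 : hat e (M (Y 2)) = 2) :
    Run (cost us.length - 1)
      ⟨M, rig (Y 2) us, Y 2 - 1, .L (.k1 A e (look (hat A (typ (Y 2)))))⟩
      ⟨Function.update (Function.update M (Y 1) 0) (Y 2) 0,
        rig (Y 3) ((if e then 3 else 4 - 3) :: us), Y 3, .V (A == e) e⟩ := by
  rw [cost_eq, h2]
  have r1 := hop0 (M := M) (κ' := .k1 A e (look 2)) hY (i := 2) (-1) 1
    (by simp [dl, look, lk]) rfl
  have r2 := hop (M := M) (M' := Function.update M (Y 1) 0) hY (i := 1)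
    (κ := .k1 A e (look 2)) 1 2 (Mac.behind1 A e _ h1) (by simp [dl]) rfl rfl
  rw [m1] at r2
  have m2' : hat e (Function.update M (Y 1) 0 (Y 2)) = 2 := by
    rw [Function.update_of_ne h12.symm, m2]
  have r3 := hop (M := Function.update M (Y 1) 0)
    (M' := Function.update (Function.update M (Y 1) 0) (Y 2) 0) hY (i := 2) (κ := .two A e 0) 1 3
    (Mac.two3 A e _ m2') (by simp [dl]) rfl rfl
  have r4 := hop (M := Function.update (Function.update M (Y 1) 0) (Y 2) 0)
    (M' := Function.update (Function.update M (Y 1) 0) (Y 2) 0) hY (i := 3) (κ := .k3 A e 3) 0 3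
    (Mac.k3 A e 3 _) (by simp [dl]) rfl (Function.update_eq_self _ _)
  have r5 := last (Function.update (Function.update M (Y 1) 0) (Y 2) 0) (Y 3) us A e 3
  have h5 : (A == sub 3) = A := by cases A <;> rfl
  rw [h5] at r5
  exact (((r1.trans r2).trans r3).trans r4).trans r5

theorem path2 (e : Bool) (M : ℤ → Fin 3) (hY : ∀ i, Y i = z + sg A * i * 3 ^ us.length)
    (h1 : hat A (typ (Y 1)) = 1) (h2 : hat A (typ (Y 2)) = 2) (h12 : Y 1 ≠ Y 2)
    (m1 : hat e (M (Y 1)) = 1) (m2 : hat e (M (Y 2)) = 2) :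
    Run (cost us.length - 1)
      ⟨M, rig (Y 1) us, Y 1 - 1, .L (.k1 (!A) e (look (hat (!A) (typ (Y 1)))))⟩
      ⟨Function.update (Function.update M (Y 1) 0) (Y 2) 0,
        rig (Y 3) ((if e then 2 else 4 - 2) :: us), Y 3, .V (A == e) e⟩ := by
  have h1' : hat (!A) (typ (Y 1)) = 2 := by rw [hat_not, h1]; rfl
  have h2' : hat (!A) (typ (Y 2)) = 1 := by rw [hat_not, h2]; rfl
  rw [cost_eq, h1']
  have r1 := hop0 (M := M) (κ' := .k1 (!A) e (look 2)) hY (i := 1) 1 2
    (by simp [dl, look, lk, sg_not]) rfl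
  have r2 := hop (M := M) (M' := Function.update M (Y 2) 0) hY (i := 2)
    (κ := .k1 (!A) e (look 2)) (-1) 1 (Mac.behind1 (!A) e _ h2') (by simp [dl, sg_not]) rfl rfl
  rw [m2] at r2
  have m1' : hat e (Function.update M (Y 2) 0 (Y 1)) = 1 := by
    rw [Function.update_of_ne h12, m1]
  have r3 := hop (M := Function.update M (Y 2) 0)
    (M' := Function.update (Function.update M (Y 1) 0) (Y 2) 0) hY (i := 1)
    (κ := .two (!A) e 2) 1 2
    (Mac.two2 (!A) e _ m1') (by simp [dl, sg_not]) rfl (Function.update_comm h12.symm _ _ _)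
  have r4 := hop (M := Function.update (Function.update M (Y 1) 0) (Y 2) 0)
    (M' := Function.update (Function.update M (Y 1) 0) (Y 2) 0) hY (i := 2)
    (κ := .k3 (!A) e 2) 1 3
    (Mac.k3 (!A) e 2 _) (by simp [dl, sg_not]) rfl (Function.update_eq_self _ _)
  have r5 := last (Function.update (Function.update M (Y 1) 0) (Y 2) 0) (Y 3) us (!A) e 2
  have h5 : ((!A) == sub 2) = A := by cases A <;> rfl
  rw [h5] at r5
  exact (((r1.trans r2).trans r3).trans r4).trans r5

theorem path4 (e : Bool) (M : ℤ → Fin 3) (hY : ∀ i, Y i = z + sg A * i * 3 ^ us.length)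
    (h2 : hat A (typ (Y 2)) = 2) (h4 : hat A (typ (Y 4)) = 1) :
    Run (cost us.length - 1)
      ⟨M, rig (Y 3) us, Y 3 - 1, .L (.k1 A e (look (hat A (typ (Y 3)))))⟩
      ⟨M, rig (Y 3) ((if e then 4 else 4 - 4) :: us), Y 3, .V (A == e) e⟩ := by
  have key : ∀ (j i' : ℤ) (l : Look), l = look (hat A (typ (Y 3))) → lk l = j → i' = 3 + j →
      Mac (typ (Y i')) (.R (.k1 A e l)) (M (Y i')) (.L (.three A e l)) (M (Y i')) →
      Run (cost us.length - 1)
        ⟨M, rig (Y 3) us, Y 3 - 1, .L (.k1 A e (look (hat A (typ (Y 3)))))⟩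
        ⟨M, rig (Y 3) ((if e then 4 else 4 - 4) :: us), Y 3, .V (A == e) e⟩ := by
    intro j i' l hl hj hi hm
    subst hl
    have r1 := hop0 (M := M) (κ' := .k1 A e (look (hat A (typ (Y 3))))) hY (i := 3) j i'
      (by simp only [dl, hj]) hi
    have r2 := hop (M := M) (M' := M) hY (i := i')
      (κ := .k1 A e (look (hat A (typ (Y 3))))) (-j) 3 hm (by simp only [dl, hj]; ring)
      (by rw [hi]; ring) (Function.update_eq_self _ _)
    have r3 := hop (M := M) (M' := M) hY (i := 3)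
      (κ := .three A e (look (hat A (typ (Y 3))))) 0 3
      (Mac.three A e _) (by simp [dl]) rfl (Function.update_eq_self _ _)
    have r4 := hop (M := M) (M' := M) hY (i := 3) (κ := .k3 A e 4) 0 3
      (Mac.k3 A e 4 _) (by simp [dl]) rfl (Function.update_eq_self _ _)
    have r5 := last M (Y 3) us A e 4
    have h5 : (A == sub 4) = A := by cases A <;> rfl
    rw [h5] at r5
    rw [cost_eq]
    exact (((r1.trans r2).trans r3).trans r4).trans r5
  have h3 : hat A (typ (Y 3)) = 0 ∨ hat A (typ (Y 3)) = 1 ∨ hat A (typ (Y 3)) = 2 := by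
    generalize hat A (typ (Y 3)) = b
    revert b
    decide
  rcases h3 with h3 | h3 | h3
  · exact key 0 3 .here (by rw [h3]; rfl) rfl rfl (Mac.here0 A e _ h3)
  · exact key 1 4 .ahead (by rw [h3]; rfl) rfl rfl (Mac.ahead1 A e _ h4)
  · exact key (-1) 2 .behind (by rw [h3]; rfl) rfl rfl (Mac.behind2 A e _ h2)

theorem path (e : Bool) (d : Fin 5) (M : ℤ → Fin 3)
    (hY : ∀ i, Y i = z + sg A * i * 3 ^ us.length)
    (h1 : hat A (typ (Y 1)) = 1) (h2 : hat A (typ (Y 2)) = 2) (h4 : hat A (typ (Y 4)) = 1)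
    (m1 : hat e (M (Y 1)) = tab1 d) (m2 : hat e (M (Y 2)) = tab2 d)
    (D₀ : Bool) (hD : (D₀ == e) = (A == sub d)) :
    ∃ c, Step ⟨M, rig (Y (oe d)) us, Y (oe d), .V D₀ e⟩ c ∧
      Run (cost us.length - 1) c
        ⟨Function.update (Function.update M (Y 1) 0) (Y 2) 0,
          rig (Y 3) ((if e then d else 4 - d) :: us), Y 3, .V (A == e) e⟩ := by
  have h12 : Y 1 ≠ Y 2 := by
    intro h
    rw [h] at h1
    rw [h1] at h2
    exact absurd h2 (by decide)
  refine ⟨_, step_mac (Mac.start D₀ e _) (Function.update_eq_self _ _) rfl, ?_⟩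
  rw [hD]
  match d, m1, m2 with
  | 0, m1, m2 =>
    have h5 : (A == sub 0) = A := by cases A <;> rfl
    rw [h5, upd_zero (hat_zero m1), upd_zero (hat_zero m2)]
    exact path0 e M hY h1 h2
  | 1, m1, m2 =>
    have h5 : (A == sub 1) = A := by cases A <;> rfl
    rw [h5]
    exact path1 e M hY h1 h2 h12 m1 m2
  | 2, m1, m2 =>
    have h5 : (A == sub 2) = !A := by cases A <;> rfl
    rw [h5]
    exact path2 e M hY h1 h2 h12 m1 m2
  | 3, m1, m2 =>
    have h5 : (A == sub 3) = A := by cases A <;> rfl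
    rw [h5]
    exact path3 e M hY h1 h2 h12 m1 m2
  | 4, m1, m2 =>
    have h5 : (A == sub 4) = A := by cases A <;> rfl
    rw [h5, upd_zero (hat_zero m1), upd_zero (hat_zero m2)]
    exact path4 e M hY h2 h4

end Path

theorem typ_rel (A : Bool) (x : ℤ) : hat A (typ (3 * x + sg A)) = 1 := by
  cases A
  · have h : 3 * x + sg false = 3 * (x - 1) + 2 := by simp [sg]; ring
    rw [h, typ_two]
    rfl
  · have h : 3 * x + sg true = 3 * x + 1 := by simp [sg]
    rw [h, typ_one]
    rfl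

theorem typ_rel2 (A : Bool) (x : ℤ) : hat A (typ (3 * x + 2 * sg A)) = 2 := by
  cases A
  · have h : 3 * x + 2 * sg false = 3 * (x - 1) + 1 := by simp [sg]; ring
    rw [h, typ_one]
    rfl
  · have h : 3 * x + 2 * sg true = 3 * x + 2 := by simp [sg]
    rw [h, typ_two]
    rfl

theorem tab_swap1 (d : Fin 5) : sw (tab2 d) = tab1 (4 - d) := by
  revert d
  decide

theorem tab_swap2 (d : Fin 5) : sw (tab1 d) = tab2 (4 - d) := by
  revert d
  decide

theorem oe_sub (d : Fin 5) : oe (4 - d) = 3 - off d := by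
  revert d
  decide

theorem dir_swap : ∀ (d : Fin 5) (A : Bool), ((A == sub d) == false) = ((!A) == sub (4 - d)) := by
  decide

theorem four_sub : ∀ d : Fin 5, 4 - (4 - d) = d := by
  decide

theorem inner_ne (n : ℕ) (x : ℤ) (A : Bool) :
    (3 : ℤ) ^ n * (3 * x + 2 * sg A) ≠ 3 ^ n * (3 * x + sg A) := by
  intro h
  have h1 : (3 : ℤ) ^ n ≠ 0 := by positivity
  have h2 := mul_left_cancel₀ h1 h
  cases A <;> simp [sg] at h2

/-- the world after clearing the two inner vertices -/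
theorem W_clear (n : ℕ) (k : ℤ) (d : Fin 5) :
    Function.update (Function.update (W n (5 * k + d)) (3 ^ n * (3 * X k + sg (D k))) 0)
      (3 ^ n * (3 * X k + 2 * sg (D k))) 0 = W (n + 1) k := by
  funext p
  by_cases h2 : p = 3 ^ n * (3 * X k + 2 * sg (D k))
  · rw [h2, Function.update_self, W_inner2]
  · rw [Function.update_of_ne h2]
    by_cases h1 : p = 3 ^ n * (3 * X k + sg (D k))
    · rw [h1, Function.update_self, W_inner1]
    · rw [Function.update_of_ne h1, W_rec, if_neg h1, if_neg h2]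

/-- **Stage theorem.** -/
theorem stage (n : ℕ) (k : ℤ) (d : Fin 5) (e : Bool) (us : List (Fin 5)) (hus : us.length = n) :
    ∃ c, Step (Disp n (5 * k + d) e us) c ∧ Run (cost n - 1) c (Disp (n + 1) k e (d :: us)) := by
  subst hus
  set n := us.length with hn
  have hm1 : W n (5 * k + d) (3 ^ n * (3 * X k + sg (D k))) = tab1 d := by
    rw [W_rec, if_pos rfl]
  have hm2 : W n (5 * k + d) (3 ^ n * (3 * X k + 2 * sg (D k))) = tab2 d := by
    rw [W_rec, if_neg (inner_ne n _ _), if_pos rfl]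
  cases e with
  | true =>
    have e1 : (3 : ℤ) ^ n * (3 * X k) + sg (D k) * 1 * 3 ^ n = 3 ^ n * (3 * X k + sg (D k)) := by
      ring
    have e2 : (3 : ℤ) ^ n * (3 * X k) + sg (D k) * 2 * 3 ^ n =
        3 ^ n * (3 * X k + 2 * sg (D k)) := by
      ring
    have e3 : (3 : ℤ) ^ n * (3 * X k) + sg (D k) * 3 * 3 ^ n = 3 ^ (n + 1) * X (k + 1) := by
      rw [X_succ]
      ring
    have e4 : (3 : ℤ) ^ n * (3 * X k) + sg (D k) * 4 * 3 ^ n =
        3 ^ n * (3 * (X k + sg (D k)) + sg (D k)) := by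
      ring
    have e5 : (3 : ℤ) ^ n * (3 * X k) + sg (D k) * oe d * 3 ^ n = 3 ^ n * X (5 * k + d + 1) := by
      rw [X_rec']
      unfold oe
      ring
    obtain ⟨c, h1, h2⟩ := path (us := us) (A := D k) (z := 3 ^ n * (3 * X k))
      (Y := fun i => 3 ^ n * (3 * X k) + sg (D k) * i * 3 ^ n) true d (W n (5 * k + d))
      (fun i => rfl) (by simp only [e1]; rw [typ_pow, typ_rel])
      (by simp only [e2]; rw [typ_pow, typ_rel2]) (by simp only [e4]; rw [typ_pow, typ_rel])
      (by simp only [e1]; rw [hm1]; rfl) (by simp only [e2]; rw [hm2]; rfl) (D (5 * k + d))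
      (by rw [D_rec]; simp)
    simp only [e1, e2, e3, e5, W_clear, if_true, beq_true] at h1 h2
    refine ⟨c, ?_, ?_⟩
    · simpa only [Disp, if_true] using h1
    · simpa only [Disp, if_true] using h2
  | false =>
    have e1 : (3 : ℤ) ^ n * (3 * X k + 3 * sg (D k)) + sg (!(D k)) * 1 * 3 ^ n =
        3 ^ n * (3 * X k + 2 * sg (D k)) := by
      rw [sg_not]
      ring
    have e2 : (3 : ℤ) ^ n * (3 * X k + 3 * sg (D k)) + sg (!(D k)) * 2 * 3 ^ n =
        3 ^ n * (3 * X k + sg (D k)) := by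
      rw [sg_not]
      ring
    have e3 : (3 : ℤ) ^ n * (3 * X k + 3 * sg (D k)) + sg (!(D k)) * 3 * 3 ^ n =
        3 ^ (n + 1) * X k := by
      rw [sg_not]
      ring
    have e4 : (3 : ℤ) ^ n * (3 * X k + 3 * sg (D k)) + sg (!(D k)) * 4 * 3 ^ n =
        3 ^ n * (3 * X k + sg (!(D k))) := by
      rw [sg_not]
      ring
    have e5 : (3 : ℤ) ^ n * (3 * X k + 3 * sg (D k)) + sg (!(D k)) * oe (4 - d) * 3 ^ n =
        3 ^ n * X (5 * k + d) := by
      rw [X_rec, oe_sub, sg_not]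
      ring
    obtain ⟨c, h1, h2⟩ := path (us := us) (A := !(D k)) (z := 3 ^ n * (3 * X k + 3 * sg (D k)))
      (Y := fun i => 3 ^ n * (3 * X k + 3 * sg (D k)) + sg (!(D k)) * i * 3 ^ n) false (4 - d)
      (W n (5 * k + d))
      (fun i => rfl)
      (by simp only [e1]; rw [typ_pow, hat_not, typ_rel2]; rfl)
      (by simp only [e2]; rw [typ_pow, hat_not, typ_rel]; rfl)
      (by simp only [e4]; rw [typ_pow, typ_rel])
      (by simp only [e1]; rw [hm2]; exact tab_swap1 d)
      (by simp only [e2]; rw [hm1]; exact tab_swap2 d) (D (5 * k + d))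
      (by rw [D_rec]; exact dir_swap d _)
    have h44 : (4 : Fin 5) - (4 - d) = d := four_sub d
    have h45 : ((!(D k)) == false) = D k := by cases D k <;> rfl
    have h46 : Function.update (Function.update (W n (5 * k + d))
        (3 ^ n * (3 * X k + 2 * sg (D k))) 0) (3 ^ n * (3 * X k + sg (D k))) 0 = W (n + 1) k := by
      rw [Function.update_comm (inner_ne n _ _), W_clear]
    simp only [e1, e2, e3, e5, h44, h45, h46, Bool.false_eq_true, if_false] at h1 h2
    refine ⟨c, ?_, ?_⟩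
    · simpa only [Disp, Bool.false_eq_true, if_false] using h1
    · simpa only [Disp, Bool.false_eq_true, if_false] using h2

end Pool.Agent.Lib.H43Dist
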