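import Pool.Agent.Lib.H43Dist.Machine

/-!
# The rules are functional and injective; extension to a permutation
-/

set_option autoImplicit false

namespace Pool.Agent.Lib.H43Dist

theorem hat_injective (A : Bool) : Function.Injective (hat A) := by
  revert A
  decide

theorem beq_right_inj : ∀ D e D' : Bool, (D == e) = (D' == e) → D = D' := by
  decide

theorem Mac.fn {a : Fin 3} {s s₁ s₂ : Q} {m m₁ m₂ : Fin 3} (h₁ : Mac a s m s₁ m₁)
    (h₂ : Mac a s m s₂ m₂) : s₁ = s₂ ∧ m₁ = m₂ := by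
  cases h₁ <;> cases h₂ <;> simp_all

theorem k4_inj : ∀ A e A' e' : Bool, ∀ d d' : Fin 5,
    (if e then d else 4 - d) = (if e' then d' else 4 - d') →
      ((A == sub d) == e) = ((A' == sub d') == e') → e = e' → A = A' ∧ d = d' := by
  decide

theorem Mac.inj' {a : Fin 3} {s s' s₁ s₂ : Q} {m m' m₁ m₂ : Fin 3} (h₁ : Mac a s m s₁ m₁)
    (h₂ : Mac a s' m' s₂ m₂) : s₁ = s₂ → m₁ = m₂ → s = s' ∧ m = m' := by
  cases h₁ <;> cases h₂ <;> intro e₁ e₂ <;> simp only [Q.L.injEq, K.k1.injEq, K.two.injEq,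
    K.one.injEq, K.three.injEq, K.k3.injEq, K.k4.injEq, Q.T.injEq, reduceCtorEq] at e₁
  all_goals try (simp_all; done)
  · obtain ⟨h1, rfl, -⟩ := e₁
    rw [beq_right_inj _ _ _ h1]
    exact ⟨rfl, e₂⟩
  · obtain ⟨rfl, rfl, h1⟩ := e₁
    exact ⟨rfl, hat_injective _ h1⟩
  · rename_i h _ _ h'
    obtain ⟨rfl, rfl, -⟩ := e₁
    exact ⟨rfl, hat_injective _ (h.trans h'.symm)⟩
  · rename_i h _ _ h'
    obtain ⟨rfl, rfl, -⟩ := e₁
    exact ⟨rfl, hat_injective _ (h.trans h'.symm)⟩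
  · rename_i h _ _ h'
    obtain ⟨rfl, rfl, -⟩ := e₁
    exact ⟨rfl, hat_injective _ (h.trans h'.symm)⟩
  · obtain ⟨h1, h2, h3⟩ := e₁
    obtain ⟨rfl, rfl⟩ := k4_inj _ _ _ _ _ _ h1 h2 h3
    rw [h3]
    exact ⟨rfl, e₂⟩

theorem Mac.inj {a : Fin 3} {s s' s₁ : Q} {m m' m₁ : Fin 3} (h₁ : Mac a s m s₁ m₁)
    (h₂ : Mac a s' m' s₁ m₁) : s = s' ∧ m = m' :=
  h₁.inj' h₂ rfl rfl

/-- the state before a macro step -/
theorem Mac.src {a : Fin 3} {s s₁ : Q} {m m₁ : Fin 3} (h : Mac a s m s₁ m₁) :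
    (∃ D e, s = .V D e) ∨ ∃ κ, s = .R κ := by
  cases h <;> simp

/-- the state after a macro step -/
theorem Mac.tgt {a : Fin 3} {s s₁ : Q} {m m₁ : Fin 3} (h : Mac a s m s₁ m₁) :
    (∃ κ, s₁ = .L κ) ∨ ∃ d D e, s₁ = .T d D e := by
  cases h <;> simp

theorem Tr.fn {a : Fin 3} {x y z : Q × Fin 3 × Rg} (h₁ : Tr a x y) (h₂ : Tr a x z) : y = z := by
  cases h₁ <;> cases h₂ <;> first
    | rfl
    | (exfalso; contradiction)
    | skip
  all_goals try (simp_all; done)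
  rename_i h _ _ h'
  obtain ⟨rfl, rfl⟩ := h.fn h'
  rfl

theorem Tr.inj {a : Fin 3} {x y z : Q × Fin 3 × Rg} (h₁ : Tr a x z) (h₂ : Tr a y z) : x = y := by
  cases h₁ <;> cases h₂ <;> first
    | rfl
    | (exfalso; contradiction)
    | skip
  all_goals try (simp_all; done)
  rename_i h _ _ h'
  obtain ⟨rfl, rfl⟩ := h.inj h'
  rfl

/-- A functional and injective relation on a finite type extends to a permutation. -/
theorem exists_perm_of_rel {α : Type} [Finite α] (r : α → α → Prop)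
    (hf : ∀ x y z, r x y → r x z → y = z) (hi : ∀ x y z, r x z → r y z → x = y) :
    ∃ σ : Equiv.Perm α, ∀ x y, r x y → σ x = y := by
  classical
  have := Fintype.ofFinite α
  let f : {x : α // ∃ y, r x y} → {y : α // ∃ x, r x y} := fun x =>
    ⟨x.2.choose, x.1, x.2.choose_spec⟩
  have hfb : Function.Bijective f := by
    constructor
    · intro x x' h
      have h1 : x.2.choose = x'.2.choose := congrArg Subtype.val h
      have h2 := x.2.choose_spec
      have h3 := x'.2.choose_spec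
      rw [← h1] at h3
      exact Subtype.ext (hi _ _ _ h2 h3)
    · rintro ⟨y, x, hxy⟩
      refine ⟨⟨x, y, hxy⟩, ?_⟩
      apply Subtype.ext
      exact hf _ _ _ (Exists.choose_spec (⟨y, hxy⟩ : ∃ y, r x y)) hxy
  refine ⟨(Equiv.ofBijective f hfb).extendSubtype, fun x y hxy => ?_⟩
  rw [Equiv.extendSubtype_apply_of_mem _ x ⟨y, hxy⟩]
  exact hf _ _ _ (Exists.choose_spec (⟨y, hxy⟩ : ∃ y, r x y)) hxy

/-- The rules extend to permutations, one for each type. -/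
theorem exists_rule : ∃ σ : Fin 3 → Equiv.Perm (Q × Fin 3 × Rg), ∀ a x y, Tr a x y → σ a x = y := by
  have h : ∀ a : Fin 3, ∃ σ : Equiv.Perm (Q × Fin 3 × Rg), ∀ x y, Tr a x y → σ x = y := fun a =>
    exists_perm_of_rel (Tr a) (fun _ _ _ h₁ h₂ => h₁.fn h₂) (fun _ _ _ h₁ h₂ => h₁.inj h₂)
  choose σ hσ using h
  exact ⟨σ, hσ⟩

end Pool.Agent.Lib.H43Dist
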