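import Pool.Agent.Lib.H43Dist.Walk0

/-!
# CHUNK D: arithmetic of the slow walk
-/

set_option autoImplicit false

namespace Pool.Agent.Lib.H43Dist

theorem typ_three (p : ℤ) : typ (3 * p) = typ p := by
  by_cases h : p = 0
  · subst h; rfl
  · rw [typ, if_neg (by omega), if_pos (by omega)]
    congr 1
    omega

theorem typ_pow (n : ℕ) (p : ℤ) : typ (3 ^ n * p) = typ p := by
  induction n with
  | zero => simp
  | succ n ih => rw [pow_succ', mul_assoc, typ_three, ih]

theorem typ_one (q : ℤ) : typ (3 * q + 1) = 1 := by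
  rw [typ, if_neg (by omega), if_neg (by omega)]
  apply Fin.ext
  show ((3 * q + 1) % 3).toNat = 1
  omega

theorem typ_two (q : ℤ) : typ (3 * q + 2) = 2 := by
  rw [typ, if_neg (by omega), if_neg (by omega)]
  apply Fin.ext
  show ((3 * q + 2) % 3).toNat = 2
  omega

theorem dig_mul_add (k : ℤ) (d : Fin 5) : dig (5 * k + d) = d := by
  apply Fin.ext
  show ((5 * k + (d : ℤ)) % 5).toNat = d
  omega

theorem div_mul_add (k : ℤ) (d : Fin 5) : (5 * k + (d : ℤ)) / 5 = k := by
  omega

theorem exists_rep (k : ℤ) : ∃ (m : ℤ) (d : Fin 5), k = 5 * m + d := by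
  refine ⟨k / 5, dig k, ?_⟩
  rw [dig_val]
  omega

theorem wk_zero : wk 0 = (0, true) := by rw [wk]; simp

theorem wk_neg_one : wk (-1) = (-1, true) := by rw [wk]; simp

theorem wk_rec (k : ℤ) (d : Fin 5) :
    wk (5 * k + d) = (3 * (wk k).1 + sg (wk k).2 * off d, (wk k).2 == sub d) := by
  by_cases h0 : 5 * k + (d : ℤ) = 0
  · have hk : k = 0 := by omega
    have hd : d = 0 := by apply Fin.ext; show (d : ℕ) = 0; omega
    subst hk hd
    rw [h0, wk_zero]
    rfl
  · by_cases h1 : 5 * k + (d : ℤ) = -1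
    · have hk : k = -1 := by omega
      have hd : d = 4 := by apply Fin.ext; show (d : ℕ) = 4; omega
      subst hk hd
      rw [h1, wk_neg_one]
      rfl
    · rw [wk, if_neg h0, if_neg h1, dig_mul_add, div_mul_add]

theorem X_rec (k : ℤ) (d : Fin 5) : X (5 * k + d) = 3 * X k + sg (D k) * off d := by
  rw [X, wk_rec]; rfl

theorem D_rec (k : ℤ) (d : Fin 5) : D (5 * k + d) = (D k == sub d) := by
  rw [D, wk_rec]; rfl

theorem X_succ (k : ℤ) : X (k + 1) = X k + sg (D k) := by
  induction hn : k.natAbs using Nat.strong_induction_on generalizing k with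
  | _ n ih =>
    subst hn
    obtain ⟨m, d, rfl⟩ := exists_rep k
    rw [X_rec, D_rec]
    have key : ∀ e : Fin 5, (e : ℤ) = d + 1 → X (5 * m + d + 1) = 3 * X m + sg (D m) * off e := by
      intro e he
      rw [add_assoc, ← he, X_rec]
    fin_cases d
    · rw [key 1 rfl]; cases D m <;> simp [sg, off, sub]
    · rw [key 2 rfl]; cases D m <;> simp [sg, off, sub] <;> ring
    · rw [key 3 rfl]; cases D m <;> simp [sg, off, sub] <;> ring
    · rw [key 4 rfl]; cases D m <;> simp [sg, off, sub] <;> ring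
    · have e1 : (5 * m + (((4 : Fin 5) : ℕ) : ℤ) + 1) = 5 * (m + 1) + ((0 : Fin 5) : ℕ) := by
        simp; ring
      have e2 : X (m + 1) = X m + sg (D m) := by
        by_cases hm : m = -1
        · subst hm
          show (wk 0).1 = (wk (-1)).1 + sg (wk (-1)).2
          rw [wk_zero, wk_neg_one]; rfl
        · refine ih _ ?_ m rfl
          show m.natAbs < (5 * m + (4 : ℤ)).natAbs
          omega
      show X (5 * m + (((4 : Fin 5) : ℕ) : ℤ) + 1) = _
      rw [e1, X_rec, e2]
      cases D m <;> simp [sg, off, sub] <;> ring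

/-- end point of sub-edge `d` -/
theorem X_rec' (k : ℤ) (d : Fin 5) :
    X (5 * k + d + 1) = 3 * X k + sg (D k) * ![1, 2, 1, 2, 3] d := by
  rw [X_succ, X_rec, D_rec]
  fin_cases d <;> cases D k <;> simp [sg, off, sub] <;> ring

theorem X_eq_zero (k : ℤ) : X k = 0 ↔ k = 0 := by
  induction hn : k.natAbs using Nat.strong_induction_on generalizing k with
  | _ n ih =>
    subst hn
    by_cases hk : k = 0
    · subst hk
      simp only [iff_true]
      show (wk 0).1 = 0
      rw [wk_zero]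
    · obtain ⟨m, d, rfl⟩ := exists_rep k
      simp only [hk, iff_false]
      rw [X_rec]
      by_cases hm : m = -1 ∧ d = 4
      · obtain ⟨rfl, rfl⟩ := hm
        have : X (-1) = -1 := by show (wk (-1)).1 = -1; rw [wk_neg_one]
        have h2 : D (-1) = true := by show (wk (-1)).2 = true; rw [wk_neg_one]
        rw [this, h2]
        simp [sg, off]
      · have hlt : m.natAbs < (5 * m + (d : ℤ)).natAbs := by
          have : ¬ (m = -1 ∧ (d : ℕ) = 4) := fun h => hm ⟨h.1, Fin.ext h.2⟩
          have := d.2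
          omega
        have hm0 := ih _ hlt m rfl
        fin_cases d
        · simp [off]
          simp at hk
          rw [hm0]; exact hk
        all_goals
          cases D m <;> simp [sg, off] <;> omega

theorem U_zero (k : ℤ) : U k 0 = 0 := by rw [U]; simp

/-- markers on multiples of 3 -/
theorem U_three (k p : ℤ) : U k (3 * p) = U (k / 5) p := by
  by_cases h : p = 0
  · subst h; rw [mul_zero, U_zero, U_zero]
  · rw [U, if_neg (by omega), if_pos (by omega)]
    congr 1
    omega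

/-- markers on the other vertices -/
theorem U_other (k : ℤ) (d : Fin 5) (p : ℤ) (hp : p % 3 ≠ 0) : U (5 * k + d) p =
    if p = 3 * X k + sg (D k) then tab1 d else if p = 3 * X k + 2 * sg (D k) then tab2 d else 0 := by
  rw [U, if_neg (by omega), if_neg hp, dig_mul_add, div_mul_add]

theorem sg_cases (b : Bool) : sg b = 1 ∨ sg b = -1 := by cases b <;> simp [sg]

theorem U_first (k : ℤ) (d : Fin 5) : U (5 * k + d) (3 * X k + sg (D k)) = tab1 d := by
  rw [U_other, if_pos rfl]
  rcases sg_cases (D k) with h | h <;> rw [h] <;> omega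

theorem U_second (k : ℤ) (d : Fin 5) : U (5 * k + d) (3 * X k + 2 * sg (D k)) = tab2 d := by
  rw [U_other, if_neg, if_pos rfl]
  · rcases sg_cases (D k) with h | h <;> rw [h] <;> omega
  · rcases sg_cases (D k) with h | h <;> rw [h] <;> omega

theorem typ_first (k : ℤ) : typ (3 * X k + sg (D k)) = hat (D k) 1 := by
  cases D k
  · have : 3 * X k + sg false = 3 * (X k - 1) + 2 := by simp [sg]; ring
    rw [this, typ_two]; rfl
  · show typ (3 * X k + 1) = _
    rw [typ_one]; rfl

theorem typ_second (k : ℤ) : typ (3 * X k + 2 * sg (D k)) = hat (D k) 2 := by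
  cases D k
  · have : 3 * X k + 2 * sg false = 3 * (X k - 1) + 1 := by simp [sg]; ring
    rw [this, typ_one]; rfl
  · show typ (3 * X k + 2 * 1) = _
    rw [mul_one, typ_two]; rfl

theorem nxt (m : ℤ) (d e : Fin 5) (h : (e : ℕ) = (d : ℕ) + 1) :
    5 * m + (d : ℤ) + 1 = 5 * m + e := by
  rw [h]; push_cast; ring

theorem vertex_aux1 (m : ℤ) (d e : Fin 5) (h : 5 * m + (d : ℤ) + 1 = 5 * m + e)
    (hX : X (5 * m + d + 1) = 3 * X m + sg (D m))
    (hc : ∀ b : Bool, rho (b == sub d) (hat b 1) (tab1 d) = (b == sub e, tab1 e)) :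
    rho (D (5 * m + d)) (typ (X (5 * m + d + 1))) (U (5 * m + d) (X (5 * m + d + 1))) =
      (D (5 * m + d + 1), U (5 * m + d + 1) (X (5 * m + d + 1))) := by
  rw [hX, h, D_rec, D_rec, U_first, U_first, typ_first, hc]

theorem vertex_aux2 (m : ℤ) (d e : Fin 5) (h : 5 * m + (d : ℤ) + 1 = 5 * m + e)
    (hX : X (5 * m + d + 1) = 3 * X m + 2 * sg (D m))
    (hc : ∀ b : Bool, rho (b == sub d) (hat b 2) (tab2 d) = (b == sub e, tab2 e)) :
    rho (D (5 * m + d)) (typ (X (5 * m + d + 1))) (U (5 * m + d) (X (5 * m + d + 1))) =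
      (D (5 * m + d + 1), U (5 * m + d + 1) (X (5 * m + d + 1))) := by
  rw [hX, h, D_rec, D_rec, U_second, U_second, typ_second, hc]

/-- The vertex rule. -/
theorem vertex (k : ℤ) :
    rho (D k) (typ (X (k + 1))) (U k (X (k + 1))) = (D (k + 1), U (k + 1) (X (k + 1))) := by
  induction hn : k.natAbs using Nat.strong_induction_on generalizing k with
  | _ n ih =>
    subst hn
    obtain ⟨m, d, rfl⟩ := exists_rep k
    have hX := X_rec' m d
    fin_cases d
    · exact vertex_aux1 m 0 1 (nxt m _ _ rfl) (by simpa using hX) (by decide)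
    · exact vertex_aux2 m 1 2 (nxt m _ _ rfl) (by simpa [mul_comm] using hX) (by decide)
    · exact vertex_aux1 m 2 3 (nxt m _ _ rfl) (by simpa using hX) (by decide)
    · exact vertex_aux2 m 3 4 (nxt m _ _ rfl) (by simpa [mul_comm] using hX) (by decide)
    · show rho (D (5 * m + ((4 : Fin 5) : ℕ))) (typ (X (5 * m + ((4 : Fin 5) : ℕ) + 1)))
        (U (5 * m + ((4 : Fin 5) : ℕ)) (X (5 * m + ((4 : Fin 5) : ℕ) + 1))) =
        (D (5 * m + ((4 : Fin 5) : ℕ) + 1),
          U (5 * m + ((4 : Fin 5) : ℕ) + 1) (X (5 * m + ((4 : Fin 5) : ℕ) + 1)))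
      have e1 : (5 * m + (((4 : Fin 5) : ℕ) : ℤ) + 1) = 5 * (m + 1) + ((0 : Fin 5) : ℕ) := by
        simp; ring
      have e2 : X (5 * (m + 1) + ((0 : Fin 5) : ℕ)) = 3 * X (m + 1) := by
        rw [X_rec]; simp [off]
      have e3 : D (5 * m + ((4 : Fin 5) : ℕ)) = D m := by rw [D_rec]; simp [sub]
      have e4 : D (5 * (m + 1) + ((0 : Fin 5) : ℕ)) = D (m + 1) := by rw [D_rec]; simp [sub]
      rw [e1, e2, e3, e4, typ_three, U_three, U_three, div_mul_add, div_mul_add]
      by_cases hm : m = -1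
      · subst hm
        have : X (-1 + 1) = 0 := by rw [X_eq_zero]; norm_num
        rw [this, U_zero, U_zero]
        have h0 : D (-1) = true := by show (wk (-1)).2 = true; rw [wk_neg_one]
        have h1 : D (-1 + 1) = true := by show (wk 0).2 = true; rw [wk_zero]
        rw [h0, h1]
        have h2 : typ 0 = 0 := by rw [typ]; simp
        rw [h2]
        rfl
      · refine ih _ ?_ m rfl
        show m.natAbs < (5 * m + (4 : ℤ)).natAbs
        omega

theorem U_succ_aux (m : ℤ) (d e : Fin 5) (h : 5 * m + (d : ℤ) + 1 = 5 * m + e) (p : ℤ)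
    (hp3 : p % 3 ≠ 0)
    (h1 : tab1 e = tab1 d ∨ p ≠ 3 * X m + sg (D m))
    (h2 : tab2 e = tab2 d ∨ p ≠ 3 * X m + 2 * sg (D m)) :
    U (5 * m + d + 1) p = U (5 * m + d) p := by
  rw [h, U_other _ _ _ hp3, U_other _ _ _ hp3]
  by_cases a1 : p = 3 * X m + sg (D m)
  · rw [if_pos a1, if_pos a1]
    rcases h1 with h1 | h1
    · exact h1
    · exact absurd a1 h1
  · rw [if_neg a1, if_neg a1]
    by_cases a2 : p = 3 * X m + 2 * sg (D m)
    · rw [if_pos a2, if_pos a2]
      rcases h2 with h2 | h2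
      · exact h2
      · exact absurd a2 h2
    · rw [if_neg a2, if_neg a2]

theorem U_succ_of_ne (k p : ℤ) (hp : p ≠ X (k + 1)) : U (k + 1) p = U k p := by
  induction hn : p.natAbs using Nat.strong_induction_on generalizing k p with
  | _ n ih =>
    subst hn
    obtain ⟨m, d, rfl⟩ := exists_rep k
    by_cases h0 : p = 0
    · subst h0; rw [U_zero, U_zero]
    by_cases h3 : p % 3 = 0
    · obtain ⟨q, rfl⟩ : ∃ q, p = 3 * q := ⟨p / 3, by omega⟩
      rw [U_three, U_three, div_mul_add]
      by_cases hd : (d : ℕ) = 4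
      · have e1 : 5 * m + (d : ℤ) + 1 = 5 * (m + 1) + ((0 : Fin 5) : ℕ) := by
          simp; omega
        rw [e1, div_mul_add]
        refine ih _ (by omega) m q ?_ rfl
        intro hq
        apply hp
        rw [e1, X_rec, hq]
        simp [off]
      · congr 1
        have := d.2
        omega
    · have hX := X_rec' m d
      fin_cases d
      · refine U_succ_aux m 0 1 (nxt m _ _ rfl) p h3 (Or.inr ?_) (Or.inl rfl)
        intro h; apply hp; rw [h]; simpa using hX.symm
      · refine U_succ_aux m 1 2 (nxt m _ _ rfl) p h3 (Or.inl rfl) (Or.inr ?_)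
        intro h; apply hp; rw [h]; simpa [mul_comm] using hX.symm
      · refine U_succ_aux m 2 3 (nxt m _ _ rfl) p h3 (Or.inr ?_) (Or.inl rfl)
        intro h; apply hp; rw [h]; simpa using hX.symm
      · refine U_succ_aux m 3 4 (nxt m _ _ rfl) p h3 (Or.inl rfl) (Or.inr ?_)
        intro h; apply hp; rw [h]; simpa [mul_comm] using hX.symm
      · show U (5 * m + (((4 : Fin 5) : ℕ) : ℤ) + 1) p = U (5 * m + (((4 : Fin 5) : ℕ) : ℤ)) p
        have e1 : 5 * m + (((4 : Fin 5) : ℕ) : ℤ) + 1 = 5 * (m + 1) + ((0 : Fin 5) : ℕ) := by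
          simp; ring
        rw [e1, U_other _ _ _ h3, U_other _ _ _ h3]
        have t1 : tab1 0 = 0 := rfl
        have t2 : tab2 0 = 0 := rfl
        have t3 : tab1 4 = 0 := rfl
        have t4 : tab2 4 = 0 := rfl
        rw [t1, t2, t3, t4]
        simp

theorem W_mul (n : ℕ) (k q : ℤ) : W n k (3 ^ n * q) = U k q := by
  have h : (3 : ℤ) ^ n ≠ 0 := by positivity
  rw [W, if_pos (Int.mul_emod_right _ _), Int.mul_ediv_cancel_left _ h]

/-- the vertex rule at display level `n` -/
theorem vertexW (n : ℕ) (k : ℤ) :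
    rho (D k) (typ (3 ^ n * X (k + 1))) (W n k (3 ^ n * X (k + 1))) =
      (D (k + 1), W n (k + 1) (3 ^ n * X (k + 1))) := by
  rw [typ_pow, W_mul, W_mul, vertex]

theorem W_succ_of_ne (n : ℕ) (k p : ℤ) (hp : p ≠ 3 ^ n * X (k + 1)) : W n (k + 1) p = W n k p := by
  by_cases h : p % 3 ^ n = 0
  · obtain ⟨q, rfl⟩ := Int.dvd_of_emod_eq_zero h
    rw [W_mul, W_mul]
    apply U_succ_of_ne
    rintro rfl
    exact hp rfl
  · rw [W, W, if_neg h, if_neg h]

theorem W_succ_three (n : ℕ) (k q : ℤ) : W (n + 1) k (3 ^ n * (3 * q)) = U k q := by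
  rw [← mul_assoc, ← pow_succ, W_mul]

theorem W_succ_other (n : ℕ) (k q : ℤ) (hq : q % 3 ≠ 0) : W (n + 1) k (3 ^ n * q) = 0 := by
  rw [W, if_neg]
  intro h
  obtain ⟨r, hr⟩ := Int.dvd_of_emod_eq_zero h
  rw [pow_succ, mul_assoc] at hr
  have h0 : (3 : ℤ) ^ n ≠ 0 := by positivity
  have := mul_left_cancel₀ h0 hr
  omega

/-- passing from display level `n` to display level `n + 1` -/
theorem W_rec (n : ℕ) (k : ℤ) (d : Fin 5) (p : ℤ) :
    W n (5 * k + d) p =
      if p = 3 ^ n * (3 * X k + sg (D k)) then tab1 d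
      else if p = 3 ^ n * (3 * X k + 2 * sg (D k)) then tab2 d else W (n + 1) k p := by
  have h0 : (3 : ℤ) ^ n ≠ 0 := by positivity
  by_cases h : p % 3 ^ n = 0
  · obtain ⟨q, rfl⟩ := Int.dvd_of_emod_eq_zero h
    rw [W_mul]
    simp only [mul_right_inj' h0]
    by_cases h3 : q % 3 = 0
    · obtain ⟨r, rfl⟩ : ∃ r, q = 3 * r := ⟨q / 3, by omega⟩
      rw [U_three, div_mul_add, W_succ_three, if_neg, if_neg]
      · rcases sg_cases (D k) with h | h <;> rw [h] <;> omega
      · rcases sg_cases (D k) with h | h <;> rw [h] <;> omega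
    · rw [U_other _ _ _ h3, W_succ_other _ _ _ h3]
  · have hne : ∀ q : ℤ, p ≠ 3 ^ n * q := by
      rintro q rfl
      exact h (Int.mul_emod_right _ _)
    rw [if_neg (hne _), if_neg (hne _), W, if_neg h, W, if_neg]
    intro h'
    obtain ⟨r, rfl⟩ := Int.dvd_of_emod_eq_zero h'
    apply hne (3 * r)
    rw [pow_succ, mul_assoc]

theorem W_inner1 (n : ℕ) (k : ℤ) : W (n + 1) k (3 ^ n * (3 * X k + sg (D k))) = 0 := by
  apply W_succ_other
  rcases sg_cases (D k) with h | h <;> rw [h] <;> omega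

theorem W_inner2 (n : ℕ) (k : ℤ) : W (n + 1) k (3 ^ n * (3 * X k + 2 * sg (D k))) = 0 := by
  apply W_succ_other
  rcases sg_cases (D k) with h | h <;> rw [h] <;> omega

theorem W_zero (k : ℤ) : W 0 k = U k := by
  funext p
  have := W_mul 0 k p
  simpa using this

end Pool.Agent.Lib.H43Dist
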