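import Mathlib

/-!
# The slow walk: definitions

* `typ p`: the static type of the vertex `p` of the ternary ruler: the first nonzero ternary digit
  of `p` (and `0` for `p = 0`).
* `wk k = (X k, D k)`: position and direction (`true` = right) of the walk at time `k`; edge `k` of
  the walk goes from `X k` to `X (k+1) = X k ± 1`.  It is the fixed point of the substitution
  `R ↦ R R L R R`, `L ↦ L L R L L`.
* `U k p`: marker of the vertex `p` while the walker is on edge `k`.
* `rho D a m`: the vertex rule: arriving in direction `D` at a vertex of type `a` with marker `m`.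
-/

set_option autoImplicit false

namespace Pool.Agent.Lib.H43Dist

/-- sign of a direction -/
def sg (D : Bool) : ℤ := if D then 1 else -1

/-- offset of the start of sub-edge `d` (in units of the sub-edge, in the direction of travel) -/
def off (d : Fin 5) : ℤ := ![0, 1, 2, 1, 2] d

/-- `true` if sub-edge `d` has the direction of its parent edge -/
def sub (d : Fin 5) : Bool := ![true, true, false, true, true] d

/-- marker of the first inner vertex of the parent edge while on sub-edge `d` -/
def tab1 (d : Fin 5) : Fin 3 := ![0, 1, 1, 0, 0] d

/-- marker of the second inner vertex of the parent edge while on sub-edge `d` -/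
def tab2 (d : Fin 5) : Fin 3 := ![0, 0, 2, 2, 0] d

/-- exchange of `1` and `2` -/
def sw (a : Fin 3) : Fin 3 := ![0, 2, 1] a

/-- relative version of a type (or marker): mirrored if the flag is `false` -/
def hat (A : Bool) (a : Fin 3) : Fin 3 := if A then a else sw a

/-- residue digit of an integer modulo 5 -/
def dig (k : ℤ) : Fin 5 := ⟨(k % 5).toNat, by omega⟩

/-- `k = 5 * (k/5) + dig k` -/
theorem dig_val (k : ℤ) : ((dig k : Fin 5) : ℤ) = k % 5 := by
  unfold dig
  push_cast
  omega

/-- Static type. -/
def typ (p : ℤ) : Fin 3 :=
  if p = 0 then 0 else if p % 3 = 0 then typ (p / 3) else ⟨(p % 3).toNat, by omega⟩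
termination_by p.natAbs
decreasing_by omega

/-- The walk: position and direction at time `k`. -/
def wk (k : ℤ) : ℤ × Bool :=
  if k = 0 then (0, true) else if k = -1 then (-1, true) else
    (3 * (wk (k / 5)).1 + sg (wk (k / 5)).2 * off (dig k), (wk (k / 5)).2 == sub (dig k))
termination_by k.natAbs
decreasing_by all_goals omega

/-- position -/
def X (k : ℤ) : ℤ := (wk k).1

/-- direction -/
def D (k : ℤ) : Bool := (wk k).2

/-- Markers: `U k p` is the marker of the vertex `p` while the walker is on edge `k`. -/
def U (k p : ℤ) : Fin 3 :=
  if p = 0 then 0 else if p % 3 = 0 then U (k / 5) (p / 3) else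
    if p = 3 * X (k / 5) + sg (D (k / 5)) then tab1 (dig k) else
      if p = 3 * X (k / 5) + 2 * sg (D (k / 5)) then tab2 (dig k) else 0
termination_by p.natAbs
decreasing_by omega

/-- The vertex rule: arriving in direction `D` at a vertex of type `a` with marker `m`, the walker
leaves in direction `(rho D a m).1` and leaves the marker `(rho D a m).2`.  For each `a` it is a
permutation of `Bool × Fin 3`. -/
def rho (D : Bool) (a m : Fin 3) : Bool × Fin 3 :=
  if a = 0 then (D, m)
  else if hat D a = 1 then ![(D, 1), (!D, 1), (!D, 2)] m
  else ![(!D, 2), (!D, 0), (D, 0)] m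

theorem rho_injective (a : Fin 3) :
    Function.Injective (fun z : Bool × Fin 3 => rho z.1 a z.2) := by
  revert a
  decide

/-- World at display level `n`: only vertices of level at least `n` carry markers. -/
def W (n : ℕ) (k p : ℤ) : Fin 3 := if p % 3 ^ n = 0 then U k (p / 3 ^ n) else 0

/-- The walk started at edge `5 ^ n * k + ...`: the list of the digits `n-1, ..., 0` of `τ`
(most significant first). -/
def dg : ℕ → ℤ → List (Fin 5)
  | 0, _ => []
  | n + 1, τ => dig (τ / 5 ^ n) :: dg n τ

end Pool.Agent.Lib.H43Dist
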