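import Mathlib

/-!
# Solvability of groups of fibred permutations of `ℤ × X`
-/

set_option autoImplicit false

namespace Pool.Agent.Lib.H43Dist.Wreath

open Equiv

/-- If the commutator subgroup of `A` is contained in a solvable subgroup `B`, then `A` is
solvable. -/
theorem solvable_of_comm_le {G : Type} [Group G] (A B : Subgroup G) (h : ⁅A, A⁆ ≤ B)
    (hB : Group.IsSolvable B) : Group.IsSolvable A := by
  have hN : ∀ x : A, x ∈ commutator A → (x : G) ∈ B := by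
    intro x hx
    have h1 : (commutator A).map A.subtype = ⁅A, A⁆ := by
      rw [commutator_def, Subgroup.map_commutator]
      congr 1 <;> ext y <;> simp
    exact h (h1 ▸ Subgroup.mem_map_of_mem A.subtype hx)
  let f : (commutator A) →* B :=
    { toFun := fun x => ⟨(x : A), hN x x.2⟩
      map_one' := rfl
      map_mul' := fun _ _ => rfl }
  have hf : Function.Injective f := by
    intro x y hxy
    have : ((x : A) : G) = ((y : A) : G) := congrArg (fun z : B => (z : G)) hxy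
    exact Subtype.ext (Subtype.ext this)
  have := hB
  have : Group.IsSolvable (commutator A) := Group.isSolvable_of_isSolvable_injective hf
  have : Group.IsSolvable (Abelianization A) := Group.isSolvable_of_comm (fun a b => mul_comm a b)
  refine Group.isSolvable_of_ker_le_range (commutator A).subtype (Abelianization.of (G := A)) ?_
  rw [Abelianization.ker_of]
  intro x hx
  exact ⟨⟨x, hx⟩, rfl⟩

variable {X : Type}

/-- fibred permutations that preserve every fibre -/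
def K (D : Subgroup (Perm X)) : Subgroup (Perm (ℤ × X)) where
  carrier := {φ | ∀ s : ℤ, ∃ d ∈ D, ∀ x, φ (s, x) = (s, d x)}
  one_mem' := fun s => ⟨1, D.one_mem, fun x => rfl⟩
  mul_mem' := by
    intro φ ψ hφ hψ s
    obtain ⟨d, hd, h1⟩ := hφ s
    obtain ⟨e, he, h2⟩ := hψ s
    refine ⟨d * e, D.mul_mem hd he, fun x => ?_⟩
    rw [Perm.mul_apply, h2, h1]
    rfl
  inv_mem' := by
    intro φ hφ s
    obtain ⟨d, hd, h1⟩ := hφ s
    refine ⟨d⁻¹, D.inv_mem hd, fun x => ?_⟩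
    rw [Perm.inv_eq_iff_eq, h1]
    simp

theorem mem_K {D : Subgroup (Perm X)} {φ : Perm (ℤ × X)} :
    φ ∈ K D ↔ ∀ s : ℤ, ∃ d ∈ D, ∀ x, φ (s, x) = (s, d x) := Iff.rfl

/-- fibred permutations which shift the index by a constant -/
def W (D : Subgroup (Perm X)) : Subgroup (Perm (ℤ × X)) where
  carrier := {φ | ∃ c : ℤ, ∀ s : ℤ, ∃ d ∈ D, ∀ x, φ (s, x) = (s + c, d x)}
  one_mem' := ⟨0, fun s => ⟨1, D.one_mem, fun x => by simp⟩⟩
  mul_mem' := by
    rintro φ ψ ⟨c, hφ⟩ ⟨c', hψ⟩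
    refine ⟨c' + c, fun s => ?_⟩
    obtain ⟨e, he, h2⟩ := hψ s
    obtain ⟨d, hd, h1⟩ := hφ (s + c')
    refine ⟨d * e, D.mul_mem hd he, fun x => ?_⟩
    rw [Perm.mul_apply, h2, h1, add_assoc]
    rfl
  inv_mem' := by
    rintro φ ⟨c, hφ⟩
    refine ⟨-c, fun s => ?_⟩
    obtain ⟨d, hd, h1⟩ := hφ (s + -c)
    refine ⟨d⁻¹, D.inv_mem hd, fun x => ?_⟩
    rw [Perm.inv_eq_iff_eq, h1]
    simp

theorem mem_W {D : Subgroup (Perm X)} {φ : Perm (ℤ × X)} :
    φ ∈ W D ↔ ∃ c : ℤ, ∀ s : ℤ, ∃ d ∈ D, ∀ x, φ (s, x) = (s + c, d x) := Iff.rfl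

theorem K_comm_le (D : Subgroup (Perm X)) : ⁅K D, K D⁆ ≤ K ⁅D, D⁆ := by
  rw [Subgroup.commutator_le]
  intro φ hφ ψ hψ s
  obtain ⟨d, hd, h1⟩ := hφ s
  obtain ⟨e, he, h2⟩ := hψ s
  refine ⟨d * e * d⁻¹ * e⁻¹, Subgroup.commutator_mem_commutator hd he, fun x => ?_⟩
  have h1' : ∀ x, φ⁻¹ (s, x) = (s, d⁻¹ x) := fun x => by
    rw [Perm.inv_eq_iff_eq, h1]; simp
  have h2' : ∀ x, ψ⁻¹ (s, x) = (s, e⁻¹ x) := fun x => by
    rw [Perm.inv_eq_iff_eq, h2]; simp
  simp only [commutatorElement_def, Perm.mul_apply, h1, h2, h1', h2']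

theorem W_comm_le (D : Subgroup (Perm X)) : ⁅W D, W D⁆ ≤ K D := by
  rw [Subgroup.commutator_le]
  intro φ hφ ψ hψ s
  obtain ⟨c, hφ⟩ := hφ
  obtain ⟨c', hψ⟩ := hψ
  obtain ⟨d1, hd1, h1⟩ := hψ (s - c')
  obtain ⟨d2, hd2, h2⟩ := hφ (s - c' - c)
  obtain ⟨d3, hd3, h3⟩ := hψ (s - c' - c)
  obtain ⟨d4, hd4, h4⟩ := hφ (s - c)
  have h1' : ∀ x, ψ⁻¹ (s, x) = (s - c', d1⁻¹ x) := fun x => by
    rw [Perm.inv_eq_iff_eq, h1]; simp
  have h2' : ∀ x, φ⁻¹ (s - c', x) = (s - c' - c, d2⁻¹ x) := fun x => by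
    rw [Perm.inv_eq_iff_eq, h2]; simp
  have h3' : ∀ x, ψ (s - c' - c, x) = (s - c, d3 x) := fun x => by
    rw [h3]; congr 1; ring
  have h4' : ∀ x, φ (s - c, x) = (s, d4 x) := fun x => by
    rw [h4]; congr 1; ring
  refine ⟨d4 * d3 * d2⁻¹ * d1⁻¹,
    D.mul_mem (D.mul_mem (D.mul_mem hd4 hd3) (D.inv_mem hd2)) (D.inv_mem hd1), fun x => ?_⟩
  simp only [commutatorElement_def, Perm.mul_apply, h1', h2', h3', h4']

theorem K_solvable (D : Subgroup (Perm X)) (hD : ∀ a ∈ D, ∀ b ∈ D, a * b = b * a) :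
    Group.IsSolvable (K D) := by
  refine Group.isSolvable_of_comm fun φ ψ => ?_
  apply Subtype.ext
  apply Equiv.ext
  rintro ⟨s, x⟩
  obtain ⟨d, hd, h1⟩ := φ.2 s
  obtain ⟨e, he, h2⟩ := ψ.2 s
  show (φ : Perm (ℤ × X)) ((ψ : Perm (ℤ × X)) (s, x)) =
    (ψ : Perm (ℤ × X)) ((φ : Perm (ℤ × X)) (s, x))
  rw [h1, h2, h1, h2]
  have := hD d hd e he
  exact congrArg (Prod.mk s) (by
    have := congrArg (fun z : Perm X => z x) this
    exact this)

/-- The main lemma: a group of fibred permutations which shift the index by constants and act on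
the fibres by elements of a metabelian group is solvable. -/
theorem solvable_of_fibred (D D1 : Subgroup (Perm X)) (h1 : ⁅D, D⁆ ≤ D1)
    (h2 : ∀ a ∈ D1, ∀ b ∈ D1, a * b = b * a) (S : Subgroup (Perm (ℤ × X))) (hS : S ≤ W D) :
    Group.IsSolvable S := by
  have hK1 : Group.IsSolvable (K D1) := K_solvable D1 h2
  have hmono : K ⁅D, D⁆ ≤ K D1 := by
    intro φ hφ s
    obtain ⟨d, hd, h⟩ := hφ s
    exact ⟨d, h1 hd, h⟩
  have hK : Group.IsSolvable (K D) := solvable_of_comm_le _ _ ((K_comm_le D).trans hmono) hK1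
  have hW : Group.IsSolvable (W D) := solvable_of_comm_le _ _ (W_comm_le D) hK
  have := hW
  exact Group.isSolvable_of_isSolvable_injective (Subgroup.inclusion_injective hS)

end Pool.Agent.Lib.H43Dist.Wreath
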